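import Mathlib

set_option autoImplicit false

namespace Pool.Agent.Lib.MP_78c86a_lc

open MeasureTheory Set Filter Topology

/-- the sign character of `ZMod 2` -/
noncomputable def sgn (a : ZMod 2) : ℝ := if a = 0 then 1 else -1

theorem zmod2_cases (a : ZMod 2) : a = 0 ∨ a = 1 := by
  revert a; decide

theorem sgn_add (a b : ZMod 2) : sgn (a + b) = sgn a * sgn b := by
  have h11 : (1 + 1 : ZMod 2) = 0 := by decide
  rcases zmod2_cases a with rfl | rfl <;> rcases zmod2_cases b with rfl | rfl <;>
    simp [sgn, h11]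

@[simp] theorem sgn_zero : sgn 0 = 1 := by simp [sgn]
@[simp] theorem sgn_one : sgn 1 = -1 := by simp [sgn]

theorem abs_sgn (a : ZMod 2) : |sgn a| = 1 := by
  rcases zmod2_cases a with rfl | rfl <;> simp

theorem sgn_mul_self (a : ZMod 2) : sgn a * sgn a = 1 := by
  rcases zmod2_cases a with rfl | rfl <;> simp

theorem continuous_sgn : Continuous sgn := continuous_of_discreteTopology

theorem measurable_sgn : Measurable sgn := measurable_from_top

variable {J : Type}

/-- the pairing between finitely supported coefficient vectors and `J → ZMod 2` -/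
noncomputable def pair (c : J →₀ ZMod 2) (k : J → ZMod 2) : ZMod 2 := c.sum fun j a => a * k j

theorem pair_add_right (c : J →₀ ZMod 2) (k l : J → ZMod 2) :
    pair c (k + l) = pair c k + pair c l := by
  simp [pair, Finsupp.sum, mul_add, Finset.sum_add_distrib]

theorem pair_add_left (c d : J →₀ ZMod 2) (k : J → ZMod 2) :
    pair (c + d) k = pair c k + pair d k := by
  classical
  unfold pair
  rw [Finsupp.sum_add_index'] <;> simp [add_mul]

@[simp] theorem pair_single (j : J) (k : J → ZMod 2) : pair (Finsupp.single j 1) k = k j := by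
  simp [pair]

@[simp] theorem pair_zero (k : J → ZMod 2) : pair 0 k = 0 := by simp [pair]

theorem continuous_pair (c : J →₀ ZMod 2) : Continuous (pair c) := by
  unfold pair Finsupp.sum
  fun_prop

theorem measurable_pair (c : J →₀ ZMod 2) : Measurable (pair c) := by
  unfold pair Finsupp.sum
  fun_prop

theorem exists_affine (u : ZMod 2 → ℝ) : ∃ a b : ℝ, ∀ x, u x = a + b * sgn x := by
  refine ⟨(u 0 + u 1) / 2, (u 0 - u 1) / 2, fun x => ?_⟩
  rcases zmod2_cases x with rfl | rfl <;> simp <;> ring

variable [Countable J]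

/-- completeness of the Walsh system -/
theorem walsh_complete (m : Measure (J → ZMod 2)) {f : (J → ZMod 2) → ℝ} (hf : Integrable f m)
    (h : ∀ c : J →₀ ZMod 2, ∫ k, f k * sgn (pair c k) ∂m = 0) : f =ᵐ[m] 0 := by
  classical
  have hint : ∀ g : (J → ZMod 2) → ℝ, Continuous g → Integrable (fun k => f k * g k) m := by
    intro g hg
    have := (hf.integrableOn (s := univ)).mul_continuousOn hg.continuousOn isCompact_univ
    rwa [integrableOn_univ] at this
  have key : ∀ (u : J → ZMod 2 → ℝ) (s : Finset J) (c : J →₀ ZMod 2),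
      ∫ k, f k * (sgn (pair c k) * ∏ j ∈ s, u j (k j)) ∂m = 0 := by
    intro u s
    have hc : ∀ (s : Finset J) (c : J →₀ ZMod 2),
        Continuous (fun k : J → ZMod 2 => sgn (pair c k) * ∏ j ∈ s, u j (k j)) := by
      intro s c
      refine (continuous_sgn.comp (continuous_pair c)).mul ?_
      exact continuous_finsetProd _ fun j _ =>
        (continuous_of_discreteTopology (f := u j)).comp (continuous_apply j)
    induction s using Finset.induction_on with
    | empty => intro c; simpa using h c
    | insert j s hj ih =>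
      intro c
      obtain ⟨a, b, hab⟩ := exists_affine (u j)
      have : (fun k => f k * (sgn (pair c k) * ∏ i ∈ insert j s, u i (k i))) =
          fun k => a * (f k * (sgn (pair c k) * ∏ i ∈ s, u i (k i))) +
            b * (f k * (sgn (pair (c + Finsupp.single j 1) k) * ∏ i ∈ s, u i (k i))) := by
        funext k
        rw [Finset.prod_insert hj, hab, pair_add_left, sgn_add, pair_single]
        ring
      rw [this, integral_add ((hint _ (hc s c)).const_mul a) ((hint _ (hc s _)).const_mul b),
        integral_const_mul, integral_const_mul, ih, ih]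
      simp
  have hall : ∀ s, MeasurableSet s → ∫ k in s, f k ∂m = 0 := by
    refine MeasurableSpace.induction_on_inter (C := fun s _ => ∫ k in s, f k ∂m = 0)
      generateFrom_squareCylinders.symm
      (isPiSystem_squareCylinders (fun _ => MeasurableSpace.isPiSystem_measurableSet) (by simp))
      (by simp) ?_ ?_ ?_
    · rintro - ⟨s, t, ht, rfl⟩
      have hm : MeasurableSet ((s : Set J).pi t) :=
        MeasurableSet.pi s.countable_toSet fun i _ => ht i (mem_univ i)
      rw [← integral_indicator hm, ← key (fun j => (t j).indicator 1) s 0]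
      congr 1
      funext k
      by_cases hk : k ∈ (s : Set J).pi t
      · rw [indicator_of_mem hk, Finset.prod_eq_one]
        · simp
        · intro j hj
          rw [indicator_of_mem (hk j hj)]; rfl
      · rw [indicator_of_notMem hk]
        simp only [Set.mem_pi, Finset.mem_coe, not_forall] at hk
        obtain ⟨j, hj, hkj⟩ := hk
        rw [Finset.prod_eq_zero hj (indicator_of_notMem hkj _)]
        simp
    · intro t ht h0
      have h1 := integral_add_compl ht hf
      have h2 := h 0
      simp only [pair_zero, sgn_zero, mul_one] at h2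
      linarith
    · intro s hd hm h0
      rw [integral_iUnion hm hd hf.integrableOn]
      simp [h0]
  exact hf.ae_eq_zero_of_forall_setIntegral_eq_zero fun s hs _ => hall s hs

variable {Y : Type} [MeasurableSpace Y]

/-- `ρ` is a coboundary over `R` -/
def Cob (μ : Measure Y) (R : Y → Y) (ρ : Y → ZMod 2) : Prop :=
  ∃ h : Y → ZMod 2, Measurable h ∧ ∀ᵐ y ∂μ, h (R y) = h y + ρ y

omit [Countable J] in
theorem Cob.congr {μ : Measure Y} {R : Y → Y} {ρ ρ' : Y → ZMod 2} (h : Cob μ R ρ)
    (e : ρ =ᵐ[μ] ρ') : Cob μ R ρ' := by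
  obtain ⟨h, hm, hh⟩ := h
  refine ⟨h, hm, ?_⟩
  filter_upwards [hh, e] with y h1 h2
  rw [h1, h2]

theorem cob_of_eigen {μ : Measure Y} {R : Y → Y} (hR : Ergodic R μ) {σ : Y → ZMod 2}
    {h : Y → ℝ} (hm : Measurable h) (hh : ∀ᵐ y ∂μ, h (R y) = sgn (σ y) * h y)
    (h0 : ¬ h =ᵐ[μ] 0) : Cob μ R σ := by
  classical
  have habs : (fun y => |h y|) ∘ R =ᵐ[μ] fun y => |h y| := by
    filter_upwards [hh] with y hy
    simp [hy, abs_mul, abs_sgn]
  obtain ⟨c, hc⟩ := hR.ae_eq_const_of_ae_eq_comp₀ hm.abs.nullMeasurable habs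
  have hc0 : c ≠ 0 := by
    rintro rfl
    apply h0
    filter_upwards [hc] with y hy
    simpa using hy
  refine ⟨fun y => if 0 < h y then 0 else 1, ?_, ?_⟩
  · exact Measurable.ite (measurableSet_lt measurable_const hm) measurable_const measurable_const
  · filter_upwards [hh, hc] with y h1 h2
    have hy : h y ≠ 0 := by
      intro h3
      apply hc0
      simpa [h3] using h2.symm
    have h11 : (1 + 1 : ZMod 2) = 0 := by decide
    rw [h1]
    rcases zmod2_cases (σ y) with h3 | h3 <;> rw [h3]
    · simp
    · rcases lt_or_gt_of_ne hy with h4 | h4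
      · simp [h4, h4.not_gt, h11]
      · simp [h4, h4.not_gt]

/-- the skew product -/
def skew (R : Y → Y) (φ : Y → J → ZMod 2) : Y × (J → ZMod 2) → Y × (J → ZMod 2) :=
  fun p => (R p.1, φ p.1 + p.2)

variable {μ : Measure Y} [IsProbabilityMeasure μ] (m : Measure (J → ZMod 2))
  [IsProbabilityMeasure m] [m.IsAddLeftInvariant]

theorem measurePreserving_skew {R : Y → Y} (hR : MeasurePreserving R μ μ)
    {φ : Y → J → ZMod 2} (hφ : Measurable φ) :
    MeasurePreserving (skew R φ) (μ.prod m) (μ.prod m) :=
  hR.skew_product (g := fun y k => φ y + k)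
    ((hφ.comp measurable_fst).add measurable_snd)
    (Eventually.of_forall fun y => map_add_left_eq_self m (φ y))

/-- fibrewise Fourier coefficient -/
noncomputable def coef (F : Y × (J → ZMod 2) → ℝ) (c : J →₀ ZMod 2) (y : Y) : ℝ :=
  ∫ k, F (y, k) * sgn (pair c k) ∂m

omit [Countable J] [m.IsAddLeftInvariant] in
theorem measurable_coef {F : Y × (J → ZMod 2) → ℝ} (hF : Measurable F) (c : J →₀ ZMod 2) :
    Measurable (coef m F c) := by
  have : Measurable (fun p : Y × (J → ZMod 2) => F p * sgn (pair c p.2)) :=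
    hF.mul (measurable_sgn.comp ((measurable_pair c).comp measurable_snd))
  exact (this.stronglyMeasurable.integral_prod_right' (ν := m)).measurable

omit [IsProbabilityMeasure μ] [m.IsAddLeftInvariant] in
theorem exists_coef_ne {F : Y × (J → ZMod 2) → ℝ} (hF : Measurable F) (hb : ∀ p, |F p| ≤ 1)
    (h0 : ¬ F =ᵐ[μ.prod m] 0) : ∃ c, ¬ coef m F c =ᵐ[μ] 0 := by
  by_contra hcon
  push Not at hcon
  apply h0
  have hm : MeasurableSet {p | F p = (0 : Y × (J → ZMod 2) → ℝ) p} :=
    measurableSet_eq_fun hF measurable_const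
  refine (Measure.ae_prod_iff_ae_ae hm).2 ?_
  filter_upwards [ae_all_iff.2 hcon] with y hy
  have hi : Integrable (fun k => F (y, k)) m :=
    Integrable.of_bound (hF.comp measurable_prodMk_left).aestronglyMeasurable 1
      (Eventually.of_forall fun k => hb _)
  exact walsh_complete m hi hy

omit [IsProbabilityMeasure μ] in
theorem coef_eigen {R : Y → Y} {φ : Y → J → ZMod 2} {F : Y × (J → ZMod 2) → ℝ}
    {ρ : Y → ZMod 2} (h : ∀ᵐ p ∂μ.prod m, F (skew R φ p) = sgn (ρ p.1) * F p)
    (c : J →₀ ZMod 2) :
    ∀ᵐ y ∂μ, coef m F c (R y) = sgn (ρ y + pair c (φ y)) * coef m F c y := by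
  filter_upwards [Measure.ae_ae_of_ae_prod h] with y hy
  unfold coef
  rw [← integral_add_left_eq_self _ (φ y), ← integral_const_mul]
  apply integral_congr_ae
  filter_upwards [hy] with k hk
  simp only [skew] at hk
  rw [hk, pair_add_right, sgn_add, sgn_add]
  ring

omit [IsProbabilityMeasure μ] in
theorem exists_cob_of_eigen {R : Y → Y} (hR : Ergodic R μ) {φ : Y → J → ZMod 2}
    {F : Y × (J → ZMod 2) → ℝ} (hF : Measurable F) (hb : ∀ p, |F p| ≤ 1)
    (h0 : ¬ F =ᵐ[μ.prod m] 0)
    {ρ : Y → ZMod 2} (h : ∀ᵐ p ∂μ.prod m, F (skew R φ p) = sgn (ρ p.1) * F p) :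
    ∃ c : J →₀ ZMod 2, Cob μ R (fun y => ρ y + pair c (φ y)) := by
  obtain ⟨c, hc⟩ := exists_coef_ne m hF hb h0
  exact ⟨c, cob_of_eigen hR (measurable_coef m hF c) (coef_eigen m h c) hc⟩

theorem ergodic_skew {R : Y → Y} (hR : Ergodic R μ) {φ : Y → J → ZMod 2} (hφ : Measurable φ)
    (h : ∀ c : J →₀ ZMod 2, c ≠ 0 → ¬ Cob μ R (fun y => pair c (φ y))) :
    Ergodic (skew R φ) (μ.prod m) := by
  classical
  refine ⟨measurePreserving_skew m hR.toMeasurePreserving hφ, ⟨fun A hA hinv => ?_⟩⟩
  let F : Y × (J → ZMod 2) → ℝ := A.indicator 1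
  have hF : Measurable F := measurable_one.indicator hA
  have hF01 : ∀ p, F p = 0 ∨ F p = 1 := fun p => by
    by_cases hp : p ∈ A <;> simp [F, hp]
  have hFi : ∀ p, F (skew R φ p) = F p := fun p => by
    have : skew R φ p ∈ A ↔ p ∈ A := by
      rw [← mem_preimage, hinv]
    by_cases hp : p ∈ A
    · simp [F, hp, this.2 hp]
    · simp [F, hp, mt this.1 hp]
  have hFint : ∀ y, Integrable (fun k => F (y, k)) m := fun y =>
    Integrable.of_bound (hF.comp measurable_prodMk_left).aestronglyMeasurable 1
      (Eventually.of_forall fun k => by rcases hF01 (y, k) with h | h <;> simp [h])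
  have h1 := coef_eigen (μ := μ) m (R := R) (φ := φ) (F := F) (ρ := fun _ => 0)
    (Eventually.of_forall fun p => by simp [hFi]) 0
  obtain ⟨a, ha⟩ := hR.ae_eq_const_of_ae_eq_comp₀ (measurable_coef m hF 0).nullMeasurable
    (by filter_upwards [h1] with y hy; simpa using hy)
  have ha01 : 0 ≤ a ∧ a ≤ 1 := by
    obtain ⟨y, hy⟩ := ha.exists
    simp only [coef, pair_zero, sgn_zero, mul_one, Function.const_apply] at hy
    rw [← hy]
    refine ⟨integral_nonneg fun k => ?_, ?_⟩
    · rcases hF01 (y, k) with h | h <;> simp [h]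
    · calc ∫ k, F (y, k) ∂m ≤ ∫ _k, (1 : ℝ) ∂m := by
            refine integral_mono (hFint y) (integrable_const _) fun k => ?_
            rcases hF01 (y, k) with h | h <;> simp [h]
        _ = 1 := by simp
  let F' : Y × (J → ZMod 2) → ℝ := fun p => F p - a
  have hF' : Measurable F' := hF.sub measurable_const
  have hb : ∀ p, |F' p| ≤ 1 := fun p => by
    rw [abs_le]
    rcases hF01 p with h | h <;> simp only [F', h] <;> constructor <;> linarith [ha01.1, ha01.2]
  have hz : F' =ᵐ[μ.prod m] 0 := by
    by_contra h0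
    obtain ⟨c, hc⟩ := exists_coef_ne m hF' hb h0
    by_cases hc0 : c = 0
    · subst hc0
      apply hc
      filter_upwards [ha] with y hy
      simp only [coef, pair_zero, sgn_zero, mul_one, Function.const_apply, F',
        Pi.zero_apply] at hy ⊢
      rw [integral_sub (hFint y) (integrable_const _), hy]
      simp
    · have h2 := coef_eigen (μ := μ) m (R := R) (φ := φ) (F := F') (ρ := fun _ => 0)
        (Eventually.of_forall fun p => by simp [F', hFi]) c
      apply h c hc0
      simpa using cob_of_eigen hR (measurable_coef m hF' c) h2 hc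
  rw [eventuallyConst_set]
  by_cases h1 : a = 1
  · left
    filter_upwards [hz] with p hp
    by_contra hpA
    simp [F', F, hpA, h1] at hp
  · right
    filter_upwards [hz] with p hp hpA
    simp only [F', F, indicator_of_mem hpA, Pi.one_apply, Pi.zero_apply] at hp
    exact h1 (by linarith)

/-- A measurable intertwining between two skew products over the same rotation covers a
translation of the base and produces cohomological equations. -/
theorem cob_of_conj {G : Type} [AddCommGroup G] [MeasurableSpace G] [MeasurableSub₂ G]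
    [MeasurableSpace.CountablySeparated G] {μ : Measure G} [IsProbabilityMeasure μ] {α : G}
    (hR : Ergodic (α + ·) μ) {φ ψ : G → J → ZMod 2} (hT : Ergodic (skew (α + ·) φ) (μ.prod m))
    {Φ : G × (J → ZMod 2) → G × (J → ZMod 2)} (hΦ : Measurable Φ)
    (h : ∀ᵐ p ∂μ.prod m, Φ (skew (α + ·) φ p) = skew (α + ·) ψ (Φ p)) :
    ∃ S : G, ∀ j, ∃ c : J →₀ ZMod 2, Cob μ (α + ·) (fun x => ψ (x + S) j + pair c (φ x)) := by
  have hm : Measurable (fun p => (Φ p).1 - p.1) := hΦ.fst.sub measurable_fst
  obtain ⟨S, hS⟩ := hT.ae_eq_const_of_ae_eq_comp₀ hm.nullMeasurable (by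
    filter_upwards [h] with p hp
    simp only [Function.comp_apply, hp]
    simp [skew])
  refine ⟨S, fun j => ?_⟩
  refine exists_cob_of_eigen m hR (F := fun p => sgn ((Φ p).2 j))
    (measurable_sgn.comp ((measurable_pi_apply j).comp hΦ.snd)) (fun p => (abs_sgn _).le) ?_ ?_
  · intro h0
    obtain ⟨p, hp⟩ := h0.exists
    have := abs_sgn ((Φ p).2 j)
    simp only [Pi.zero_apply] at hp
    rw [hp] at this
    simp at this
  · filter_upwards [h, hS] with p h1 h2
    have h3 : (Φ p).1 = p.1 + S := by
      simp only [Function.const_apply] at h2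
      rw [← h2]; abel
    rw [h1]
    simp only [skew, Pi.add_apply, sgn_add, h3]

end Pool.Agent.Lib.MP_78c86a_lc
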