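import Mathlib
import Pool.Agent.Lib.MP_78c86a_lc.Skew

set_option autoImplicit false

namespace Pool.Agent.Lib.MP_78c86a_lc

open MeasureTheory Set Filter Topology Metric
open scoped NNReal ENNReal

/-- the circle -/
abbrev Circ : Type := UnitAddCircle

theorem circ_univ : (volume : Measure Circ) univ = 1 := UnitAddCircle.measure_univ

instance circ_prob : IsProbabilityMeasure (volume : Measure Circ) := ⟨circ_univ⟩

/-- the half turn -/
noncomputable def half (e : ZMod 2) : Circ := if e = 0 then 0 else ((1 / 2 : ℝ) : Circ)

@[simp] theorem half_zero : half 0 = 0 := by simp [half]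

theorem half_one : half 1 = ((1 / 2 : ℝ) : Circ) := by simp [half]

theorem half_add (a b : ZMod 2) : half (a + b) = half a + half b := by
  have h11 : (1 + 1 : ZMod 2) = 0 := by decide
  rcases zmod2_cases a with rfl | rfl <;> rcases zmod2_cases b with rfl | rfl
  · simp
  · simp
  · simp
  · rw [h11, half_one, ← AddCircle.coe_add, half_zero]
    norm_num
    exact (AddCircle.coe_period (1 : ℝ)).symm

theorem half_add_self (a : ZMod 2) : half a + half a = 0 := by
  rw [← half_add, CharTwo.add_self_eq_zero, half_zero]

theorem neg_half (a : ZMod 2) : -half a = half a :=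
  neg_eq_of_add_eq_zero_left (half_add_self a)

theorem norm_coe_of_abs_le {x : ℝ} (h : |x| ≤ 1 / 2) : ‖(x : Circ)‖ = |x| :=
  (AddCircle.norm_coe_eq_abs_iff (p := 1) one_ne_zero).2 (by simpa using h)

theorem norm_half_one : ‖half 1‖ = 1 / 2 := by
  rw [half_one, norm_coe_of_abs_le] <;> norm_num [abs_of_pos]

/-- radii of the two kinds of arcs -/
noncomputable def rad (τ : Bool) : ℝ := if τ then 3 / 100 else 1 / 100

/-- centres of the two kinds of arcs -/
noncomputable def ctr (τ : Bool) : Circ := if τ then ((1 / 8 : ℝ) : Circ) else 0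

/-- the four arcs -/
def arc (i : Bool × ZMod 2) : Set Circ := closedBall (ctr i.1 + half i.2) (rad i.1)

theorem rad_pos (τ : Bool) : 1 / 100 ≤ rad τ := by cases τ <;> norm_num [rad]
theorem rad_le (τ : Bool) : rad τ ≤ 3 / 100 := by cases τ <;> norm_num [rad]

theorem measurableSet_arc (i : Bool × ZMod 2) : MeasurableSet (arc i) := measurableSet_closedBall

theorem vol_ball (c : Circ) (τ : Bool) : volume.real (closedBall c (rad τ)) = 2 * rad τ := by
  have h1 := rad_pos τ
  have h2 := rad_le τ
  rw [Measure.real, AddCircle.volume_closedBall, min_eq_right (by linarith),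
    ENNReal.toReal_ofReal (by linarith)]

theorem vol_arc (i : Bool × ZMod 2) : volume.real (arc i) = 2 * rad i.1 := vol_ball _ _

theorem dist_ctr {i j : Bool × ZMod 2} (h : i ≠ j) :
    1 / 8 ≤ dist (ctr i.1 + half i.2) (ctr j.1 + half j.2) := by
  have h8 : ‖((1 / 8 : ℝ) : Circ)‖ = 1 / 8 := by
    rw [norm_coe_of_abs_le] <;> norm_num [abs_of_pos]
  have h38 : ‖((1 / 8 : ℝ) : Circ) + half 1‖ = 3 / 8 := by
    rw [← neg_half, half_one, ← sub_eq_add_neg, ← AddCircle.coe_sub, norm_coe_of_abs_le] <;>
      norm_num [abs_of_neg]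
  have h11 : (1 + 1 : ZMod 2) = 0 := by decide
  obtain ⟨τ, e⟩ := i
  obtain ⟨τ', e'⟩ := j
  have e1 : ctr τ + half e - (ctr τ' + half e') = ctr τ - ctr τ' + half (e + e') := by
    have := neg_half e'
    rw [half_add, sub_eq_add_neg, neg_add, this]; abel
  rw [dist_eq_norm, e1]
  have hn : ∀ e : ZMod 2, ‖-((1 / 8 : ℝ) : Circ) + half e‖ = ‖((1 / 8 : ℝ) : Circ) + half e‖ := by
    intro e
    rw [← norm_neg, neg_add, neg_neg, neg_half]
  cases τ <;> cases τ' <;> rcases zmod2_cases e with rfl | rfl <;>
    rcases zmod2_cases e' with rfl | rfl <;>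
    first
      | exact absurd rfl h
      | (simp only [ctr, h11, add_zero, zero_add, sub_zero, zero_sub, sub_self, half_zero, hn,
          norm_half_one, h8, h38, norm_neg, if_true, Bool.false_eq_true, if_false]
         try norm_num)

theorem arc_disjoint {i j : Bool × ZMod 2} {y : Circ} (hi : y ∈ arc i) (hj : y ∈ arc j) :
    i = j := by
  by_contra h
  have h1 := dist_ctr h
  have h2 := dist_triangle_left (ctr i.1 + half i.2) (ctr j.1 + half j.2) y
  have h3 := rad_le i.1
  have h4 := rad_le j.1
  simp only [arc, mem_closedBall] at hi hj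
  linarith

open Classical in
/-- the step function with coefficient vector `q` -/
noncomputable def val (q : Bool × ZMod 2 → ZMod 2) (y : Circ) : ZMod 2 :=
  ∑ i, if y ∈ arc i then q i else 0

theorem val_add (q q' : Bool × ZMod 2 → ZMod 2) (y : Circ) :
    val (q + q') y = val q y + val q' y := by
  classical
  simp only [val, ← Finset.sum_add_distrib]
  refine Finset.sum_congr rfl fun i _ => ?_
  split_ifs <;> simp

@[simp] theorem val_zero (y : Circ) : val 0 y = 0 := by simp [val]

theorem val_of_mem (q : Bool × ZMod 2 → ZMod 2) {y : Circ} {i : Bool × ZMod 2}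
    (h : y ∈ arc i) : val q y = q i := by
  classical
  rw [val, Finset.sum_eq_single i]
  · simp [h]
  · intro j _ hj
    rw [if_neg]
    exact fun h' => hj (arc_disjoint h' h)
  · simp

theorem exists_of_val_ne {q : Bool × ZMod 2 → ZMod 2} {y : Circ} (h : val q y ≠ 0) :
    ∃ i, y ∈ arc i ∧ q i ≠ 0 := by
  classical
  obtain ⟨i, -, hi⟩ := Finset.exists_ne_zero_of_sum_ne_zero h
  by_cases hy : y ∈ arc i
  · exact ⟨i, hy, by simpa [hy] using hi⟩
  · simp [hy] at hi

theorem measurable_val (q : Bool × ZMod 2 → ZMod 2) : Measurable (val q) := by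
  classical
  unfold val
  refine Finset.measurable_sum _ fun i _ => ?_
  exact Measurable.ite (measurableSet_arc i) measurable_const measurable_const

theorem add_half_mem_arc (y : Circ) (a : ZMod 2) (i : Bool × ZMod 2) :
    y + half a ∈ arc i ↔ y ∈ arc (i.1, i.2 + a) := by
  simp only [arc, mem_closedBall, half_add, ← add_assoc]
  rw [← dist_add_right (y + half a) _ (half a), add_assoc y, half_add_self, add_zero]

theorem val_add_half (q : Bool × ZMod 2 → ZMod 2) (y : Circ) (a : ZMod 2) :
    val q (y + half a) = val (fun i => q (i.1, i.2 + a)) y := by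
  classical
  by_cases h : ∃ i, y ∈ arc i
  · obtain ⟨i, hi⟩ := h
    have : y + half a ∈ arc (i.1, i.2 + a) := by
      rw [add_half_mem_arc]
      simpa [add_assoc, CharTwo.add_self_eq_zero] using hi
    rw [val_of_mem _ this, val_of_mem _ hi]
  · have h1 : val q (y + half a) = 0 := by
      by_contra h0
      obtain ⟨i, hi, -⟩ := exists_of_val_ne h0
      exact h ⟨_, (add_half_mem_arc y a i).1 hi⟩
    have h2 : val (fun i => q (i.1, i.2 + a)) y = 0 := by
      by_contra h0
      obtain ⟨i, hi, -⟩ := exists_of_val_ne h0
      exact h ⟨_, hi⟩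
    rw [h1, h2]

theorem vol_ball_diff (c c' : Circ) (τ : Bool) {δ : ℝ≥0} (h : dist c c' ≤ δ) :
    volume (closedBall c (rad τ) \ closedBall c' (rad τ)) ≤ 2 * δ := by
  have h1 := rad_pos τ
  have h2 := rad_le τ
  have hδ : (0 : ℝ) ≤ δ := δ.2
  calc volume (closedBall c (rad τ) \ closedBall c' (rad τ))
      ≤ volume (closedBall c' (rad τ + δ) \ closedBall c' (rad τ)) := by
        apply measure_mono
        apply sdiff_subset_sdiff_left
        exact closedBall_subset_closedBall' (by linarith)
    _ = volume (closedBall c' (rad τ + δ)) - volume (closedBall c' (rad τ)) :=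
        measure_sdiff (closedBall_subset_closedBall (by linarith))
          measurableSet_closedBall.nullMeasurableSet (measure_ne_top _ _)
    _ ≤ 2 * δ := by
        rw [AddCircle.volume_closedBall, AddCircle.volume_closedBall, tsub_le_iff_right,
          min_eq_right (show 2 * rad τ ≤ 1 by linarith)]
        have : (2 * δ : ℝ≥0∞) = ENNReal.ofReal (2 * δ) := by
          rw [ENNReal.ofReal_mul (by norm_num)]; simp
        rw [this, ← ENNReal.ofReal_add (by linarith) (by linarith)]
        exact ENNReal.ofReal_le_ofReal ((min_le_right _ _).trans (by linarith))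

theorem vol_val_shift (q : Bool × ZMod 2 → ZMod 2) {a : Circ} {δ : ℝ≥0} (h : ‖a‖ ≤ δ) :
    volume {y | val q (a + y) ≠ val q y} ≤ 16 * δ := by
  classical
  let c : Bool × ZMod 2 → Circ := fun i => ctr i.1 + half i.2
  have hmem : ∀ i y, a + y ∈ arc i ↔ y ∈ closedBall (c i - a) (rad i.1) := by
    intro i y
    simp only [arc, mem_closedBall, c]
    rw [← dist_add_left a y, add_sub_cancel]
  have hsub : {y | val q (a + y) ≠ val q y} ⊆ ⋃ i ∈ (Finset.univ : Finset (Bool × ZMod 2)),
      ((closedBall (c i) (rad i.1) \ closedBall (c i - a) (rad i.1)) ∪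
        (closedBall (c i - a) (rad i.1) \ closedBall (c i) (rad i.1))) := by
    intro y hy
    by_contra hcon
    apply hy
    simp only [Finset.mem_univ, iUnion_true, mem_iUnion, not_exists, mem_union, Set.mem_sdiff] at hcon
    unfold val
    refine Finset.sum_congr rfl fun i _ => ?_
    have h1 := hcon i
    have h2 : a + y ∈ arc i ↔ y ∈ arc i := by
      rw [hmem]
      change _ ↔ y ∈ closedBall (c i) (rad i.1)
      constructor
      · intro h3
        by_contra h4
        exact h1 (Or.inr ⟨h3, h4⟩)
      · intro h3
        by_contra h4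
        exact h1 (Or.inl ⟨h3, h4⟩)
    simp only [h2]
  have hd : ∀ i, dist (c i) (c i - a) ≤ δ := fun i => by
    rw [dist_eq_norm, sub_sub_cancel]; exact h
  calc volume {y | val q (a + y) ≠ val q y} ≤ _ := measure_mono hsub
    _ ≤ _ := measure_biUnion_finset_le _ _
    _ ≤ ∑ _i : Bool × ZMod 2, (2 * δ + 2 * δ : ℝ≥0∞) := by
        refine Finset.sum_le_sum fun i _ => (measure_union_le _ _).trans (add_le_add ?_ ?_)
        · exact vol_ball_diff _ _ _ (hd i)
        · exact vol_ball_diff _ _ _ (by rw [dist_comm]; exact hd i)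
    _ = 16 * δ := by
        simp only [Finset.sum_const, Finset.card_univ, Fintype.card_prod, Fintype.card_bool,
          ZMod.card, nsmul_eq_mul]
        push_cast
        ring

/-- `g` is nearly invariant under all rotations -/
def NearInv (g : Circ → ZMod 2) : Prop :=
  ∀ θ, volume {y | g (θ + y) ≠ g y} ≤ ENNReal.ofReal (1 / 1000)

theorem NearInv.small {g : Circ → ZMod 2} (h : NearInv g) (hm : Measurable g)
    (hs : volume.real {y | g y ≠ 0} ≤ 1 / 2) : volume.real {y | g y ≠ 0} ≤ 2 / 1000 := by
  set E := {y | g y ≠ 0} with hE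
  have hEm : MeasurableSet E := (measurableSet_eq_fun hm measurable_const).compl
  have hmp := measurePreserving_add_prod (volume : Measure Circ) (volume : Measure Circ)
  have h1 := hmp.measure_preimage (hEm.compl.prod hEm).nullMeasurableSet
  rw [Measure.prod_prod, Measure.prod_apply (hmp.measurable (hEm.compl.prod hEm))] at h1
  have h2 : volume Eᶜ * volume E ≤ ENNReal.ofReal (1 / 1000) := by
    rw [← h1]
    calc _ ≤ ∫⁻ _θ : Circ, ENNReal.ofReal (1 / 1000) := by
          refine lintegral_mono fun θ => le_trans (measure_mono ?_) (h θ)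
          intro y hy
          simp only [mem_preimage, mem_prod, mem_compl_iff, hE, mem_ofPred_eq, not_not] at hy
          simp only [mem_ofPred_eq, hy.1]
          exact fun h' => hy.2 h'.symm
      _ = _ := by simp
  have h3 : volume.real Eᶜ * volume.real E ≤ 1 / 1000 := by
    rw [Measure.real, Measure.real, ← ENNReal.toReal_mul]
    exact ENNReal.toReal_le_of_le_ofReal (by norm_num) h2
  rw [probReal_compl_eq_one_sub hEm] at h3
  have h4 : 0 ≤ volume.real E := measureReal_nonneg
  nlinarith

theorem vol_support_val (q : Bool × ZMod 2 → ZMod 2) :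
    volume.real {y | val q y ≠ 0} ≤ 24 / 100 := by
  have hsub : {y | val q y ≠ 0} ⊆ ⋃ i ∈ (Finset.univ : Finset (Bool × ZMod 2)), arc i := by
    intro y hy
    obtain ⟨i, hi, -⟩ := exists_of_val_ne hy
    simp only [Finset.mem_univ, iUnion_true, mem_iUnion]
    exact ⟨i, hi⟩
  calc volume.real {y | val q y ≠ 0} ≤ _ := measureReal_mono hsub (measure_ne_top _ _)
    _ ≤ _ := measureReal_biUnion_finset_le _ _
    _ ≤ ∑ _i : Bool × ZMod 2, (6 / 100 : ℝ) := by
        refine Finset.sum_le_sum fun i _ => ?_
        rw [vol_arc]
        linarith [rad_le i.1]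
    _ = 24 / 100 := by
        simp only [Finset.sum_const, Finset.card_univ, Fintype.card_prod, Fintype.card_bool,
          ZMod.card, nsmul_eq_mul]
        norm_num

theorem eq_zero_of_nearInv {q : Bool × ZMod 2 → ZMod 2} (h : NearInv (val q)) : q = 0 := by
  have h1 := h.small (measurable_val q) ((vol_support_val q).trans (by norm_num))
  funext i
  by_contra hi
  have : arc i ⊆ {y | val q y ≠ 0} := fun y hy => by
    simp only [mem_ofPred_eq, val_of_mem q hy]
    exact hi
  have h2 := measureReal_mono this (μ := volume)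
  rw [vol_arc] at h2
  linarith [rad_pos i.1]

/-- which half turn a rotation is close to -/
noncomputable def side (s : Circ) : ZMod 2 := if ‖s‖ < 1 / 4 then 0 else 1

theorem side_eq {s : Circ} {e : ZMod 2} (h : ‖s + half e‖ ≤ 6 / 100) : side s = e := by
  rcases zmod2_cases e with rfl | rfl
  · rw [half_zero, add_zero] at h
    rw [side, if_pos (by linarith)]
  · have h1 : ‖half 1‖ ≤ ‖s + half 1‖ + ‖s‖ := by
      have := norm_sub_le (s + half 1) s
      rwa [add_sub_cancel_left] at this
    rw [norm_half_one] at h1
    rw [side, if_neg (by linarith)]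

theorem side_of_nearInv {τ : Bool} {e₀ : ZMod 2} {s : Circ} {q : Bool × ZMod 2 → ZMod 2}
    (h : NearInv (fun y => val (Pi.single (τ, e₀) 1) (y + s) + val q y)) :
    q (τ, 1) = side s + e₀ := by
  classical
  set g : Circ → ZMod 2 := fun y => val (Pi.single (τ, e₀) 1) (y + s) + val q y with hg
  let A : Set Circ := closedBall (ctr τ + half e₀ - s) (rad τ)
  have hA : ∀ y, y ∈ A ↔ y + s ∈ arc (τ, e₀) := by
    intro y
    simp only [arc, mem_closedBall, A]
    rw [← dist_add_right y _ s, sub_add_cancel]
  have hvA : volume.real A = 2 * rad τ := vol_ball _ _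
  have h1 : ∀ y ∈ A, val (Pi.single (τ, e₀) 1) (y + s) = 1 := fun y hy => by
    rw [val_of_mem _ ((hA y).1 hy)]; simp
  have h0 : ∀ y ∉ A, val (Pi.single (τ, e₀) 1) (y + s) = 0 := fun y hy => by
    by_contra hne
    obtain ⟨i, hi, hi'⟩ := exists_of_val_ne hne
    have : i = (τ, e₀) := by
      by_contra h'
      exact hi' (Pi.single_eq_of_ne h' _)
    exact hy ((hA y).2 (this ▸ hi))
  have hgm : Measurable g :=
    ((measurable_val _).comp (measurable_add_const s)).add (measurable_val q)
  set N := {y | g y ≠ 0} with hN
  have hNs : volume.real N ≤ 2 / 1000 := by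
    apply h.small hgm
    have hsub : N ⊆ A ∪ {y | val q y ≠ 0} := by
      intro y hy
      by_contra hcon
      simp only [mem_union, mem_ofPred_eq, not_or, not_not] at hcon
      exact hy (by simp only [hg, h0 y hcon.1, hcon.2, add_zero])
    have := (measureReal_mono hsub (μ := volume)).trans (measureReal_union_le _ _)
    linarith [vol_support_val q, rad_le τ]
  have hsubi : ∀ i, q i ≠ 0 → arc i ⊆ N ∪ A := by
    intro i hi y hy
    by_cases hyA : y ∈ A
    · exact Or.inr hyA
    · left
      simp only [hN, mem_ofPred_eq, hg, h0 y hyA, zero_add, val_of_mem q hy]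
      exact hi
  have hside : ∀ e, q (τ, e) ≠ 0 → side s = e + e₀ := by
    intro e he
    have : (arc (τ, e) ∩ A).Nonempty := by
      by_contra hcon
      have hsub : arc (τ, e) ⊆ N := by
        intro y hy
        rcases hsubi _ he hy with h' | h'
        · exact h'
        · exact absurd ⟨y, hy, h'⟩ hcon
      have := measureReal_mono hsub (μ := volume)
      rw [vol_arc] at this
      linarith [rad_pos τ]
    obtain ⟨y, hy1, hy2⟩ := this
    apply side_eq
    simp only [arc, A, mem_closedBall] at hy1 hy2
    have h3 := dist_triangle_left (ctr τ + half e) (ctr τ + half e₀ - s) y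
    have h4 : ctr τ + half e - (ctr τ + half e₀ - s) = s + half (e + e₀) := by
      have := neg_half e₀
      rw [half_add, sub_sub_eq_add_sub, sub_eq_add_neg, neg_add, this]; abel
    rw [dist_eq_norm, h4] at h3
    linarith [rad_le τ]
  have hex : ∃ e, q (τ, e) ≠ 0 := by
    by_contra hcon
    push Not at hcon
    have hAsub : A ⊆ N ∪ {y | val q y ≠ 0} := by
      intro y hy
      by_contra hc
      simp only [mem_union, hN, mem_ofPred_eq, not_or, not_not, hg, h1 y hy] at hc
      rw [hc.2] at hc
      simp at hc
    cases τ with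
    | false =>
      have hq : q = 0 := by
        funext ⟨τ', e⟩
        cases τ' with
        | false => exact hcon e
        | true =>
          by_contra hne
          have := (measureReal_mono (hsubi _ hne) (μ := volume)).trans (measureReal_union_le _ _)
          rw [vol_arc, hvA] at this
          norm_num [rad] at this
          linarith
      have hsub : A ⊆ N := by simpa [hq] using hAsub
      have := measureReal_mono hsub (μ := volume)
      rw [hvA] at this
      norm_num [rad] at this
      linarith
    | true =>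
      have hsub : A ⊆ N ∪ (arc (false, 0) ∪ arc (false, 1)) := by
        refine hAsub.trans (union_subset_union_right _ fun y hy => ?_)
        obtain ⟨⟨τ', e⟩, hi, hi'⟩ := exists_of_val_ne hy
        cases τ' with
        | true => exact absurd (hcon e) hi'
        | false =>
          rcases zmod2_cases e with rfl | rfl
          · exact Or.inl hi
          · exact Or.inr hi
      have h5 := (measureReal_mono hsub (μ := volume)).trans (measureReal_union_le _ _)
      have h6 := measureReal_union_le (μ := volume) (arc (false, 0)) (arc (false, 1))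
      rw [vol_arc, vol_arc] at h6
      rw [hvA] at h5
      norm_num [rad] at h5 h6
      linarith
  have h11 : (1 + 1 : ZMod 2) = 0 := by decide
  rcases zmod2_cases (q (τ, 1)) with hq | hq
  · obtain ⟨e, he⟩ := hex
    rcases zmod2_cases e with rfl | rfl
    · rw [hq, hside 0 he, zero_add, CharTwo.add_self_eq_zero]
    · exact absurd hq he
  · rw [hq, hside 1 (by rw [hq]; exact one_ne_zero), add_assoc, CharTwo.add_self_eq_zero, add_zero]

end Pool.Agent.Lib.MP_78c86a_lc
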