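import Mathlib

set_option autoImplicit false

namespace Pool.Agent.Lib.MP_78c86a_lc

open MeasureTheory
open scoped unitInterval

/-- Lebesgue measure on `[0,1]`. -/
noncomputable abbrev lam : Measure I := volume

/-- `S` is a measure preserving map inverse to `T` almost everywhere. -/
def IsAEInverse (T S : I → I) : Prop :=
  MeasurePreserving S lam lam ∧ S ∘ T =ᵐ[lam] id ∧ T ∘ S =ᵐ[lam] id

/-- Invertible measure preserving transformations of `[0,1]`, identified when they agree
almost everywhere. -/
def MPT : Type :=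
  {T : I →ₘ[lam] I // MeasurePreserving T lam lam ∧ ∃ S : I → I, IsAEInverse T S}

/-- A measurable representative of `T`. -/
noncomputable def MPT.toFun (T : MPT) : I → I := T.1

/-- A measurable representative of the inverse of `T`. -/
noncomputable def MPT.inv (T : MPT) : I → I := T.2.2.choose

/-- The image `T A` of a measurable set, i.e. its preimage under the inverse of `T`, as a point of
the space of measurable sets with distance `λ (A ∆ B)`. -/
noncomputable def MPT.image (T : MPT) (A : MeasuredSets lam) : MeasuredSets lam :=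
  ⟨T.inv ⁻¹' A.1, T.2.2.choose_spec.1.measurable A.2⟩

/-- The weak topology: the coarsest one making all maps `T ↦ T A` continuous for the distance
`λ (A ∆ B)`. -/
noncomputable instance MPT.weakTopology : TopologicalSpace MPT :=
  ⨅ A : MeasuredSets lam, TopologicalSpace.induced (fun T : MPT => T.image A) inferInstance

/-- The ergodic transformations, with the subspace topology. -/
abbrev EMPT : Type := {T : MPT // Ergodic T.toFun lam}

/-- Measure conjugacy: `S = φ T φ⁻¹` almost everywhere for some `φ ∈ MPT`. -/
def Conj (S T : EMPT) : Prop :=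
  ∃ φ : MPT, S.1.toFun =ᵐ[lam] φ.toFun ∘ T.1.toFun ∘ φ.inv

/-- Two σ-algebras on `[0,1]` agree modulo null sets. -/
def EqMod (𝒜 ℬ : MeasurableSpace I) : Prop :=
  (∀ A, MeasurableSet[𝒜] A → ∃ B, MeasurableSet[ℬ] B ∧ A =ᵐ[lam] B) ∧
  (∀ B, MeasurableSet[ℬ] B → ∃ A, MeasurableSet[𝒜] A ∧ B =ᵐ[lam] A)

/-- A factor of `T`: a σ-algebra of Borel sets with `T⁻¹ 𝒜 = 𝒜` modulo null sets. -/
structure Factor (T : I → I) where
  alg : MeasurableSpace I
  le_borel : alg ≤ borel I
  invariant : EqMod (alg.comap T) alg

/-- The factor `ℬ` is an isometric extension of the factor `𝒜`: the pair is isomorphic to a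
homogeneous skew product `(y, u) ↦ (R y, ρ y u)` on `Y × M` over `(Y, ν, R)`, where `M` is a
compact metric space, `H` is a transitive group of isometries of `M` preserving the Borel
probability measure `m`, and `ρ` is a measurable cocycle with values in `H`. -/
def IsIsometricExt {T : I → I} (𝒜 ℬ : Factor T) : Prop :=
  ∃ (Y : Type) (_ : MeasurableSpace Y) (_ : StandardBorelSpace Y) (ν : Measure Y)
    (_ : IsProbabilityMeasure ν) (R : Y → Y)
    (M : Type) (_ : MetricSpace M) (_ : CompactSpace M) (_ : MeasurableSpace M) (_ : BorelSpace M)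
    (m : Measure M) (_ : IsProbabilityMeasure m) (H : Subgroup (M ≃ᵢ M)) (ρ : Y → H)
    (π : I → Y × M),
    MeasurePreserving R ν ν ∧
    (∀ u v : M, ∃ h : H, h.1 u = v) ∧ (∀ h : H, MeasurePreserving h.1 m m) ∧
    Measurable (fun p : Y × M => (ρ p.1).1 p.2) ∧
    MeasurePreserving π lam (ν.prod m) ∧
    (∀ᵐ x ∂lam, π (T x) = (R (π x).1, (ρ (π x).1).1 (π x).2)) ∧
    EqMod ℬ.alg (MeasurableSpace.comap π inferInstance) ∧
    EqMod 𝒜.alg (MeasurableSpace.comap (fun x => (π x).1) inferInstance)

/-- `T` has a Furstenberg tower of length `η`: factors `X a` (`a ≤ η`) from the trivial factor to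
the whole system, with isometric extensions at successor steps and inverse limits at limits. -/
def HasDistalTower (T : I → I) (η : Ordinal.{0}) : Prop :=
  ∃ X : Ordinal.{0} → Factor T,
    EqMod (X 0).alg ⊥ ∧ EqMod (X η).alg (borel I) ∧
    (∀ a < η, IsIsometricExt (X a) (X (a + 1))) ∧
    ∀ a ≤ η, Order.IsSuccLimit a → EqMod (X a).alg (⨆ b < a, (X b).alg)

/-- Measure distal ergodic transformations. -/
def MeasureDistal (T : EMPT) : Prop := ∃ η : Ordinal.{0}, HasDistalTower T.1.toFun η

end Pool.Agent.Lib.MP_78c86a_lc
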