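import Mathlib

set_option autoImplicit false

namespace Pool.Agent.Lib.MP_78c86a_lc

open MeasureTheory Set Filter Topology ProbabilityTheory
open scoped unitInterval

theorem continuous_cdf_of_null (ν : Measure ℝ) [IsProbabilityMeasure ν] [NullSingletonClass ν] :
    Continuous (cdf ν) := by
  rw [continuous_iff_continuousAt]
  intro x
  rw [(cdf ν).mono.continuousAt_iff_leftLim_eq_rightLim, (cdf ν).rightLim_eq]
  have h := (cdf ν).measure_singleton x
  rw [measure_cdf, measure_singleton, eq_comm, ENNReal.ofReal_eq_zero] at h
  exact le_antisymm ((cdf ν).mono.leftLim_le le_rfl) (by linarith)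

theorem exists_iso_unitInterval (ν : Measure I) [IsProbabilityMeasure ν] [NullSingletonClass ν] :
    ∃ (Q F : I → I), MeasurePreserving Q volume ν ∧ MeasurePreserving F ν volume ∧
      (∀ t, F (Q t) = t) ∧ Q ∘ F =ᵐ[ν] id := by
  have hp : IsProbabilityMeasure (ν.map Subtype.val) :=
    Measure.isProbabilityMeasure_map measurable_subtype_coe.aemeasurable
  have hn : NullSingletonClass (ν.map (Subtype.val : I → ℝ)) := ⟨fun x => by
    rw [Measure.map_apply measurable_subtype_coe (measurableSet_singleton x)]
    exact Set.Subsingleton.measure_zero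
      (Set.subsingleton_singleton.preimage Subtype.val_injective) _⟩
  let F : I → I := fun x => ⟨ν.real (Iic x), measureReal_nonneg, measureReal_le_one⟩
  have hIic : ∀ x : I, Iic x = Icc 0 x := fun x => by ext; simp
  have hFc : Continuous F := by
    refine Continuous.subtype_mk ?_ _
    have : (fun x : I => ν.real (Iic x)) = fun x : I => cdf (ν.map Subtype.val) x.1 := by
      funext x; rw [unitInterval.cdf_eq_real, hIic]
    rw [this]
    exact (continuous_cdf_of_null _).comp continuous_subtype_val
  have hFm : Monotone F := fun x y hxy => by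
    change ν.real (Iic x) ≤ ν.real (Iic y)
    exact measureReal_mono (Iic_subset_Iic.2 hxy)
  have hF0 : F 0 = 0 := by
    apply Subtype.ext
    change ν.real (Iic 0) = 0
    rw [hIic, Icc_self]
    simp [Measure.real]
  have hF1 : F 1 = 1 := by
    apply Subtype.ext
    change ν.real (Iic 1) = 1
    have : (Iic (1 : I)) = univ := eq_univ_of_forall fun x => x.2.2
    rw [this]; simp
  have hsurj : ∀ t, ∃ x, F x = t := by
    intro t
    have := intermediate_value_univ (0 : I) 1 hFc
    rw [hF0, hF1] at this
    exact this ⟨t.2.1, t.2.2⟩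
  let Q : I → I := fun t => sSup {x | F x ≤ t}
  have hQm : Monotone Q := fun s t hst => sSup_le_sSup fun x hx => le_trans hx hst
  have hFQ : ∀ t, F (Q t) = t := by
    intro t
    obtain ⟨x, hx⟩ := hsurj t
    apply le_antisymm
    · have hc : IsClosed {x | F x ≤ t} := isClosed_le hFc continuous_const
      exact hc.sSup_mem ⟨x, hx.le⟩
    · rw [← hx]
      exact hFm (le_sSup (show F x ≤ F x from le_rfl))
  have hQ : MeasurePreserving Q volume ν := by
    refine ⟨hQm.measurable, ?_⟩
    apply Measure.ext_of_Iic
    intro x
    rw [Measure.map_apply hQm.measurable measurableSet_Iic]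
    have e : ν (Iic x) = ENNReal.ofReal (F x) := by
      change _ = ENNReal.ofReal (ν.real (Iic x))
      rw [ofReal_measureReal]
    rw [e]
    apply le_antisymm
    · rw [← unitInterval.volume_Iic]
      apply measure_mono
      intro t ht
      have := hFm (show Q t ≤ x from ht)
      rwa [hFQ] at this
    · rw [← unitInterval.volume_Iio]
      apply measure_mono
      intro t ht
      by_contra hc
      have h1 : x ≤ Q t := le_of_lt (not_le.1 hc)
      have := hFm h1
      rw [hFQ] at this
      exact absurd ht (not_lt.2 this)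
  have hF : MeasurePreserving F ν volume := by
    refine ⟨hFc.measurable, ?_⟩
    rw [← hQ.map_eq, Measure.map_map hFc.measurable hQ.measurable]
    have : F ∘ Q = id := funext hFQ
    rw [this, Measure.map_id]
  refine ⟨Q, F, hQ, hF, hFQ, ?_⟩
  have hm : MeasurableSet {x | (Q ∘ F) x = id x} :=
    measurableSet_eq_fun (hQ.measurable.comp hF.measurable) measurable_id
  rw [← hQ.map_eq]
  refine (ae_map_iff hQ.measurable.aemeasurable hm).2 (Eventually.of_forall fun t => ?_)
  simp [hFQ]

/-- Every atomless standard probability space is isomorphic modulo null sets to `[0,1]`. -/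
theorem exists_iso {X : Type} [MeasurableSpace X] [StandardBorelSpace X] (μ : Measure X)
    [IsProbabilityMeasure μ] [NullSingletonClass μ] :
    ∃ (θ : I → X) (θ' : X → I), MeasurePreserving θ volume μ ∧ MeasurePreserving θ' μ volume ∧
      θ' ∘ θ =ᵐ[volume] id ∧ θ ∘ θ' =ᵐ[μ] id := by
  have : Nonempty X := nonempty_of_isProbabilityMeasure μ
  let g := unitInterval.sigmoid ∘ embeddingReal X
  have hg : MeasurableEmbedding g := measurableEmbedding_sigmoid_comp_embeddingReal X
  have hp : IsProbabilityMeasure (μ.map g) :=
    Measure.isProbabilityMeasure_map hg.measurable.aemeasurable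
  have hn : NullSingletonClass (μ.map g) := ⟨fun x => by
    rw [Measure.map_apply hg.measurable (measurableSet_singleton x)]
    exact Set.Subsingleton.measure_zero (Set.subsingleton_singleton.preimage hg.injective) _⟩
  obtain ⟨Q, F, hQ, hF, hFQ, hQF⟩ := exists_iso_unitInterval (μ.map g)
  have hgm : MeasurePreserving g μ (μ.map g) := ⟨hg.measurable, rfl⟩
  have hinv : MeasurePreserving hg.invFun (μ.map g) μ := by
    refine ⟨hg.measurable_invFun, ?_⟩
    rw [Measure.map_map hg.measurable_invFun hg.measurable, hg.leftInverse_invFun.id,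
      Measure.map_id]
  have hgi : g ∘ hg.invFun =ᵐ[μ.map g] id := by
    have hm : MeasurableSet {x | (g ∘ hg.invFun) x = id x} :=
      measurableSet_eq_fun (hg.measurable.comp hg.measurable_invFun) measurable_id
    refine (ae_map_iff hg.measurable.aemeasurable hm).2 (Eventually.of_forall fun t => ?_)
    simp [hg.leftInverse_invFun t]
  refine ⟨hg.invFun ∘ Q, F ∘ g, hinv.comp hQ, hF.comp hgm, ?_, ?_⟩
  · filter_upwards [hQ.quasiMeasurePreserving.ae_eq_comp hgi] with t ht
    simp only [Function.comp_apply, id_eq] at ht ⊢
    rw [ht, hFQ]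
  · filter_upwards [hgm.quasiMeasurePreserving.ae_eq_comp hQF] with t ht
    simp only [Function.comp_apply, id_eq] at ht ⊢
    rw [ht, hg.leftInverse_invFun t]

end Pool.Agent.Lib.MP_78c86a_lc
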