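import Mathlib
import Pool.Agent.Lib.MP_78c86a_lc.Defs

set_option autoImplicit false

namespace Pool.Agent.Lib.MP_78c86a_lc

open MeasureTheory
open scoped unitInterval

/-- The σ-algebras reached by a finite tower of finite type over a discrete spectrum factor of `T`.
The base is generated by countably many eigenfunctions.  A step adjoins the entries of a measurable
matrix function `F` with `F ∘ T = A * F` almost everywhere, where `A` is unitary and measurable for
the previous σ-algebra, and `F` takes finitely many values (finite-to-one extension) or unitary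
values (extension by a compact Lie group). -/
inductive LieTower (T : I → I) : MeasurableSpace I → Prop
  | base (e : ℕ → I → ℂ) (t : ℕ → ℂ) (he : ∀ n, Measurable (e n)) (h1 : ∀ n x, ‖e n x‖ = 1)
      (ht : ∀ n, ∀ᵐ x ∂lam, e n (T x) = t n * e n x) :
      LieTower T (⨆ n, MeasurableSpace.comap (e n) inferInstance)
  | step (𝒜 : MeasurableSpace I) (h : LieTower T 𝒜) (d : ℕ)
      (F A : I → Matrix (Fin d) (Fin d) ℂ)
      (hF : ∀ i j, @Measurable I ℂ (borel I) _ fun x => F x i j)
      (hA : ∀ i j, @Measurable I ℂ 𝒜 _ fun x => A x i j)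
      (hU : ∀ x, A x ∈ Matrix.unitaryGroup (Fin d) ℂ)
      (hc : ∀ᵐ x ∂lam, F (T x) = A x * F x)
      (hk : (Set.range F).Finite ∨ ∀ x, F x ∈ Matrix.unitaryGroup (Fin d) ℂ) :
      LieTower T (𝒜 ⊔ ⨆ i, ⨆ j, MeasurableSpace.comap (fun x => F x i j) inferInstance)

/-- `T` is of finite type over a discrete spectrum factor: such a finite tower reaches the whole
Borel σ-algebra modulo null sets. -/
def LieType (T : EMPT) : Prop :=
  ∃ 𝒜 : MeasurableSpace I, LieTower T.1.toFun 𝒜 ∧ EqMod 𝒜 (borel I)

end Pool.Agent.Lib.MP_78c86a_lc
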