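import Mathlib
import Pool.Agent.Lib.MP_78c86a_lc.LieDefs

set_option autoImplicit false

namespace Pool.Agent.Lib.MP_78c86a_lc.Lie

open MeasureTheory ProbabilityTheory Set Filter Topology
open scoped unitInterval ENNReal

theorem mp (T : MPT) : MeasurePreserving T.toFun lam lam := T.2.1
theorem mp_inv (T : MPT) : MeasurePreserving T.inv lam lam := T.2.2.choose_spec.1
theorem inv_comp (T : MPT) : T.inv ∘ T.toFun =ᵐ[lam] id := T.2.2.choose_spec.2.1
theorem comp_inv (T : MPT) : T.toFun ∘ T.inv =ᵐ[lam] id := T.2.2.choose_spec.2.2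

/-- `ρ` is a joining of `T` (first coordinate) and `S` (second coordinate). -/
structure IsJoin (T S : MPT) (ρ : Measure (I × I)) : Prop where
  prob : IsProbabilityMeasure ρ
  fst : MeasurePreserving Prod.fst ρ lam
  snd : MeasurePreserving Prod.snd ρ lam
  inv : MeasurePreserving (Prod.map T.toFun S.toFun) ρ ρ

theorem IsJoin.fst_eq {T S : MPT} {ρ : Measure (I × I)} (h : IsJoin T S ρ) : ρ.fst = lam :=
  h.fst.map_eq

theorem IsJoin.ker_equiv {T S : MPT} {ρ : Measure (I × I)} [IsProbabilityMeasure ρ]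
    (h : IsJoin T S ρ) :
    ∀ᵐ y ∂lam, ρ.condKernel (T.toFun y) = (ρ.condKernel y).map S.toFun := by
  have hS := (mp S).measurable
  have hT := (mp T).measurable
  have hTi := (mp_inv T).measurable
  let κ : Kernel I I := (ρ.condKernel.map S.toFun).comap T.inv hTi
  have : IsMarkovKernel (ρ.condKernel.map S.toFun) := Kernel.IsMarkovKernel.map _ hS
  have : IsMarkovKernel κ := inferInstance
  have hκ : ρ = ρ.fst ⊗ₘ κ := by
    refine Measure.ext_prod fun {s t} hs ht => ?_
    rw [Measure.compProd_apply_prod hs ht, h.fst_eq]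
    have e1 : ρ (s ×ˢ t) = ρ ((T.toFun ⁻¹' s) ×ˢ (S.toFun ⁻¹' t)) := by
      rw [← h.inv.measure_preimage (hs.prod ht).nullMeasurableSet]
      rfl
    rw [e1]
    conv_lhs => rw [← ρ.disintegrate ρ.condKernel]
    rw [Measure.compProd_apply_prod (hT hs) (hS ht), h.fst_eq]
    have e2 := (mp T).setLIntegral_comp_preimage hs (f := fun y => κ y t)
      (Kernel.measurable_coe κ ht)
    rw [← e2]
    refine lintegral_congr_ae (ae_restrict_of_ae ?_)
    filter_upwards [inv_comp T] with y hy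
    simp only [Function.comp_apply, id_eq] at hy
    simp only [κ, Kernel.comap_apply, hy]
    rw [Kernel.map_apply' _ hS _ ht]
  have h1 := eq_condKernel_of_measure_eq_compProd κ hκ
  rw [h.fst_eq] at h1
  filter_upwards [(mp T).quasiMeasurePreserving.ae h1, inv_comp T] with y hy hy2
  simp only [Function.comp_apply, id_eq] at hy2
  rw [← hy]
  simp only [κ, Kernel.comap_apply, hy2]
  rw [Kernel.map_apply _ hS]

/-- The mean of `f` given the first coordinate. -/
noncomputable def cm (ρ : Measure (I × I)) [IsProbabilityMeasure ρ] (f : I → ℂ) (y : I) : ℂ :=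
  ∫ x, f x ∂(ρ.condKernel y)

theorem measurable_cm (ρ : Measure (I × I)) [IsProbabilityMeasure ρ] {f : I → ℂ}
    (hf : Measurable f) : Measurable (cm ρ f) :=
  (hf.stronglyMeasurable.integral_kernel (κ := ρ.condKernel)).measurable

theorem intg {Z : Type} [MeasurableSpace Z] (ν : Measure Z) [IsFiniteMeasure ν] {f : Z → ℂ}
    (hf : Measurable f) {C : ℝ} (hb : ∀ x, ‖f x‖ ≤ C) : Integrable f ν :=
  Integrable.of_bound hf.aestronglyMeasurable C (ae_of_all _ hb)

theorem cm_dist (ρ : Measure (I × I)) [IsProbabilityMeasure ρ] {f u : I → ℂ}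
    (hf : Measurable f) {C : ℝ} (hb : ∀ x, ‖f x‖ ≤ C) (hu : Measurable u) :
    ∫⁻ p, ‖f p.2 - cm ρ f p.1‖ₑ ∂ρ ≤ 2 * ∫⁻ p, ‖f p.2 - u p.1‖ₑ ∂ρ := by
  have hm : Measurable fun p : I × I => ‖f p.2 - u p.1‖ₑ :=
    ((hf.comp measurable_snd).sub (hu.comp measurable_fst)).enorm
  have hm2 : Measurable fun y : I => ‖u y - cm ρ f y‖ₑ := (hu.sub (measurable_cm ρ hf)).enorm
  have h1 : ∫⁻ p, ‖u p.1 - cm ρ f p.1‖ₑ ∂ρ ≤ ∫⁻ p, ‖f p.2 - u p.1‖ₑ ∂ρ := by
    have e1 : ∫⁻ p, ‖u p.1 - cm ρ f p.1‖ₑ ∂ρ = ∫⁻ y, ‖u y - cm ρ f y‖ₑ ∂ρ.fst := by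
      rw [Measure.fst, lintegral_map hm2 measurable_fst]
    rw [e1]
    conv_rhs => rw [← ρ.disintegrate ρ.condKernel]
    rw [Measure.lintegral_compProd hm]
    refine lintegral_mono fun y => ?_
    have e2 : u y - cm ρ f y = ∫ x, (u y - f x) ∂(ρ.condKernel y) := by
      rw [integral_sub (integrable_const _) (intg _ hf hb)]
      simp [cm]
    simp only
    rw [e2]
    refine (enorm_integral_le_lintegral_enorm _).trans (le_of_eq ?_)
    refine lintegral_congr fun x => ?_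
    rw [enorm_sub_rev]
  calc ∫⁻ p, ‖f p.2 - cm ρ f p.1‖ₑ ∂ρ
      ≤ ∫⁻ p, (‖f p.2 - u p.1‖ₑ + ‖u p.1 - cm ρ f p.1‖ₑ) ∂ρ := by
        refine lintegral_mono fun p => ?_
        have : f p.2 - cm ρ f p.1 = (f p.2 - u p.1) + (u p.1 - cm ρ f p.1) := by ring
        simp only
        rw [this]
        exact enorm_add_le _ _
    _ = ∫⁻ p, ‖f p.2 - u p.1‖ₑ ∂ρ + ∫⁻ p, ‖u p.1 - cm ρ f p.1‖ₑ ∂ρ := lintegral_add_left hm _
    _ ≤ 2 * ∫⁻ p, ‖f p.2 - u p.1‖ₑ ∂ρ := by
        rw [two_mul]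
        gcongr

theorem IsJoin.cm_equiv {T S : MPT} {ρ : Measure (I × I)} [IsProbabilityMeasure ρ]
    (h : IsJoin T S ρ) {d : ℕ} {F A B : I → Matrix (Fin d) (Fin d) ℂ}
    (hF : ∀ i j, Measurable fun x => F x i j) {C : ℝ} (hb : ∀ x i j, ‖F x i j‖ ≤ C)
    (hc : ∀ᵐ x ∂lam, F (S.toFun x) = A x * F x) (hAB : ∀ᵐ p ∂ρ, A p.2 = B p.1) :
    ∀ᵐ y ∂lam, (Matrix.of fun i j => cm ρ (fun x => F x i j) (T.toFun y)) =
      B y * Matrix.of fun i j => cm ρ (fun x => F x i j) y := by
  have h1 : ∀ᵐ p ∂ρ, F (S.toFun p.2) = B p.1 * F p.2 := by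
    filter_upwards [h.snd.quasiMeasurePreserving.ae hc, hAB] with p h1 h2
    rw [← h2]; exact h1
  rw [← ρ.disintegrate ρ.condKernel] at h1
  have h2 := Measure.ae_ae_of_ae_compProd h1
  rw [h.fst_eq] at h2
  filter_upwards [h2, h.ker_equiv] with y hy hk
  ext i j
  simp only [Matrix.of_apply, Matrix.mul_apply, cm]
  rw [hk, integral_map (mp S).measurable.aemeasurable (hF i j).aestronglyMeasurable]
  have e1 : ∫ x, F (S.toFun x) i j ∂(ρ.condKernel y) =
      ∫ x, ∑ k, B y i k * F x k j ∂(ρ.condKernel y) := by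
    refine integral_congr_ae ?_
    filter_upwards [hy] with x hx
    rw [hx, Matrix.mul_apply]
  rw [e1, integral_finsetSum]
  · refine Finset.sum_congr rfl fun k _ => ?_
    rw [integral_const_mul]
  · intro k _
    exact (intg _ (hF k j) (fun x => hb x k j)).const_mul _

/-- The sets of the second coordinate that are determined by the first coordinate under `ρ`. -/
@[instance_reducible] def det (ρ : Measure (I × I)) : MeasurableSpace I where
  MeasurableSet' s := ∃ t, MeasurableSet t ∧ ∀ᵐ p ∂ρ, (p.2 ∈ s ↔ p.1 ∈ t)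
  measurableSet_empty := ⟨∅, MeasurableSet.empty, by simp⟩
  measurableSet_compl s := fun ⟨t, ht, h⟩ => ⟨tᶜ, ht.compl, by
    filter_upwards [h] with p hp
    simp [hp]⟩
  measurableSet_iUnion f hf := by
    choose t ht h using hf
    refine ⟨⋃ i, t i, MeasurableSet.iUnion ht, ?_⟩
    filter_upwards [ae_all_iff.2 h] with p hp
    simp [hp]

theorem det_of_fun {ρ : Measure (I × I)} {Z : Type} [MeasurableSpace Z] {f ψ : I → Z}
    (hψ : Measurable ψ) (h : ∀ᵐ p ∂ρ, f p.2 = ψ p.1) : @Measurable I Z (det ρ) _ f := by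
  intro s hs
  refine ⟨ψ ⁻¹' s, hψ hs, ?_⟩
  filter_upwards [h] with p hp
  simp [hp]

theorem fun_of_det {ρ : Measure (I × I)} {Z : Type} [MeasurableSpace Z] [StandardBorelSpace Z]
    [Nonempty Z] {f : I → Z} (hf : @Measurable I Z (det ρ) _ f) :
    ∃ ψ : I → Z, Measurable ψ ∧ ∀ᵐ p ∂ρ, f p.2 = ψ p.1 := by
  classical
  have hj : MeasurableEmbedding (MeasurableSpace.mapNatBool Z) :=
    (MeasurableSpace.measurable_mapNatBool Z).measurableEmbedding
      (MeasurableSpace.injective_mapNatBool Z)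
  have h1 : ∀ n : ℕ, ∃ t, MeasurableSet t ∧ ∀ᵐ p ∂ρ,
      (p.2 ∈ f ⁻¹' {z | MeasurableSpace.mapNatBool Z z n = true} ↔ p.1 ∈ t) := fun n =>
    hf (((measurable_pi_apply n).comp hj.measurable) (measurableSet_singleton true))
  choose t ht h using h1
  refine ⟨fun y => hj.invFun (fun n => decide (y ∈ t n)), hj.measurable_invFun.comp ?_, ?_⟩
  · refine measurable_pi_lambda _ fun n => ?_
    refine measurable_to_bool ?_
    convert ht n using 1
    ext y
    simp
  · filter_upwards [ae_all_iff.2 h] with p hp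
    have : (fun n => decide (p.1 ∈ t n)) = MeasurableSpace.mapNatBool Z (f p.2) := by
      funext n
      have := hp n
      simp only [mem_preimage, mem_ofPred_eq] at this
      by_cases hx : p.1 ∈ t n
      · simp [hx, this.2 hx]
      · have : ¬ MeasurableSpace.mapNatBool Z (f p.2) n = true := fun e => hx (this.1 e)
        simp [hx, this]
    rw [this, hj.leftInverse_invFun]

end Pool.Agent.Lib.MP_78c86a_lc.Lie
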