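import Mathlib
import Pool.Agent.Lib.MP_78c86a_lc.LieKer

set_option autoImplicit false

namespace Pool.Agent.Lib.MP_78c86a_lc.Lie

open MeasureTheory ProbabilityTheory Set Filter Topology Matrix
open scoped unitInterval ENNReal

theorem gram_const {Z : Type} [MeasurableSpace Z] {ρ : Measure Z} {U : Z → Z} (hU : Ergodic U ρ)
    {d : ℕ} {G K A : Z → Matrix (Fin d) (Fin d) ℂ}
    (hG : ∀ i j, Measurable fun p => G p i j) (hK : ∀ i j, Measurable fun p => K p i j)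
    (hA : ∀ p, A p ∈ Matrix.unitaryGroup (Fin d) ℂ)
    (h1 : ∀ᵐ p ∂ρ, G (U p) = A p * G p) (h2 : ∀ᵐ p ∂ρ, K (U p) = A p * K p) :
    ∃ Γ : Matrix (Fin d) (Fin d) ℂ, ∀ᵐ p ∂ρ, (G p)ᴴ * K p = Γ := by
  have h3 : ∀ i j, ∃ c : ℂ, (fun p => ((G p)ᴴ * K p) i j) =ᵐ[ρ] Function.const Z c := by
    intro i j
    refine hU.ae_eq_const_of_ae_eq_comp₀ (Measurable.nullMeasurable ?_) ?_
    · simp only [Matrix.mul_apply, Matrix.conjTranspose_apply]
      refine Finset.measurable_sum _ fun k _ => ?_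
      exact (continuous_star.measurable.comp (hG k i)).mul (hK k j)
    · filter_upwards [h1, h2] with p e1 e2
      have e3 : (A p)ᴴ * A p = 1 := Matrix.mem_unitaryGroup_iff'.1 (hA p)
      simp only [Function.comp_apply]
      rw [e1, e2, Matrix.conjTranspose_mul, Matrix.mul_assoc, ← Matrix.mul_assoc (A p)ᴴ, e3,
        Matrix.one_mul]
  choose c hc using h3
  refine ⟨Matrix.of c, ?_⟩
  filter_upwards [ae_all_iff.2 fun i => ae_all_iff.2 fun j => hc i j] with p hp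
  ext i j
  exact hp i j

theorem gram_diag {d : ℕ} (G : Matrix (Fin d) (Fin d) ℂ) (i : Fin d) :
    (Gᴴ * G) i i = ((∑ k, ‖G k i‖ ^ 2 : ℝ) : ℂ) := by
  simp only [Matrix.mul_apply, Matrix.conjTranspose_apply]
  push_cast
  refine Finset.sum_congr rfl fun k _ => ?_
  exact Complex.conj_mul' _

/-- `f` is within `δ` in the mean of a function of the first coordinate. -/
def Near (ρ : Measure (I × I)) (f : I → ℂ) (δ : ℝ) : Prop :=
  ∃ u : I → ℂ, Measurable u ∧ ∫⁻ p, ‖f p.2 - u p.1‖ₑ ∂ρ ≤ ENNReal.ofReal δ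

theorem core {d : ℕ} {ε : ℝ} (hε : 0 < ε) : ∃ δ > 0, ∀ {T S : MPT} {ρ : Measure (I × I)},
    IsJoin T S ρ → Ergodic (Prod.map T.toFun S.toFun) ρ →
    ∀ {F A : I → Matrix (Fin d) (Fin d) ℂ}, (∀ i j, Measurable fun x => F x i j) →
    ∀ {C : ℝ}, (∀ x i j, ‖F x i j‖ ≤ C) → (∀ x, A x ∈ Matrix.unitaryGroup (Fin d) ℂ) →
    (∀ᵐ x ∂lam, F (S.toFun x) = A x * F x) →
    (∀ i j, @Measurable I ℂ (det ρ) _ fun x => A x i j) →
    (∀ i j, Near ρ (fun x => F x i j) δ) →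
    ∃ (H : I → Matrix (Fin d) (Fin d) ℂ) (Γ : Matrix (Fin d) (Fin d) ℂ),
      (∀ i j, Measurable fun y => H y i j) ∧ (∀ᵐ p ∂ρ, (H p.1)ᴴ * F p.2 = Γ) ∧
      ∀ᵐ p ∂ρ, ∀ k i, ‖F p.2 k i - H p.1 k i‖ ≤ ε := by
  set η : ℝ := ε / (d + 1) with hη
  have hd : (0 : ℝ) ≤ d := Nat.cast_nonneg d
  have hη0 : 0 < η := by positivity
  refine ⟨η / (2 * d ^ 2 + 1), by positivity, ?_⟩
  intro T S ρ h hU F A hF C hb hA hc hdet hn
  have := h.prob
  choose B hB hAB using fun i j => fun_of_det (hdet i j)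
  have hAB' : ∀ᵐ p ∂ρ, A p.2 = Matrix.of fun i j => B i j p.1 := by
    filter_upwards [ae_all_iff.2 fun i => ae_all_iff.2 fun j => hAB i j] with p hp
    ext i j
    exact hp i j
  let H : I → Matrix (Fin d) (Fin d) ℂ := fun y => Matrix.of fun i j => cm ρ (fun x => F x i j) y
  have hH : ∀ i j, Measurable fun y => H y i j := fun i j => measurable_cm ρ (hF i j)
  have e1 : ∀ᵐ p ∂ρ, H (Prod.map T.toFun S.toFun p).1 = A p.2 * H p.1 := by
    have := h.cm_equiv (B := fun y => Matrix.of fun i j => B i j y) hF hb hc hAB'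
    filter_upwards [h.fst.quasiMeasurePreserving.ae this, hAB'] with p hp hq
    rw [hq]
    exact hp
  have e2 : ∀ᵐ p ∂ρ, F (Prod.map T.toFun S.toFun p).2 = A p.2 * F p.2 :=
    h.snd.quasiMeasurePreserving.ae hc
  obtain ⟨Γ, hΓ⟩ := gram_const hU (G := fun p => H p.1) (K := fun p => F p.2)
    (A := fun p => A p.2) (fun i j => (hH i j).comp measurable_fst)
    (fun i j => (hF i j).comp measurable_snd) (fun p => hA p.2) e1 e2
  have hm : ∀ i j, Measurable fun p : I × I => (F p.2 - H p.1) i j := fun i j =>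
    ((hF i j).comp measurable_snd).sub ((hH i j).comp measurable_fst)
  have e3 : ∀ᵐ p ∂ρ, F (Prod.map T.toFun S.toFun p).2 - H (Prod.map T.toFun S.toFun p).1 =
      A p.2 * (F p.2 - H p.1) := by
    filter_upwards [e1, e2] with p a b
    rw [a, b, Matrix.mul_sub]
  obtain ⟨N, hN⟩ := gram_const hU (G := fun p => F p.2 - H p.1) (K := fun p => F p.2 - H p.1)
    (A := fun p => A p.2) hm hm (fun p => hA p.2) e3 e3
  refine ⟨H, Γ, hH, hΓ, ?_⟩
  have hg : Measurable fun p : I × I => ∑ k, ∑ i, ‖(F p.2 - H p.1) k i‖ₑ :=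
    Finset.measurable_sum _ fun k _ => Finset.measurable_sum _ fun i _ => (hm k i).enorm
  obtain ⟨q, hq1, hq2⟩ := exists_notMem_null_le_lintegral (μ := ρ) hg.aemeasurable
    (ae_iff.1 hN)
  have hq1' : (F q.2 - H q.1)ᴴ * (F q.2 - H q.1) = N := by
    by_contra hcon
    exact hq1 hcon
  have hint : ∫⁻ p, ∑ k, ∑ i, ‖(F p.2 - H p.1) k i‖ₑ ∂ρ ≤ ENNReal.ofReal η := by
    rw [lintegral_finsetSum _ fun k _ => Finset.measurable_sum _ fun i _ => (hm k i).enorm]
    have : ∀ k, ∫⁻ p, ∑ i, ‖(F p.2 - H p.1) k i‖ₑ ∂ρ ≤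
        ENNReal.ofReal (d * (2 * (η / (2 * d ^ 2 + 1)))) := by
      intro k
      rw [lintegral_finsetSum _ fun i _ => (hm k i).enorm]
      have : ∀ i, ∫⁻ p, ‖(F p.2 - H p.1) k i‖ₑ ∂ρ ≤
          ENNReal.ofReal (2 * (η / (2 * d ^ 2 + 1))) := by
        intro i
        obtain ⟨u, hu, hu2⟩ := hn k i
        refine (cm_dist ρ (hF k i) (fun x => hb x k i) hu).trans ?_
        rw [ENNReal.ofReal_mul (by norm_num)]
        simp only [ENNReal.ofReal_ofNat]
        gcongr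
      refine (Finset.sum_le_sum fun i _ => this i).trans ?_
      rw [Finset.sum_const, Finset.card_univ, Fintype.card_fin, nsmul_eq_mul,
        ENNReal.ofReal_mul hd, ENNReal.ofReal_natCast]
    refine (Finset.sum_le_sum fun k _ => this k).trans ?_
    rw [Finset.sum_const, Finset.card_univ, Fintype.card_fin, nsmul_eq_mul,
      ← ENNReal.ofReal_natCast, ← ENNReal.ofReal_mul hd]
    refine ENNReal.ofReal_le_ofReal ?_
    have : (d : ℝ) * (d * (2 * (η / (2 * d ^ 2 + 1)))) = η * (2 * d ^ 2 / (2 * d ^ 2 + 1)) := by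
      ring
    rw [this]
    refine mul_le_of_le_one_right hη0.le ?_
    rw [div_le_one (by positivity)]
    linarith
  have hq3 : ∀ k i, ‖(F q.2 - H q.1) k i‖ ≤ η := by
    intro k i
    have a1 : ‖(F q.2 - H q.1) k i‖ₑ ≤ ENNReal.ofReal η := by
      refine le_trans ?_ (hq2.trans hint)
      refine le_trans ?_ (Finset.single_le_sum (f := fun k => ∑ i, ‖(F q.2 - H q.1) k i‖ₑ)
        (fun _ _ => zero_le) (Finset.mem_univ k))
      exact Finset.single_le_sum (f := fun i => ‖(F q.2 - H q.1) k i‖ₑ)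
        (fun _ _ => zero_le) (Finset.mem_univ i)
    rw [← ofReal_norm] at a1
    exact (ENNReal.ofReal_le_ofReal_iff hη0.le).1 a1
  filter_upwards [hN] with p hp k i
  have a1 : (∑ k, ‖(F p.2 - H p.1) k i‖ ^ 2 : ℝ) = ∑ k, ‖(F q.2 - H q.1) k i‖ ^ 2 := by
    have := gram_diag (F p.2 - H p.1) i
    rw [hp, ← hq1', gram_diag] at this
    exact_mod_cast this.symm
  have a2 : (∑ k, ‖(F q.2 - H q.1) k i‖ ^ 2 : ℝ) ≤ d * η ^ 2 := by
    refine (Finset.sum_le_sum fun k _ => pow_le_pow_left₀ (norm_nonneg _) (hq3 k i) 2).trans ?_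
    rw [Finset.sum_const, Finset.card_univ, Fintype.card_fin, nsmul_eq_mul]
  have a3 : ‖(F p.2 - H p.1) k i‖ ^ 2 ≤ ∑ k, ‖(F p.2 - H p.1) k i‖ ^ 2 :=
    Finset.single_le_sum (f := fun k => ‖(F p.2 - H p.1) k i‖ ^ 2)
      (fun _ _ => sq_nonneg _) (Finset.mem_univ k)
  have a4 : (d : ℝ) * η ^ 2 ≤ ε ^ 2 := by
    have : ε = η * (d + 1) := by rw [hη]; field_simp
    rw [this]
    nlinarith [sq_nonneg η, mul_nonneg (sq_nonneg η) hd, mul_nonneg (sq_nonneg η) (sq_nonneg (d : ℝ))]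
  have a5 : ‖(F p.2 - H p.1) k i‖ ^ 2 ≤ ε ^ 2 := by linarith
  exact (pow_le_pow_iff_left₀ (norm_nonneg _) hε.le two_ne_zero).1 a5

theorem det_near_one (d : ℕ) : ∃ r > 0, ∀ Γ : Matrix (Fin d) (Fin d) ℂ,
    (∀ i j, ‖Γ i j - (1 : Matrix (Fin d) (Fin d) ℂ) i j‖ < r) → IsUnit Γ.det := by
  have hc : Continuous fun Γ : Fin d → Fin d → ℂ => Matrix.det (Matrix.of Γ) :=
    Continuous.matrix_det continuous_id
  have h1 : ∀ᶠ Γ : Fin d → Fin d → ℂ in 𝓝 (fun i j => (1 : Matrix (Fin d) (Fin d) ℂ) i j),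
      Matrix.det (Matrix.of Γ) ≠ 0 := by
    refine hc.continuousAt.eventually_ne ?_
    change Matrix.det (1 : Matrix (Fin d) (Fin d) ℂ) ≠ 0
    simp
  obtain ⟨r, hr, h2⟩ := Metric.eventually_nhds_iff.1 h1
  refine ⟨r, hr, fun Γ hΓ => ?_⟩
  have := h2 (y := fun i j => Γ i j) ((dist_pi_lt_iff hr).2 fun i => (dist_pi_lt_iff hr).2 fun j => by
    rw [dist_eq_norm]; exact hΓ i j)
  exact isUnit_iff_ne_zero.2 this

theorem step_unitary (d : ℕ) : ∃ δ > 0, ∀ {T S : MPT} {ρ : Measure (I × I)},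
    IsJoin T S ρ → Ergodic (Prod.map T.toFun S.toFun) ρ →
    ∀ {F A : I → Matrix (Fin d) (Fin d) ℂ}, (∀ i j, Measurable fun x => F x i j) →
    (∀ x, F x ∈ Matrix.unitaryGroup (Fin d) ℂ) → (∀ x, A x ∈ Matrix.unitaryGroup (Fin d) ℂ) →
    (∀ᵐ x ∂lam, F (S.toFun x) = A x * F x) →
    (∀ i j, @Measurable I ℂ (det ρ) _ fun x => A x i j) →
    (∀ i j, Near ρ (fun x => F x i j) δ) →
    ∀ i j, @Measurable I ℂ (det ρ) _ fun x => F x i j := by
  obtain ⟨r, hr, hdet⟩ := det_near_one d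
  have hd : (0 : ℝ) ≤ d := Nat.cast_nonneg d
  obtain ⟨δ, hδ, hcore⟩ := core (d := d) (ε := r / (d + 1)) (by positivity)
  refine ⟨δ, hδ, ?_⟩
  intro T S ρ h hU F A hF hFu hA hc hdA hn
  have := h.prob
  obtain ⟨H, Γ, hH, hΓ, hcl⟩ := hcore h hU hF (C := 1)
    (fun x i j => entry_norm_bound_of_unitary (hFu x) i j) hA hc hdA hn
  obtain ⟨q, hq1, hq2⟩ := (hΓ.and hcl).exists
  have hu : IsUnit Γ.det := by
    refine hdet Γ fun i j => ?_
    have e3 : (F q.2)ᴴ * F q.2 = 1 := Matrix.mem_unitaryGroup_iff'.1 (hFu q.2)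
    rw [← hq1, ← e3, ← Matrix.sub_apply, ← Matrix.sub_mul, Matrix.mul_apply]
    refine (norm_sum_le _ _).trans_lt ?_
    have : ∀ k, ‖((H q.1)ᴴ - (F q.2)ᴴ) i k * F q.2 k j‖ ≤ r / (d + 1) := by
      intro k
      rw [norm_mul, ← Matrix.conjTranspose_sub, Matrix.conjTranspose_apply, norm_star,
        Matrix.sub_apply, norm_sub_rev]
      exact (mul_le_of_le_one_right (norm_nonneg _)
        (entry_norm_bound_of_unitary (hFu q.2) k j)).trans (hq2 k i)
    refine (Finset.sum_le_sum fun k _ => this k).trans_lt ?_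
    rw [Finset.sum_const, Finset.card_univ, Fintype.card_fin, nsmul_eq_mul, ← mul_div_assoc,
      div_lt_iff₀ (by positivity)]
    nlinarith
  have hu' : IsUnit (Γᴴ).det := by
    rw [Matrix.det_conjTranspose]
    exact hu.star
  intro i j
  refine det_of_fun (ψ := fun y => (H y * (Γᴴ)⁻¹) i j) ?_ ?_
  · simp only [Matrix.mul_apply]
    exact Finset.measurable_sum _ fun k _ => (hH i k).mul_const _
  · filter_upwards [hΓ] with p hp
    have e3 : F p.2 * (F p.2)ᴴ = 1 := Matrix.mem_unitaryGroup_iff.1 (hFu p.2)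
    have e4 : H p.1 = F p.2 * Γᴴ := by
      rw [← hp, Matrix.conjTranspose_mul, Matrix.conjTranspose_conjTranspose, ← Matrix.mul_assoc,
        e3, Matrix.one_mul]
    rw [e4, Matrix.mul_assoc, Matrix.mul_nonsing_inv _ hu', Matrix.mul_one]

theorem step_finite {d : ℕ} {F : I → Matrix (Fin d) (Fin d) ℂ} (hR : (Set.range F).Finite) :
    ∃ δ > 0, ∀ {T S : MPT} {ρ : Measure (I × I)},
    IsJoin T S ρ → Ergodic (Prod.map T.toFun S.toFun) ρ →
    ∀ {A : I → Matrix (Fin d) (Fin d) ℂ}, (∀ i j, Measurable fun x => F x i j) →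
    (∀ x, A x ∈ Matrix.unitaryGroup (Fin d) ℂ) →
    (∀ᵐ x ∂lam, F (S.toFun x) = A x * F x) →
    (∀ i j, @Measurable I ℂ (det ρ) _ fun x => A x i j) →
    (∀ i j, Near ρ (fun x => F x i j) δ) →
    ∀ i j, @Measurable I ℂ (det ρ) _ fun x => F x i j := by
  have hsep : ∀ᶠ ε : ℝ in 𝓝[>] 0, ∀ v ∈ Set.range F, ∀ w ∈ Set.range F,
      (∀ k i, ‖v k i - w k i‖ ≤ 2 * ε) → v = w := by
    refine (eventually_all_finite hR).2 fun v _ => (eventually_all_finite hR).2 fun w _ => ?_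
    by_cases hvw : v = w
    · exact Eventually.of_forall fun _ _ => hvw
    · obtain ⟨k, i, hki⟩ : ∃ k i, v k i ≠ w k i := by
        by_contra hcon
        push Not at hcon
        exact hvw (Matrix.ext hcon)
      have hp : 0 < ‖v k i - w k i‖ / 2 := by
        have := norm_pos_iff.2 (sub_ne_zero.2 hki)
        positivity
      filter_upwards [nhdsWithin_le_nhds (gt_mem_nhds hp)] with ε hε hall
      have := hall k i
      have h2 : ε < ‖v k i - w k i‖ / 2 := hε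
      linarith
  obtain ⟨ε, hε1, hε⟩ := (hsep.and self_mem_nhdsWithin).exists
  obtain ⟨δ, hδ, hcore⟩ := core (d := d) (ε := ε) hε
  obtain ⟨C, hC⟩ := (hR.image fun v => ∑ i, ∑ j, ‖v i j‖).bddAbove
  have hb : ∀ x i j, ‖F x i j‖ ≤ C := by
    intro x i j
    refine le_trans ?_ (hC ⟨F x, ⟨x, rfl⟩, rfl⟩)
    refine le_trans ?_ (Finset.single_le_sum (f := fun i => ∑ j, ‖F x i j‖)
      (fun _ _ => Finset.sum_nonneg fun _ _ => norm_nonneg _) (Finset.mem_univ i))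
    exact Finset.single_le_sum (f := fun j => ‖F x i j‖)
      (fun _ _ => norm_nonneg _) (Finset.mem_univ j)
  refine ⟨δ, hδ, ?_⟩
  intro T S ρ h hU A hF hA hc hdA hn
  obtain ⟨H, Γ, hH, -, hcl⟩ := hcore h hU hF hb hA hc hdA hn
  have hv : ∀ v ∈ Set.range F, MeasurableSet[det ρ] {x | F x = v} := by
    intro v hv
    refine ⟨⋂ k, ⋂ i, {y | ‖v k i - H y k i‖ ≤ ε}, MeasurableSet.iInter fun k =>
      MeasurableSet.iInter fun i =>
        measurableSet_le (measurable_const.sub (hH k i)).norm measurable_const, ?_⟩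
    filter_upwards [hcl] with p hp
    simp only [mem_ofPred_eq, mem_iInter]
    constructor
    · rintro rfl
      exact hp
    · intro hq
      refine hε1 _ ⟨p.2, rfl⟩ _ hv fun k i => ?_
      have e : F p.2 k i - v k i = (F p.2 k i - H p.1 k i) - (v k i - H p.1 k i) := by ring
      rw [e]
      refine (norm_sub_le _ _).trans ?_
      linarith [hp k i, hq k i]
  intro i j s _
  have e : (fun x => F x i j) ⁻¹' s = ⋃ v ∈ {v ∈ Set.range F | v i j ∈ s}, {x | F x = v} := by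
    ext x
    simp only [mem_preimage, mem_iUnion, mem_ofPred_eq, exists_prop]
    constructor
    · intro hx
      exact ⟨F x, ⟨⟨x, rfl⟩, hx⟩, rfl⟩
    · rintro ⟨v, ⟨-, h2⟩, rfl⟩
      exact h2
  rw [e]
  exact @Set.Finite.measurableSet_biUnion _ _ (det ρ) _ _ (hR.subset fun v hv => hv.1)
    fun v h => hv v h.1

end Pool.Agent.Lib.MP_78c86a_lc.Lie
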