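import Mathlib
import Pool.Agent.Lib.MP_78c86a_lc.LieStep

set_option autoImplicit false

namespace Pool.Agent.Lib.MP_78c86a_lc.Lie

open MeasureTheory ProbabilityTheory Set Filter Topology Matrix
open scoped unitInterval ENNReal

theorem IsJoin.ae_fst {T S : MPT} {ρ : Measure (I × I)} (h : IsJoin T S ρ) {P : I → Prop}
    (hP : MeasurableSet {y | P y}) (h1 : ∀ᵐ p ∂ρ, P p.1) : ∀ᵐ y ∂lam, P y := by
  rw [← h.fst.map_eq]
  exact (ae_map_iff measurable_fst.aemeasurable hP).2 h1

theorem IsJoin.ae_snd {T S : MPT} {ρ : Measure (I × I)} (h : IsJoin T S ρ) {P : I → Prop}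
    (hP : MeasurableSet {y | P y}) (h1 : ∀ᵐ p ∂ρ, P p.2) : ∀ᵐ y ∂lam, P y := by
  rw [← h.snd.map_eq]
  exact (ae_map_iff measurable_snd.aemeasurable hP).2 h1

theorem IsJoin.pull_snd {T S : MPT} {ρ : Measure (I × I)} (h : IsJoin T S ρ) {P : I → Prop}
    (h1 : ∀ᵐ y ∂lam, P y) : ∀ᵐ p ∂ρ, P p.2 :=
  h.snd.quasiMeasurePreserving.ae h1

/-- A sequence of ergodic joinings along which every bounded function of the second coordinate is
approximated in the mean by functions of the first. -/
structure Approx (T S : MPT) (ρ : ℕ → Measure (I × I)) : Prop where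
  join : ∀ n, IsJoin T S (ρ n)
  erg : ∀ n, Ergodic (Prod.map T.toFun S.toFun) (ρ n)
  near : ∀ f : I → ℂ, Measurable f → ∀ C : ℝ, (∀ x, ‖f x‖ ≤ C) → ∀ δ > 0,
    ∀ᶠ n in atTop, Near (ρ n) f δ

theorem Approx.eigen {T S : MPT} {ρ : ℕ → Measure (I × I)} (h : Approx T S ρ) {e : I → ℂ} {t : ℂ}
    (he : Measurable e) (h1 : ∀ x, ‖e x‖ = 1) (ht : ∀ᵐ x ∂lam, e (S.toFun x) = t * e x) (n : ℕ) :
    @Measurable I ℂ (det (ρ n)) _ e := by
  have htn : ‖t‖ = 1 := by
    obtain ⟨x, hx⟩ := ht.exists
    have := congrArg norm hx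
    rw [norm_mul, h1, h1, mul_one] at this
    exact this.symm
  have hun : ∀ z : ℂ, ‖z‖ = 1 →
      (Matrix.of fun _ _ => z : Matrix (Fin 1) (Fin 1) ℂ) ∈ Matrix.unitaryGroup (Fin 1) ℂ := by
    intro z hz
    rw [Matrix.mem_unitaryGroup_iff]
    ext i j
    have : i = j := Subsingleton.elim _ _
    subst this
    simp [Matrix.mul_apply, Complex.mul_conj', hz]
  obtain ⟨δ, hδ, hstep⟩ := step_unitary 1
  obtain ⟨m, hm⟩ := (h.near e he 1 (fun x => (h1 x).le) δ hδ).exists
  have hd : @Measurable I ℂ (det (ρ m)) _ e :=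
    hstep (h.join m) (h.erg m) (F := fun x => Matrix.of fun _ _ => e x)
      (A := fun _ => Matrix.of fun _ _ => t) (fun _ _ => he) (fun x => hun _ (h1 x))
      (fun _ => hun _ htn) (by
        filter_upwards [ht] with x hx
        ext i j
        simp [Matrix.mul_apply, hx]) (fun _ _ => measurable_const) (fun _ _ => hm) 0 0
  obtain ⟨ψ, hψ, hψe⟩ := fun_of_det hd
  have a1 : ∀ᵐ y ∂lam, ψ (T.toFun y) = t * ψ y ∧ ‖ψ y‖ = 1 := by
    refine (h.join m).ae_fst ?_ ?_
    · exact (measurableSet_eq_fun (hψ.comp (mp T).measurable) (hψ.const_mul t)).inter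
        (measurableSet_eq_fun hψ.norm measurable_const)
    · filter_upwards [hψe, (h.join m).inv.quasiMeasurePreserving.ae hψe,
        (h.join m).snd.quasiMeasurePreserving.ae ht] with p a b c
      simp only [Prod.map_snd, Prod.map_fst] at b
      rw [← a, ← b]
      exact ⟨c, h1 _⟩
  have a2 := (h.join n).fst.quasiMeasurePreserving.ae a1
  obtain ⟨c, hc⟩ := (h.erg n).ae_eq_const_of_ae_eq_comp₀
    (g := fun p : I × I => e p.2 * star (ψ p.1))
    ((he.comp measurable_snd).mul
      (continuous_star.measurable.comp (hψ.comp measurable_fst))).nullMeasurable (by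
      filter_upwards [a2, (h.join n).snd.quasiMeasurePreserving.ae ht] with p a b
      simp only [Function.comp_apply, Prod.map_snd, Prod.map_fst]
      rw [a.1, b, star_mul']
      have : t * star t = 1 := by
        have := Complex.mul_conj' t
        rw [htn] at this
        simpa using this
      linear_combination (e p.2 * star (ψ p.1)) * this)
  refine det_of_fun (ψ := fun y => c * ψ y) (hψ.const_mul c) ?_
  filter_upwards [hc, a2] with p a b
  have a' : e p.2 * star (ψ p.1) = c := a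
  have : ψ p.1 * star (ψ p.1) = 1 := by
    have := Complex.mul_conj' (ψ p.1)
    rw [b.2] at this
    simpa using this
  rw [← a']
  linear_combination (-e p.2) * this

theorem Approx.tower {T S : MPT} {ρ : ℕ → Measure (I × I)} (h : Approx T S ρ)
    {m : MeasurableSpace I} (hm : LieTower S.toFun m) : ∀ᶠ n in atTop, m ≤ det (ρ n) := by
  induction hm with
  | base e t he h1 ht =>
    refine Eventually.of_forall fun n => iSup_le fun k => ?_
    exact Measurable.comap_le (h.eigen (he k) (h1 k) (ht k) n)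
  | step m hm d F A hF hA hU hc hk ih =>
    have hF' : ∀ i j, @Measurable I ℂ Subtype.instMeasurableSpace _ fun x => F x i j := by
      intro i j
      have := hF i j
      rwa [← @BorelSpace.measurable_eq I _ Subtype.instMeasurableSpace _] at this
    have key : ∃ δ > 0, ∃ C : ℝ, (∀ x i j, ‖F x i j‖ ≤ C) ∧ ∀ n,
        (∀ i j, @Measurable I ℂ (det (ρ n)) _ fun x => A x i j) →
        (∀ i j, Near (ρ n) (fun x => F x i j) δ) →
        ∀ i j, @Measurable I ℂ (det (ρ n)) _ fun x => F x i j := by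
      rcases hk with hk | hk
      · obtain ⟨δ, hδ, hs⟩ := step_finite hk
        obtain ⟨C, hC⟩ := (hk.image fun v => ∑ i, ∑ j, ‖v i j‖).bddAbove
        refine ⟨δ, hδ, C, fun x i j => ?_, fun n => hs (h.join n) (h.erg n) hF' hU hc⟩
        refine le_trans ?_ (hC ⟨F x, ⟨x, rfl⟩, rfl⟩)
        refine le_trans ?_ (Finset.single_le_sum (f := fun i => ∑ j, ‖F x i j‖)
          (fun _ _ => Finset.sum_nonneg fun _ _ => norm_nonneg _) (Finset.mem_univ i))
        exact Finset.single_le_sum (f := fun j => ‖F x i j‖)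
          (fun _ _ => norm_nonneg _) (Finset.mem_univ j)
      · obtain ⟨δ, hδ, hs⟩ := step_unitary d
        exact ⟨δ, hδ, 1, fun x i j => entry_norm_bound_of_unitary (hk x) i j,
          fun n => hs (h.join n) (h.erg n) hF' hk hU hc⟩
    obtain ⟨δ, hδ, C, hb, hs⟩ := key
    have hn : ∀ᶠ n in atTop, ∀ i j, Near (ρ n) (fun x => F x i j) δ :=
      eventually_all.2 fun i => eventually_all.2 fun j =>
        h.near _ (hF' i j) C (fun x => hb x i j) δ hδ
    filter_upwards [ih, hn] with n h1 h2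
    refine sup_le h1 (iSup_le fun i => iSup_le fun j => ?_)
    exact Measurable.comap_le (hs n (fun i j => (hA i j).mono h1 le_rfl) h2 i j)

theorem Approx.graph {T : MPT} {S : EMPT} {ρ : ℕ → Measure (I × I)} (h : Approx T S.1 ρ)
    (hS : LieType S) : ∀ᶠ n in atTop, ∃ θ : I → I, Measurable θ ∧ ∀ᵐ p ∂ρ n, p.2 = θ p.1 := by
  have key : ∀ᶠ n in atTop, borel I ≤ det (ρ n) := by
    obtain ⟨m, hm, he⟩ := hS
    filter_upwards [h.tower hm] with n hn
    intro s hs
    obtain ⟨A, hA, hsA⟩ := he.2 s hs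
    obtain ⟨t, ht, h2⟩ := hn A hA
    refine ⟨t, ht, ?_⟩
    have h3 := (h.join n).pull_snd hsA
    filter_upwards [h2, h3] with p a b
    rw [← a]
    exact Iff.of_eq b
  filter_upwards [key] with n hn
  refine fun_of_det (ρ := ρ n) (f := fun x => x) ?_
  intro s hs
  refine hn s ?_
  rwa [← BorelSpace.measurable_eq]

theorem IsJoin.swap {T S : MPT} {ρ : Measure (I × I)} (h : IsJoin T S ρ) :
    IsJoin S T (ρ.map Prod.swap) := by
  have := h.prob
  have hs : MeasurePreserving Prod.swap ρ (ρ.map Prod.swap) := ⟨measurable_swap, rfl⟩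
  refine ⟨Measure.isProbabilityMeasure_map measurable_swap.aemeasurable, ⟨measurable_fst, ?_⟩,
    ⟨measurable_snd, ?_⟩, ⟨(mp S).measurable.prodMap (mp T).measurable, ?_⟩⟩
  · rw [Measure.map_map measurable_fst measurable_swap]
    exact h.snd.map_eq
  · rw [Measure.map_map measurable_snd measurable_swap]
    exact h.fst.map_eq
  · rw [Measure.map_map ((mp S).measurable.prodMap (mp T).measurable) measurable_swap]
    conv_rhs => rw [← h.inv.map_eq, Measure.map_map measurable_swap h.inv.measurable]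
    rfl

theorem ergodic_swap {T S : MPT} {ρ : Measure (I × I)} (h : IsJoin T S ρ)
    (he : Ergodic (Prod.map T.toFun S.toFun) ρ) :
    Ergodic (Prod.map S.toFun T.toFun) (ρ.map Prod.swap) := by
  have hs : MeasurePreserving Prod.swap ρ (ρ.map Prod.swap) := ⟨measurable_swap, rfl⟩
  exact hs.ergodic_of_ergodic_semiconj he h.swap.inv.measurable fun _ => rfl

theorem conj_of_graph {S T : EMPT} {ρ : Measure (I × I)} (h : IsJoin T.1 S.1 ρ) {θ ξ : I → I}
    (hθ : Measurable θ) (hξ : Measurable ξ) (h1 : ∀ᵐ p ∂ρ, p.2 = θ p.1)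
    (h2 : ∀ᵐ p ∂ρ, p.1 = ξ p.2) : Conj S T := by
  have m1 : MeasurePreserving θ lam lam := by
    refine ⟨hθ, ?_⟩
    conv_lhs => rw [← h.fst.map_eq, Measure.map_map hθ measurable_fst]
    rw [← h.snd.map_eq]
    exact Measure.map_congr (by filter_upwards [h1] with p hp using hp.symm)
  have m2 : MeasurePreserving ξ lam lam := by
    refine ⟨hξ, ?_⟩
    conv_lhs => rw [← h.snd.map_eq, Measure.map_map hξ measurable_snd]
    rw [← h.fst.map_eq]
    exact Measure.map_congr (by filter_upwards [h2] with p hp using hp.symm)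
  have i1 : ∀ᵐ y ∂lam, ξ (θ y) = y := by
    refine h.ae_fst (measurableSet_eq_fun (hξ.comp hθ) measurable_id) ?_
    filter_upwards [h1, h2] with p a b
    rw [← a, ← b]
  have i2 : ∀ᵐ x ∂lam, θ (ξ x) = x := by
    refine h.ae_snd (measurableSet_eq_fun (hθ.comp hξ) measurable_id) ?_
    filter_upwards [h1, h2] with p a b
    rw [← b, ← a]
  have i3 : ∀ᵐ y ∂lam, S.1.toFun (θ y) = θ (T.1.toFun y) := by
    refine h.ae_fst (measurableSet_eq_fun ((mp S.1).measurable.comp hθ)
      (hθ.comp (mp T.1).measurable)) ?_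
    filter_upwards [h1, h.inv.quasiMeasurePreserving.ae h1] with p a b
    rw [← a]
    exact b
  let g : I →ₘ[lam] I := AEEqFun.mk θ hθ.aestronglyMeasurable
  have hg : (g : I → I) =ᵐ[lam] θ := AEEqFun.coeFn_mk _ _
  have m3 : MeasurePreserving g lam lam := m1.congr g.measurable hg.symm
  let φ : MPT := ⟨g, m3, ξ, m2, by
      filter_upwards [hg, i1] with y a b
      simp only [Function.comp_apply, id_eq]
      rw [a, b], by
      filter_upwards [m2.quasiMeasurePreserving.ae hg, i2] with y a b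
      simp only [Function.comp_apply, id_eq]
      rw [a, b]⟩
  have hφ : φ.toFun =ᵐ[lam] θ := hg
  have i4 : ∀ᵐ y ∂lam, S.1.toFun (φ.toFun y) = φ.toFun (T.1.toFun y) := by
    filter_upwards [hφ, (mp T.1).quasiMeasurePreserving.ae hφ, i3] with y a b c
    rw [a, b, c]
  refine ⟨φ, ?_⟩
  filter_upwards [(mp_inv φ).quasiMeasurePreserving.ae i4, comp_inv φ] with x a b
  simp only [Function.comp_apply, id_eq] at a b ⊢
  rw [← a, b]

theorem conj_of_approx {S T : EMPT} {ρ : ℕ → Measure (I × I)} (h1 : Approx T.1 S.1 ρ)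
    (h2 : Approx S.1 T.1 fun n => (ρ n).map Prod.swap) (hS : LieType S) (hT : LieType T) :
    Conj S T := by
  obtain ⟨n, ⟨θ, hθ, a⟩, ⟨ξ, hξ, b⟩⟩ := ((h1.graph hS).and (h2.graph hT)).exists
  refine conj_of_graph (h1.join n) hθ hξ a ?_
  exact (ae_map_iff measurable_swap.aemeasurable
    (measurableSet_eq_fun measurable_snd (hξ.comp measurable_fst))).1 b

end Pool.Agent.Lib.MP_78c86a_lc.Lie
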