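import Mathlib
import Pool.Agent.Lib.MP_78c86a_lc.LieInd

set_option autoImplicit false

namespace Pool.Agent.Lib.MP_78c86a_lc.Lie

open MeasureTheory ProbabilityTheory Set Filter Topology
open scoped unitInterval ENNReal symmDiff BoundedContinuousFunction

/-- Couplings of two copies of Lebesgue measure. -/
def Coup : Set (ProbabilityMeasure (I × I)) :=
  {ρ | (ρ : Measure (I × I)).map Prod.fst = lam ∧ (ρ : Measure (I × I)).map Prod.snd = lam}

theorem isClosed_coup : IsClosed Coup := by
  let l : ProbabilityMeasure I := ⟨lam, inferInstance⟩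
  have h1 : IsClosed {ρ : ProbabilityMeasure (I × I) |
      ρ.map (continuous_fst (X := I) (Y := I)).measurable.aemeasurable = l} :=
    isClosed_eq (ProbabilityMeasure.continuous_map continuous_fst) continuous_const
  have h2 : IsClosed {ρ : ProbabilityMeasure (I × I) |
      ρ.map (continuous_snd (X := I) (Y := I)).measurable.aemeasurable = l} :=
    isClosed_eq (ProbabilityMeasure.continuous_map continuous_snd) continuous_const
  convert h1.inter h2 using 1
  ext ρ
  exact ⟨fun h => ⟨Subtype.ext h.1, Subtype.ext h.2⟩,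
    fun h => ⟨congrArg Subtype.val h.1, congrArg Subtype.val h.2⟩⟩

instance compactSpace_coup : CompactSpace Coup :=
  isCompact_iff_compactSpace.1 isClosed_coup.isCompact

theorem Coup.fst (ρ : Coup) : MeasurePreserving Prod.fst (ρ.1 : Measure (I × I)) lam :=
  ⟨measurable_fst, ρ.2.1⟩

theorem Coup.snd (ρ : Coup) : MeasurePreserving Prod.snd (ρ.1 : Measure (I × I)) lam :=
  ⟨measurable_snd, ρ.2.2⟩

theorem continuous_rect {A B : Set I} (hA : MeasurableSet A) (hB : MeasurableSet B) :
    Continuous fun ρ : Coup => (ρ.1 : Measure (I × I)).real (A ×ˢ B) := by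
  refine continuous_of_uniform_approx_of_continuous fun u hu => ?_
  obtain ⟨ε, hε, hu⟩ := Metric.mem_uniformity_dist.1 hu
  have iA : Integrable (A.indicator fun _ => (1 : ℝ)) lam := (integrable_const _).indicator hA
  have iB : Integrable (B.indicator fun _ => (1 : ℝ)) lam := (integrable_const _).indicator hB
  obtain ⟨f, hf, hfi⟩ := iA.exists_boundedContinuous_integral_sub_le (ε := ε / 3) (by positivity)
  obtain ⟨g, hg, hgi⟩ := iB.exists_boundedContinuous_integral_sub_le (ε := ε / 3) (by positivity)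
  let k : C(I × I, ℝ) := ⟨fun p => min (f p.1) (g p.2),
    (f.continuous.comp continuous_fst).min (g.continuous.comp continuous_snd)⟩
  refine ⟨fun ρ => ∫ p, k p ∂(ρ.1 : Measure (I × I)),
    (ProbabilityMeasure.continuous_integral_continuousMap k).comp continuous_subtype_val,
    fun ρ => hu ?_⟩
  have ik : Integrable k (ρ.1 : Measure (I × I)) :=
    (BoundedContinuousFunction.mkOfCompact k).integrable _
  have iAB : Integrable ((A ×ˢ B).indicator fun _ => (1 : ℝ)) (ρ.1 : Measure (I × I)) :=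
    (integrable_const _).indicator (hA.prod hB)
  have i1 : Integrable (fun x => ‖A.indicator (fun _ => (1 : ℝ)) x - f x‖) lam := (iA.sub hfi).norm
  have i2 : Integrable (fun x => ‖B.indicator (fun _ => (1 : ℝ)) x - g x‖) lam := (iB.sub hgi).norm
  have j1 := (Coup.fst ρ).integrable_comp_of_integrable i1
  have j2 := (Coup.snd ρ).integrable_comp_of_integrable i2
  have e1 : ∫ p, ‖A.indicator (fun _ => (1 : ℝ)) p.1 - f p.1‖ ∂(ρ.1 : Measure (I × I)) =
      ∫ x, ‖A.indicator (fun _ => (1 : ℝ)) x - f x‖ ∂lam := by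
    rw [← ρ.2.1, integral_map measurable_fst.aemeasurable]
    rw [ρ.2.1]
    exact i1.aestronglyMeasurable
  have e2 : ∫ p, ‖B.indicator (fun _ => (1 : ℝ)) p.2 - g p.2‖ ∂(ρ.1 : Measure (I × I)) =
      ∫ x, ‖B.indicator (fun _ => (1 : ℝ)) x - g x‖ ∂lam := by
    rw [← ρ.2.2, integral_map measurable_snd.aemeasurable]
    rw [ρ.2.2]
    exact i2.aestronglyMeasurable
  rw [← integral_indicator_one (hA.prod hB), dist_eq_norm]
  change ‖∫ p, (A ×ˢ B).indicator (fun _ => (1 : ℝ)) p ∂(ρ.1 : Measure (I × I)) - _‖ < ε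
  rw [← integral_sub iAB ik]
  refine lt_of_le_of_lt (norm_integral_le_of_norm_le (j1.add j2) (ae_of_all _ fun p => ?_)) ?_
  · have e : (A ×ˢ B).indicator (fun _ => (1 : ℝ)) p =
        min (A.indicator (fun _ => (1 : ℝ)) p.1) (B.indicator (fun _ => (1 : ℝ)) p.2) := by
      by_cases h1 : p.1 ∈ A <;> by_cases h2 : p.2 ∈ B <;> simp [indicator, h1, h2]
    rw [e]
    simp only [Pi.add_apply, Function.comp_apply, Real.norm_eq_abs]
    refine (abs_min_sub_min_le_max _ _ _ _).trans ?_
    exact max_le (le_add_of_nonneg_right (abs_nonneg _)) (le_add_of_nonneg_left (abs_nonneg _))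
  · have := integral_add j1 j2
    simp only [Function.comp_apply] at this
    simp only [Pi.add_apply, Function.comp_apply]
    rw [this, e1, e2]
    linarith

theorem continuous_image (A : MeasuredSets lam) : Continuous fun T : MPT => T.image A :=
  continuous_iInf_dom (i := A) continuous_induced_dom

theorem rect_sub_le (ρ : Coup) {A B A' B' : Set I} (hA : MeasurableSet A) (hB : MeasurableSet B)
    (hA' : MeasurableSet A') (hB' : MeasurableSet B') :
    |(ρ.1 : Measure (I × I)).real (A ×ˢ B) - (ρ.1 : Measure (I × I)).real (A' ×ˢ B')| ≤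
      lam.real (A ∆ A') + lam.real (B ∆ B') := by
  refine (abs_measureReal_sub_le_measureReal_symmDiff (hA.prod hB).nullMeasurableSet
    (hA'.prod hB').nullMeasurableSet).trans ?_
  rw [← (Coup.fst ρ).measureReal_preimage (hA.symmDiff hA').nullMeasurableSet,
    ← (Coup.snd ρ).measureReal_preimage (hB.symmDiff hB').nullMeasurableSet]
  refine le_trans (measureReal_mono ?_) (measureReal_union_le _ _)
  intro p hp
  simp only [mem_symmDiff, mem_prod, mem_union, mem_preimage] at hp ⊢
  tauto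

theorem continuous_rect_image (A B : MeasuredSets lam) :
    Continuous fun q : (EMPT × EMPT) × Coup =>
      (q.2.1 : Measure (I × I)).real ((q.1.2.1.image A).1 ×ˢ (q.1.1.1.image B).1) := by
  refine continuous_iff_continuousAt.2 fun q => ?_
  have c1 : Continuous fun r : (EMPT × EMPT) × Coup => r.1.2.1.image A :=
    (continuous_image A).comp (continuous_subtype_val.comp (continuous_snd.comp continuous_fst))
  have c2 : Continuous fun r : (EMPT × EMPT) × Coup => r.1.1.1.image B :=
    (continuous_image B).comp (continuous_subtype_val.comp (continuous_fst.comp continuous_fst))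
  have c3 : Continuous fun r : (EMPT × EMPT) × Coup =>
      (r.2.1 : Measure (I × I)).real ((q.1.2.1.image A).1 ×ˢ (q.1.1.1.image B).1) :=
    (continuous_rect (q.1.2.1.image A).2 (q.1.1.1.image B).2).comp continuous_snd
  have c4 : Tendsto (fun r : (EMPT × EMPT) × Coup =>
      dist (r.1.2.1.image A) (q.1.2.1.image A) + dist (r.1.1.1.image B) (q.1.1.1.image B))
      (𝓝 q) (𝓝 0) := by
    have := ((c1.dist continuous_const (g := fun _ => q.1.2.1.image A)).add
      (c2.dist continuous_const (g := fun _ => q.1.1.1.image B))).tendsto q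
    simp only [Pi.add_apply, dist_self, add_zero] at this
    exact this
  have c5 : Tendsto (fun r : (EMPT × EMPT) × Coup =>
      (r.2.1 : Measure (I × I)).real ((r.1.2.1.image A).1 ×ˢ (r.1.1.1.image B).1) -
      (r.2.1 : Measure (I × I)).real ((q.1.2.1.image A).1 ×ˢ (q.1.1.1.image B).1))
      (𝓝 q) (𝓝 0) := by
    refine squeeze_zero_norm (fun r => ?_) c4
    rw [MeasuredSets.dist_def, MeasuredSets.dist_def]
    exact rect_sub_le r.2 (r.1.2.1.image A).2 (r.1.1.1.image B).2 (q.1.2.1.image A).2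
      (q.1.1.1.image B).2
  have := c5.add (c3.tendsto q)
  simpa [ContinuousAt] using this

/-- Invariance on rectangles. -/
def Inv (q : (EMPT × EMPT) × Coup) : Prop :=
  ∀ A B : MeasuredSets lam,
    (q.2.1 : Measure (I × I)).real ((q.1.2.1.image A).1 ×ˢ (q.1.1.1.image B).1) =
      (q.2.1 : Measure (I × I)).real (A.1 ×ˢ B.1)

theorem isClosed_inv : IsClosed {q | Inv q} := by
  simp only [Inv, ofPred_forall]
  exact isClosed_iInter fun A => isClosed_iInter fun B =>
    isClosed_eq (continuous_rect_image A B) ((continuous_rect A.2 B.2).comp continuous_snd)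

theorem mp_of_inverse {Z : Type} [MeasurableSpace Z] {ρ : Measure Z} {U V : Z → Z}
    (hV : MeasurePreserving V ρ ρ) (hU : Measurable U) (h : U ∘ V =ᵐ[ρ] id) :
    MeasurePreserving U ρ ρ := by
  refine ⟨hU, ?_⟩
  conv_lhs => rw [← hV.map_eq, Measure.map_map hU hV.measurable]
  rw [Measure.map_congr h, Measure.map_id]

theorem inv_iff (S T : EMPT) (ρ : Coup) : Inv ((S, T), ρ) ↔ IsJoin T.1 S.1 ρ.1 := by
  have m1 := (mp T.1).measurable.prodMap (mp S.1).measurable
  have m2 := (mp_inv T.1).measurable.prodMap (mp_inv S.1).measurable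
  constructor
  · intro h
    refine ⟨inferInstance, Coup.fst ρ, Coup.snd ρ, mp_of_inverse (V := Prod.map T.1.inv S.1.inv)
      ⟨m2, ?_⟩ m1 ?_⟩
    · refine Measure.ext_prod fun {s t} hs ht => ?_
      rw [Measure.map_apply m2 (hs.prod ht)]
      exact (measureReal_eq_measureReal_iff (by finiteness) (by finiteness)).1 (h ⟨s, hs⟩ ⟨t, ht⟩)
    · filter_upwards [(Coup.fst ρ).quasiMeasurePreserving.ae (comp_inv T.1),
        (Coup.snd ρ).quasiMeasurePreserving.ae (comp_inv S.1)] with p a b
      exact Prod.ext a b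
  · intro h A B
    have : MeasurePreserving (Prod.map T.1.inv S.1.inv) (ρ.1 : Measure (I × I)) ρ.1 := by
      refine mp_of_inverse h.inv m2 ?_
      filter_upwards [(Coup.fst ρ).quasiMeasurePreserving.ae (inv_comp T.1),
        (Coup.snd ρ).quasiMeasurePreserving.ae (inv_comp S.1)] with p a b
      exact Prod.ext a b
    exact this.measureReal_preimage (A.2.prod B.2).nullMeasurableSet

/-- Pairs with a joining of cost at most `c`. -/
def Cost (k : C(I × I, ℝ)) (c : ℝ) : Set (EMPT × EMPT) :=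
  {q | ∃ ρ : Measure (I × I), IsJoin q.2.1 q.1.1 ρ ∧ ∫ p, k p ∂ρ ≤ c}

theorem continuous_cost (k : C(I × I, ℝ)) :
    Continuous fun ρ : Coup => ∫ p, k p ∂(ρ.1 : Measure (I × I)) :=
  (ProbabilityMeasure.continuous_integral_continuousMap k).comp continuous_subtype_val

/-- A joining as a coupling. -/
def IsJoin.coup {T S : MPT} {ρ : Measure (I × I)} (h : IsJoin T S ρ) : Coup :=
  ⟨⟨ρ, h.prob⟩, h.fst.map_eq, h.snd.map_eq⟩

theorem isClosed_cost (k : C(I × I, ℝ)) (c : ℝ) : IsClosed (Cost k c) := by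
  have h1 : IsClosed ({q | Inv q} ∩
      {q : (EMPT × EMPT) × Coup | ∫ p, k p ∂(q.2.1 : Measure (I × I)) ≤ c}) :=
    isClosed_inv.inter (isClosed_le ((continuous_cost k).comp continuous_snd) continuous_const)
  convert isClosedMap_fst_of_compactSpace _ h1 using 1
  ext ⟨S, T⟩
  constructor
  · rintro ⟨ρ, h, hc⟩
    exact ⟨((S, T), h.coup), ⟨(inv_iff S T h.coup).2 h, hc⟩, rfl⟩
  · rintro ⟨⟨q, ρ⟩, ⟨h, hc⟩, rfl⟩
    exact ⟨ρ.1, (inv_iff _ _ ρ).1 h, hc⟩

theorem exists_ergodic {S T : EMPT} {k : C(I × I, ℝ)} {c : ℝ} (h : (S, T) ∈ Cost k c) :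
    ∃ ρ : Measure (I × I), IsJoin T.1 S.1 ρ ∧ Ergodic (Prod.map T.1.toFun S.1.toFun) ρ ∧
      ∫ p, k p ∂ρ ≤ c := by
  obtain ⟨ρ0, h0, hc⟩ := h
  let J : Set Coup := {ρ | IsJoin T.1 S.1 ρ.1}
  have hJ : IsClosed J := by
    have := isClosed_inv.preimage (f := fun ρ : Coup => (((S, T), ρ) : (EMPT × EMPT) × Coup))
      (continuous_const.prodMk continuous_id)
    convert this using 1
    ext ρ
    exact (inv_iff S T ρ).symm
  obtain ⟨ρ1, h1, hmin⟩ := hJ.isCompact.exists_isMinOn ⟨h0.coup, h0⟩
    (continuous_cost k).continuousOn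
  let Fc : Set Coup := J ∩ {ρ | ∫ p, k p ∂(ρ.1 : Measure (I × I)) =
    ∫ p, k p ∂(ρ1.1 : Measure (I × I))}
  have hF : IsCompact Fc := (hJ.inter (isClosed_eq (continuous_cost k) continuous_const)).isCompact
  let ev : Coup → (C(I × I, ℝ) → ℝ) := fun ρ f => ∫ p, f p ∂(ρ.1 : Measure (I × I))
  have hev : Continuous ev := continuous_pi fun f => continuous_cost f
  obtain ⟨x, hx⟩ := (hF.image hev).extremePoints_nonempty ⟨ev ρ1, ρ1, ⟨h1, rfl⟩, rfl⟩
  rw [mem_extremePoints_iff_left] at hx
  obtain ⟨⟨ρ, ⟨hρ, hρc⟩, rfl⟩, hext⟩ := hx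
  have hρ' : IsJoin T.1 S.1 ρ.1 := hρ
  refine ⟨ρ.1, hρ, Ergodic.of_mem_extremePoints ?_, ?_⟩
  · rw [mem_extremePoints_iff_left]
    refine ⟨⟨hρ'.inv, inferInstance⟩, ?_⟩
    rintro ν₁ ⟨i1, p1⟩ ν₂ ⟨i2, p2⟩ ⟨a, b, ha, hb, hab, hsum⟩
    have ha' : a ≠ ∞ := ne_top_of_le_ne_top ENNReal.one_ne_top (hab ▸ le_self_add)
    have hb' : b ≠ ∞ := ne_top_of_le_ne_top ENNReal.one_ne_top (hab ▸ le_add_self)
    have join : ∀ ν : Measure (I × I), MeasurePreserving (Prod.map T.1.toFun S.1.toFun) ν ν →
        IsProbabilityMeasure ν → ν ≪ (ρ.1 : Measure (I × I)) → IsJoin T.1 S.1 ν := by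
      intro ν i p hac
      have q1 : IsProbabilityMeasure (ν.map Prod.fst) :=
        Measure.isProbabilityMeasure_map measurable_fst.aemeasurable
      have q2 : IsProbabilityMeasure (ν.map Prod.snd) :=
        Measure.isProbabilityMeasure_map measurable_snd.aemeasurable
      refine ⟨p, ⟨measurable_fst, T.2.eq_of_absolutelyContinuous ⟨(mp T.1).measurable, ?_⟩ ?_⟩,
        ⟨measurable_snd, S.2.eq_of_absolutelyContinuous ⟨(mp S.1).measurable, ?_⟩ ?_⟩, i⟩
      · rw [Measure.map_map (mp T.1).measurable measurable_fst]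
        conv_rhs => rw [← i.map_eq, Measure.map_map measurable_fst i.measurable]
        rfl
      · rw [← ρ.2.1]
        exact hac.map measurable_fst
      · rw [Measure.map_map (mp S.1).measurable measurable_snd]
        conv_rhs => rw [← i.map_eq, Measure.map_map measurable_snd i.measurable]
        rfl
      · rw [← ρ.2.2]
        exact hac.map measurable_snd
    have j1 : IsJoin T.1 S.1 ν₁ := join ν₁ i1 p1 (by
      rw [← hsum]
      exact (Measure.absolutelyContinuous_smul ha.ne').add_right _)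
    have j2 : IsJoin T.1 S.1 ν₂ := join ν₂ i2 p2 (by
      rw [← hsum, add_comm]
      exact (Measure.absolutelyContinuous_smul hb.ne').add_right _)
    have hlin : ∀ f : C(I × I, ℝ), ∫ p, f p ∂(ρ.1 : Measure (I × I)) =
        a.toReal * ∫ p, f p ∂ν₁ + b.toReal * ∫ p, f p ∂ν₂ := by
      intro f
      have k1 : Integrable f ν₁ := (BoundedContinuousFunction.mkOfCompact f).integrable _
      have k2 : Integrable f ν₂ := (BoundedContinuousFunction.mkOfCompact f).integrable _
      rw [← hsum, integral_add_measure (k1.smul_measure ha') (k2.smul_measure hb'),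
        integral_smul_measure, integral_smul_measure, smul_eq_mul, smul_eq_mul]
    have ha0 : 0 < a.toReal := ENNReal.toReal_pos ha.ne' ha'
    have hb0 : 0 < b.toReal := ENNReal.toReal_pos hb.ne' hb'
    have hab' : a.toReal + b.toReal = 1 := by
      rw [← ENNReal.toReal_add ha' hb', hab, ENNReal.toReal_one]
    have l1 : ∫ p, k p ∂(ρ1.1 : Measure (I × I)) ≤ ∫ p, k p ∂ν₁ := hmin (a := j1.coup) j1
    have l2 : ∫ p, k p ∂(ρ1.1 : Measure (I × I)) ≤ ∫ p, k p ∂ν₂ := hmin (a := j2.coup) j2
    have l3 : ∫ p, k p ∂(ρ.1 : Measure (I × I)) = ∫ p, k p ∂(ρ1.1 : Measure (I × I)) := hρc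
    have l4 := hlin k
    have f1 : ∫ p, k p ∂ν₁ = ∫ p, k p ∂(ρ1.1 : Measure (I × I)) := by
      refine le_antisymm ?_ l1
      by_contra hcon
      push Not at hcon
      have := mul_lt_mul_of_pos_left hcon ha0
      have := mul_le_mul_of_nonneg_left l2 hb0.le
      have e : (a.toReal + b.toReal) * ∫ p, k p ∂(ρ1.1 : Measure (I × I)) =
        ∫ p, k p ∂(ρ1.1 : Measure (I × I)) := by rw [hab', one_mul]
      nlinarith
    have f2 : ∫ p, k p ∂ν₂ = ∫ p, k p ∂(ρ1.1 : Measure (I × I)) := by
      refine le_antisymm ?_ l2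
      by_contra hcon
      push Not at hcon
      have := mul_lt_mul_of_pos_left hcon hb0
      have := mul_le_mul_of_nonneg_left l1 ha0.le
      have e : (a.toReal + b.toReal) * ∫ p, k p ∂(ρ1.1 : Measure (I × I)) =
        ∫ p, k p ∂(ρ1.1 : Measure (I × I)) := by rw [hab', one_mul]
      nlinarith
    have := hext (ev j1.coup) ⟨j1.coup, ⟨j1, f1⟩, rfl⟩ (ev j2.coup) ⟨j2.coup, ⟨j2, f2⟩, rfl⟩
      ⟨a.toReal, b.toReal, ha0, hb0, hab', by
        funext f
        exact (hlin f).symm⟩
    exact ext_of_forall_integral_eq_of_IsFiniteMeasure fun f => congrFun this f.toContinuousMap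
  · have l3 : ∫ p, k p ∂(ρ.1 : Measure (I × I)) = ∫ p, k p ∂(ρ1.1 : Measure (I × I)) := hρc
    rw [l3]
    exact le_trans (hmin (a := h0.coup) h0) hc

end Pool.Agent.Lib.MP_78c86a_lc.Lie
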