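import Mathlib
import Pool.Agent.Lib.MP_78c86a_lc.LieJoin

set_option autoImplicit false

namespace Pool.Agent.Lib.MP_78c86a_lc.Lie

open MeasureTheory ProbabilityTheory Set Filter Topology
open scoped unitInterval ENNReal

/-- A dense sequence of continuous functions. -/
noncomputable def D : ℕ → C(I, ℂ) := TopologicalSpace.denseSeq C(I, ℂ)

theorem measurable_D (j : ℕ) : Measurable (D j) := (D j).continuous.measurable

theorem exists_D {f : I → ℂ} (hf : Measurable f) {C : ℝ} (hb : ∀ x, ‖f x‖ ≤ C) {δ : ℝ}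
    (hδ : 0 < δ) : ∃ j, ∫⁻ x, ‖f x - D j x‖ₑ ∂lam ≤ ENNReal.ofReal δ := by
  obtain ⟨g, hg, -⟩ := (intg lam hf hb).exists_boundedContinuous_lintegral_sub_le
    (ε := ENNReal.ofReal (δ / 2)) (by simpa using hδ)
  obtain ⟨j, hj⟩ := (TopologicalSpace.denseRange_denseSeq C(I, ℂ)).exists_dist_lt
    g.toContinuousMap (half_pos hδ)
  refine ⟨j, ?_⟩
  calc ∫⁻ x, ‖f x - D j x‖ₑ ∂lam ≤ ∫⁻ x, (‖f x - g x‖ₑ + ENNReal.ofReal (δ / 2)) ∂lam := by
        refine lintegral_mono fun x => ?_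
        have e : f x - D j x = (f x - g x) + (g x - D j x) := by ring
        simp only
        rw [e]
        refine (enorm_add_le _ _).trans ?_
        gcongr
        rw [← ofReal_norm]
        refine ENNReal.ofReal_le_ofReal ?_
        rw [← dist_eq_norm]
        exact ((ContinuousMap.dist_apply_le_dist (f := g.toContinuousMap) (g := D j) x).trans hj.le)
    _ = ∫⁻ x, ‖f x - g x‖ₑ ∂lam + ENNReal.ofReal (δ / 2) := by
        rw [lintegral_add_right _ measurable_const]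
        simp
    _ ≤ ENNReal.ofReal (δ / 2) + ENNReal.ofReal (δ / 2) := by gcongr
    _ = ENNReal.ofReal δ := by
        rw [← ENNReal.ofReal_add (half_pos hδ).le (half_pos hδ).le, add_halves]

theorem mD1 (i j : ℕ) : Measurable fun p : I × I => ‖D i p.2 - D j p.1‖ₑ :=
  (((measurable_D i).comp measurable_snd).sub ((measurable_D j).comp measurable_fst)).enorm

theorem mD2 (i j : ℕ) : Measurable fun p : I × I => ‖D i p.1 - D j p.2‖ₑ :=
  (((measurable_D i).comp measurable_fst).sub ((measurable_D j).comp measurable_snd)).enorm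

/-- The cost of matching the first `n` test functions on both sides. -/
noncomputable def cost (n : ℕ) (a : Fin n → ℕ × ℕ) : C(I × I, ℝ) :=
  ⟨fun p => ∑ i : Fin n, (‖D i p.2 - D (a i).1 p.1‖ + ‖D i p.1 - D (a i).2 p.2‖), by
    refine continuous_finsetSum _ fun i _ => ?_
    exact (((D i).continuous.comp continuous_snd).sub
      ((D _).continuous.comp continuous_fst)).norm.add
      (((D i).continuous.comp continuous_fst).sub ((D _).continuous.comp continuous_snd)).norm⟩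

theorem ofReal_cost (n : ℕ) (a : Fin n → ℕ × ℕ) (ρ : Measure (I × I)) [IsProbabilityMeasure ρ] :
    ENNReal.ofReal (∫ p, cost n a p ∂ρ) =
      ∑ i : Fin n, (∫⁻ p, ‖D i p.2 - D (a i).1 p.1‖ₑ ∂ρ + ∫⁻ p, ‖D i p.1 - D (a i).2 p.2‖ₑ ∂ρ) := by
  have k1 : Integrable (cost n a) ρ :=
    (BoundedContinuousFunction.mkOfCompact (cost n a)).integrable _
  have m1 := mD1
  have m2 := mD2
  have nn : ∀ p, 0 ≤ cost n a p := fun p =>
    Finset.sum_nonneg (s := Finset.univ)
      (f := fun i : Fin n => ‖D i p.2 - D (a i).1 p.1‖ + ‖D i p.1 - D (a i).2 p.2‖)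
      fun i _ => add_nonneg (norm_nonneg _) (norm_nonneg _)
  rw [ofReal_integral_eq_lintegral_ofReal k1 (ae_of_all _ nn)]
  have e : ∀ p : I × I, ENNReal.ofReal (cost n a p) =
      ∑ i : Fin n, (‖D i p.2 - D (a i).1 p.1‖ₑ + ‖D i p.1 - D (a i).2 p.2‖ₑ) := by
    intro p
    change ENNReal.ofReal (∑ i : Fin n, (‖D i p.2 - D (a i).1 p.1‖ + ‖D i p.1 - D (a i).2 p.2‖)) = _
    rw [ENNReal.ofReal_sum_of_nonneg fun i _ => add_nonneg (norm_nonneg _) (norm_nonneg _)]
    refine Finset.sum_congr rfl fun i _ => ?_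
    rw [ENNReal.ofReal_add (norm_nonneg _) (norm_nonneg _), ofReal_norm, ofReal_norm]
  simp_rw [e]
  rw [lintegral_finsetSum _ fun i _ => (m1 _ _).fun_add (m2 _ _)]
  exact Finset.sum_congr rfl fun i _ => lintegral_add_left (m1 _ _) _

theorem approx_of {T S : MPT} {ρ : ℕ → Measure (I × I)} (hj : ∀ n, IsJoin T S (ρ n))
    (he : ∀ n, Ergodic (Prod.map T.toFun S.toFun) (ρ n))
    (hn : ∀ n i, i < n → ∃ j, ∫⁻ p, ‖D i p.2 - D j p.1‖ₑ ∂ρ n ≤ ENNReal.ofReal (1 / (n + 1))) :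
    Approx T S ρ := by
  refine ⟨hj, he, fun f hf C hb δ hδ => ?_⟩
  obtain ⟨i, hi⟩ := exists_D hf hb (half_pos hδ)
  have h1 : ∀ᶠ n : ℕ in atTop, 1 / ((n : ℝ) + 1) < δ / 2 :=
    tendsto_one_div_add_atTop_nhds_zero_nat.eventually (gt_mem_nhds (half_pos hδ))
  filter_upwards [h1, eventually_gt_atTop i] with n a b
  obtain ⟨j, hj2⟩ := hn n i b
  refine ⟨D j, measurable_D j, ?_⟩
  have m0 : Measurable fun x : I => ‖f x - D i x‖ₑ := (hf.sub (measurable_D i)).enorm
  calc ∫⁻ p, ‖f p.2 - D j p.1‖ₑ ∂ρ n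
      ≤ ∫⁻ p, (‖f p.2 - D i p.2‖ₑ + ‖D i p.2 - D j p.1‖ₑ) ∂ρ n := by
        refine lintegral_mono fun p => ?_
        have e : f p.2 - D j p.1 = (f p.2 - D i p.2) + (D i p.2 - D j p.1) := by ring
        simp only
        rw [e]
        exact enorm_add_le _ _
    _ = ∫⁻ p, ‖f p.2 - D i p.2‖ₑ ∂ρ n + ∫⁻ p, ‖D i p.2 - D j p.1‖ₑ ∂ρ n :=
        lintegral_add_left (m0.comp measurable_snd) _
    _ ≤ ENNReal.ofReal (δ / 2) + ENNReal.ofReal (δ / 2) := by
        refine add_le_add ?_ (hj2.trans (ENNReal.ofReal_le_ofReal a.le))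
        rw [(hj n).snd.lintegral_comp m0]
        exact hi
    _ = ENNReal.ofReal δ := by
        rw [← ENNReal.ofReal_add (half_pos hδ).le (half_pos hδ).le, add_halves]

theorem conj_of_cost {S T : EMPT} (hS : LieType S) (hT : LieType T)
    (h : ∀ n : ℕ, ∃ a, (S, T) ∈ Cost (cost n a) (1 / (n + 1))) : Conj S T := by
  choose a ha using h
  choose ρ hj he hc using fun n => exists_ergodic (ha n)
  have key : ∀ n (i : Fin n), ∫⁻ p, ‖D i p.2 - D (a n i).1 p.1‖ₑ ∂ρ n +
      ∫⁻ p, ‖D i p.1 - D (a n i).2 p.2‖ₑ ∂ρ n ≤ ENNReal.ofReal (1 / (n + 1)) := by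
    intro n i
    have := (hj n).prob
    refine le_trans ?_ (ENNReal.ofReal_le_ofReal (hc n))
    rw [ofReal_cost]
    exact Finset.single_le_sum (f := fun i : Fin n => ∫⁻ p, ‖D i p.2 - D (a n i).1 p.1‖ₑ ∂ρ n +
      ∫⁻ p, ‖D i p.1 - D (a n i).2 p.2‖ₑ ∂ρ n) (fun _ _ => zero_le) (Finset.mem_univ i)
  refine conj_of_approx (ρ := ρ) (approx_of hj he fun n i hi => ?_)
    (approx_of (fun n => (hj n).swap) (fun n => ergodic_swap (hj n) (he n)) fun n i hi => ?_) hS hT
  · exact ⟨(a n ⟨i, hi⟩).1, le_trans le_self_add (key n ⟨i, hi⟩)⟩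
  · refine ⟨(a n ⟨i, hi⟩).2, ?_⟩
    rw [lintegral_map (mD1 _ _) measurable_swap]
    exact le_trans le_add_self (key n ⟨i, hi⟩)

theorem cost_of_conj {S T : EMPT} (h : Conj S T) (n : ℕ) :
    ∃ a, (S, T) ∈ Cost (cost n a) (1 / (n + 1)) := by
  obtain ⟨φ, hφ⟩ := h
  have i1 : ∀ᵐ y ∂lam, S.1.toFun (φ.toFun y) = φ.toFun (T.1.toFun y) := by
    filter_upwards [(mp φ).quasiMeasurePreserving.ae hφ, inv_comp φ] with x h1 h2
    simp only [Function.comp_apply, id_eq] at h1 h2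
    rw [h1, h2]
  have mg : Measurable fun y : I => (y, φ.toFun y) := measurable_id.prodMk (mp φ).measurable
  let ρ : Measure (I × I) := lam.map fun y : I => (y, φ.toFun y)
  have hp : IsProbabilityMeasure ρ := Measure.isProbabilityMeasure_map mg.aemeasurable
  have m1 := (mp T.1).measurable.prodMap (mp S.1).measurable
  have hj : IsJoin T.1 S.1 ρ := by
    refine ⟨hp, ⟨measurable_fst, ?_⟩, ⟨measurable_snd, ?_⟩, ⟨m1, ?_⟩⟩
    · rw [Measure.map_map measurable_fst mg]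
      exact Measure.map_id
    · rw [Measure.map_map measurable_snd mg]
      exact (mp φ).map_eq
    · rw [Measure.map_map m1 mg]
      have : ρ = lam.map ((fun y : I => (y, φ.toFun y)) ∘ T.1.toFun) := by
        rw [← Measure.map_map mg (mp T.1).measurable, (mp T.1).map_eq]
      rw [this]
      refine Measure.map_congr ?_
      filter_upwards [i1] with y hy
      exact Prod.ext rfl hy
  set δ : ℝ := 1 / (n + 1) / (2 * n + 1) with hδ
  have hδ0 : 0 < δ := by positivity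
  have b1 : ∀ i : ℕ, ∃ j, ∫⁻ p, ‖D i p.2 - D j p.1‖ₑ ∂ρ ≤ ENNReal.ofReal δ := by
    intro i
    obtain ⟨j, hj⟩ := exists_D (f := fun y => D i (φ.toFun y))
      ((measurable_D i).comp (mp φ).measurable) (fun y => (D i).norm_coe_le_norm _) hδ0
    refine ⟨j, ?_⟩
    rw [lintegral_map (mD1 _ _) mg]
    exact hj
  have b2 : ∀ i : ℕ, ∃ j, ∫⁻ p, ‖D i p.1 - D j p.2‖ₑ ∂ρ ≤ ENNReal.ofReal δ := by
    intro i
    have m0 : Measurable fun x => D i (φ.inv x) := (measurable_D i).comp (mp_inv φ).measurable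
    obtain ⟨j, hj⟩ := exists_D m0 (fun y => (D i).norm_coe_le_norm _) hδ0
    refine ⟨j, ?_⟩
    rw [lintegral_map (mD2 _ _) mg]
    have m3 : Measurable fun x => ‖D i (φ.inv x) - D j x‖ₑ := (m0.sub (measurable_D j)).enorm
    rw [← (mp φ).lintegral_comp m3] at hj
    refine le_trans (le_of_eq (lintegral_congr_ae ?_)) hj
    filter_upwards [inv_comp φ] with y hy
    simp only [Function.comp_apply, id_eq] at hy
    simp only [hy]
  choose a1 ha1 using b1
  choose a2 ha2 using b2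
  refine ⟨fun i => (a1 i, a2 i), ρ, hj, ?_⟩
  rw [← ENNReal.ofReal_le_ofReal_iff (by positivity), ofReal_cost]
  refine (Finset.sum_le_sum fun (i : Fin n) _ => add_le_add (ha1 i) (ha2 i)).trans ?_
  rw [Finset.sum_const, Finset.card_univ, Fintype.card_fin, nsmul_eq_mul,
    ← ENNReal.ofReal_add hδ0.le hδ0.le, ← ENNReal.ofReal_natCast,
    ← ENNReal.ofReal_mul (Nat.cast_nonneg n)]
  refine ENNReal.ofReal_le_ofReal ?_
  have : (n : ℝ) * (δ + δ) = 1 / (n + 1) * (2 * n / (2 * n + 1)) := by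
    rw [hδ]; ring
  rw [this]
  refine mul_le_of_le_one_right (by positivity) ?_
  rw [div_le_one (by positivity)]
  linarith

end Pool.Agent.Lib.MP_78c86a_lc.Lie
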