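import Mathlib
import Pool.Agent.Lib.MP_78c86a_lc.Circle

set_option autoImplicit false

namespace Pool.Agent.Lib.MP_78c86a_lc

open MeasureTheory Set Filter Topology Metric
open scoped NNReal ENNReal symmDiff

theorem finsum_eq_ncard {Λ : Type} (f : Λ → ZMod 2) :
    ∑ᶠ n, f n = ((Function.support f).ncard : ZMod 2) := by
  classical
  by_cases hf : (Function.support f).Finite
  · rw [finsum_eq_sum f hf, Set.ncard_eq_toFinset_card _ hf, Finset.card_eq_sum_ones]
    push_cast
    refine Finset.sum_congr rfl fun n hn => ?_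
    rcases zmod2_cases (f n) with h | h
    · simp [h] at hn
    · exact h
  · rw [finsum_of_infinite_support hf, Set.Infinite.ncard hf]
    simp

variable {Λ : Type} [Countable Λ]

/-- the increments of the pattern `g` along `α` -/
def dlt (α : Λ → Circ) (g : Λ → Circ → ZMod 2) (x : Λ → Circ) (n : Λ) : ZMod 2 :=
  g n (α n + x n) - g n (x n)

/-- the cocycle defined by the pattern `g` -/
noncomputable def cyc (α : Λ → Circ) (g : Λ → Circ → ZMod 2) (x : Λ → Circ) : ZMod 2 :=
  ∑ᶠ n, dlt α g x n

/-- admissible patterns -/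
structure Good (α : Λ → Circ) (g : Λ → Circ → ZMod 2) : Prop where
  meas : ∀ n, Measurable (g n)
  sum : ∑' n, volume {y | g n (α n + y) ≠ g n y} ≠ ⊤

theorem measurable_cyc {α : Λ → Circ} {g : Λ → Circ → ZMod 2} (hg : ∀ n, Measurable (g n)) :
    Measurable (cyc α g) := by
  have : cyc α g = fun x => ((Function.support (dlt α g x)).ncard : ZMod 2) :=
    funext fun x => finsum_eq_ncard _
  rw [this]
  refine (measurable_from_top (f := fun k : ℕ => (k : ZMod 2))).comp (measurable_ncard.comp ?_)
  refine measurable_set_iff.2 fun n => ?_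
  have hm : Measurable (fun x : Λ → Circ => dlt α g x n) :=
    ((hg n).comp ((measurable_pi_apply n).const_add _)).sub ((hg n).comp (measurable_pi_apply n))
  exact (measurable_from_top (f := fun a : ZMod 2 => a ≠ 0)).comp hm

omit [Countable Λ] in
theorem Good.zero (α : Λ → Circ) : Good α (fun _ _ => 0) :=
  ⟨fun _ => measurable_const, by simp⟩

omit [Countable Λ] in
theorem Good.add {α : Λ → Circ} {g g' : Λ → Circ → ZMod 2} (h : Good α g) (h' : Good α g') :
    Good α (fun n y => g n y + g' n y) := by
  refine ⟨fun n => (h.meas n).add (h'.meas n), ?_⟩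
  refine ne_top_of_le_ne_top (ENNReal.add_ne_top.2 ⟨h.sum, h'.sum⟩) ?_
  rw [← ENNReal.tsum_add]
  refine ENNReal.tsum_le_tsum fun n => le_trans (measure_mono ?_) (measure_union_le _ _)
  intro y hy
  by_contra hc
  simp only [mem_union, mem_ofPred_eq, not_or, not_not] at hc
  exact hy (by rw [hc.1, hc.2])

omit [Countable Λ] in
theorem Good.shift {α : Λ → Circ} {g : Λ → Circ → ZMod 2} (h : Good α g) (S : Λ → Circ) :
    Good α (fun n y => g n (y + S n)) := by
  refine ⟨fun n => (h.meas n).comp (measurable_add_const _), ?_⟩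
  convert h.sum using 3 with n
  rw [← measure_preimage_add_right volume (S n) {y | g n (α n + y) ≠ g n y}]
  congr 1
  ext y
  simp [add_assoc]

omit [Countable Λ] in
theorem cyc_shift (α : Λ → Circ) (g : Λ → Circ → ZMod 2) (S x : Λ → Circ) :
    cyc α g (x + S) = cyc α (fun n y => g n (y + S n)) x := by
  simp [cyc, dlt, add_assoc]

variable (μ : Measure (Λ → Circ)) [IsProbabilityMeasure μ] [μ.IsAddHaarMeasure]

theorem measurePreserving_eval (n : Λ) :
    MeasurePreserving (fun x : Λ → Circ => x n) μ volume :=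
  (Pi.evalAddMonoidHom (fun _ : Λ => Circ) n).measurePreserving (continuous_apply n)
    (Function.surjective_eval n) (by simp)

theorem Good.ae_finite {α : Λ → Circ} {g : Λ → Circ → ZMod 2} (h : Good α g) :
    ∀ᵐ x ∂μ, (Function.support (dlt α g x)).Finite := by
  have h1 : ∑' n, μ {x : Λ → Circ | g n (α n + x n) ≠ g n (x n)} ≠ ⊤ := by
    convert h.sum using 3 with n
    exact (measurePreserving_eval μ n).measure_preimage (s := {y | g n (α n + y) ≠ g n y})
      (measurableSet_eq_fun ((h.meas n).comp (measurable_const_add _))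
        (h.meas n)).compl.nullMeasurableSet
  filter_upwards [ae_finite_setOfPred_mem h1] with x hx
  convert hx using 1
  ext n
  simp [dlt, sub_eq_zero]

theorem cyc_add {α : Λ → Circ} {g g' : Λ → Circ → ZMod 2} (h : Good α g) (h' : Good α g') :
    ∀ᵐ x ∂μ, cyc α (fun n y => g n y + g' n y) x = cyc α g x + cyc α g' x := by
  filter_upwards [h.ae_finite μ, h'.ae_finite μ] with x h1 h2
  unfold cyc
  rw [← finsum_add_distrib h1 h2]
  congr 1
  funext n
  simp only [dlt]
  ring

theorem cyc_pair {J : Type} {α : Λ → Circ} {g : J → Λ → Circ → ZMod 2} (h : ∀ j, Good α (g j))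
    (c : J →₀ ZMod 2) : Good α (fun n y => pair c (fun j => g j n y)) ∧
      ∀ᵐ x ∂μ, cyc α (fun n y => pair c (fun j => g j n y)) x =
        pair c (fun j => cyc α (g j) x) := by
  induction c using Finsupp.induction_linear with
  | zero => exact ⟨by simpa using Good.zero α, by simp [cyc, dlt]⟩
  | add c d hc hd =>
    simp only [pair_add_left]
    refine ⟨hc.1.add hd.1, ?_⟩
    filter_upwards [cyc_add μ hc.1 hd.1, hc.2, hd.2] with x h1 h2 h3
    rw [h1, h2, h3]
  | single j a =>
    rcases zmod2_cases a with rfl | rfl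
    · exact ⟨by simpa using Good.zero α, by simp [cyc, dlt]⟩
    · simp only [pair_single]
      exact ⟨h j, Eventually.of_forall fun _ => trivial⟩

/-- If the cocycle of a pattern is a coboundary, the step functions of the pattern are
asymptotically invariant under all rotations. -/
theorem nearInv_of_cob {α : Λ → Circ} (hR : Ergodic (α + ·) μ) {g : Λ → Circ → ZMod 2}
    (hg : Good α g) (hc : Cob μ (α + ·) (cyc α g)) : ∀ᶠ n in cofinite, NearInv (g n) := by
  classical
  obtain ⟨h, hm, hh⟩ := hc
  let A : Set (Λ → Circ) := {x | h x = 0}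
  have hA : MeasurableSet A := measurableSet_eq_fun hm measurable_const
  let ε : ℝ≥0∞ := ENNReal.ofReal (1 / 4000)
  obtain ⟨C, hC, hCA⟩ := exists_measure_symmDiff_lt_of_generateFrom_isSetRing (μ := μ)
    isSetRing_measurableCylinders
    ⟨{univ}, countable_singleton _, singleton_subset_iff.2 (univ_mem_measurableCylinders _), by simp⟩
    generateFrom_measurableCylinders.symm hA (ε := ε) (by simp [ε])
  obtain ⟨s, S, hS, rfl⟩ := (mem_measurableCylinders C).1 hC
  filter_upwards [s.finite_toSet.compl_mem_cofinite] with n hn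
  have hn' : n ∉ s := hn
  have step : ∀ θ : Circ, ∃ e : ZMod 2, volume {y | g n (θ + y) - g n y ≠ e} ≤ ε + ε := by
    intro θ
    let a : Λ → Circ := Pi.single n θ
    have hmp := measurePreserving_add_left μ a
    have h1 : μ {x | h (a + x) ≠ h x} ≤ ε + ε := by
      have hsub : {x | h (a + x) ≠ h x} ⊆
          (cylinder s S ∆ A) ∪ (fun x => a + x) ⁻¹' (cylinder s S ∆ A) := by
        intro x hx
        have hcyl : a + x ∈ cylinder s S ↔ x ∈ cylinder s S := by
          simp only [mem_cylinder]
          have : s.restrict (a + x) = s.restrict x := by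
            funext i
            have hi : (i : Λ) ≠ n := fun h' => hn' (h' ▸ i.2)
            simp [a, Pi.single_eq_of_ne hi]
          rw [this]
        by_contra hcon
        simp only [mem_union, mem_preimage, mem_symmDiff, not_or, not_and, not_not, hcyl, A,
          mem_ofPred_eq] at hcon
        apply hx
        rcases zmod2_cases (h x) with h2 | h2
        · rw [h2]; exact hcon.2.1 (hcon.1.2 h2)
        · rcases zmod2_cases (h (a + x)) with h3 | h3
          · have := hcon.1.1 (hcon.2.2 h3)
            rw [this, h3]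
          · rw [h2, h3]
      refine (measure_mono hsub).trans ((measure_union_le _ _).trans (add_le_add hCA.le ?_))
      rw [measure_preimage_add]
      exact hCA.le
    let H : (Λ → Circ) → ZMod 2 := fun x => h (a + x) - h x - (g n (θ + x n) - g n (x n))
    have hH : Measurable H :=
      ((hm.comp (measurable_const_add a)).sub hm).sub
        (((hg.meas n).comp ((measurable_pi_apply n).const_add _)).sub
          ((hg.meas n).comp (measurable_pi_apply n)))
    have hinv : H ∘ (α + ·) =ᵐ[μ] H := by
      filter_upwards [hh, hmp.quasiMeasurePreserving.ae hh, hg.ae_finite μ] with x h2 h3 h4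
      have h5 : cyc α g (a + x) = cyc α g x + (dlt α g (a + x) n - dlt α g x n) := by
        have h6 : dlt α g (a + x) =
            fun k => dlt α g x k + (Pi.single n (dlt α g (a + x) n - dlt α g x n) : Λ → ZMod 2) k := by
          funext k
          by_cases hk : k = n
          · subst hk; simp
          · simp [dlt, a, Pi.single_eq_of_ne hk]
        unfold cyc
        rw [h6, finsum_add_distrib h4 ((Set.finite_singleton n).subset Pi.support_single_subset),
          finsum_eq_single (Pi.single n _ : Λ → ZMod 2) n (fun k hk => Pi.single_eq_of_ne hk _)]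
        simp
      simp only [Function.comp_apply, H]
      rw [add_left_comm a α x, h3, h2, h5]
      simp only [dlt, a, Pi.add_apply, Pi.single_eq_same, add_left_comm (α n) θ]
      ring
    obtain ⟨c, hc⟩ := hR.ae_eq_const_of_ae_eq_comp₀ hH.nullMeasurable hinv
    refine ⟨-c, ?_⟩
    rw [← (measurePreserving_eval μ n).measure_preimage
      (s := {y | g n (θ + y) - g n y ≠ -c})
      (measurableSet_eq_fun (((hg.meas n).comp (measurable_const_add _)).sub (hg.meas n))
        measurable_const).compl.nullMeasurableSet]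
    refine le_trans (measure_mono_ae ?_) h1
    filter_upwards [hc] with x hx hx' hx''
    apply hx'
    simp only [H, Function.const_apply, hx'', sub_self, zero_sub] at hx
    rw [← hx, neg_neg]
  intro θ
  obtain ⟨θ', rfl⟩ : ∃ θ' : Circ, θ = θ' + θ' := by
    induction θ using QuotientAddGroup.induction_on with
    | H r => exact ⟨((r / 2 : ℝ) : Circ), by rw [← AddCircle.coe_add, add_halves]⟩
  obtain ⟨e, he⟩ := step θ'
  have hsub : {y | g n (θ' + θ' + y) ≠ g n y} ⊆ {y | g n (θ' + y) - g n y ≠ e} ∪
      (fun y => θ' + y) ⁻¹' {y | g n (θ' + y) - g n y ≠ e} := by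
    intro y hy
    by_contra hcon
    simp only [mem_union, mem_preimage, mem_ofPred_eq, not_or, not_not] at hcon
    apply hy
    rw [add_assoc, ← sub_eq_zero, ← CharTwo.add_self_eq_zero e]
    linear_combination hcon.1 + hcon.2
  refine (measure_mono hsub).trans ((measure_union_le _ _).trans ?_)
  rw [measure_preimage_add]
  refine (add_le_add he he).trans (le_of_eq ?_)
  simp only [ε]
  rw [← ENNReal.ofReal_add (by norm_num) (by norm_num),
    ← ENNReal.ofReal_add (by norm_num) (by norm_num)]
  norm_num

theorem exists_root {δ b : ℝ} (hb : b ∈ Icc 0 δ) (k : ℕ) (y : Circ) :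
    ∃ b' ∈ Icc 0 δ, |b' - b| ≤ 1 / ((k : ℝ) + 1) ∧
      (1 / ((k : ℝ) + 1) ≤ δ → ((k : ℤ) + 1) • (b' : Circ) = y) := by
  have hk : (0 : ℝ) < (k : ℝ) + 1 := by positivity
  by_cases h : 1 / ((k : ℝ) + 1) ≤ δ
  · let p := min b (δ - 1 / ((k : ℝ) + 1))
    have hp0 : 0 ≤ p := le_min hb.1 (by linarith)
    have hpb : p ≤ b := min_le_left _ _
    have hpd : p ≤ δ - 1 / ((k : ℝ) + 1) := min_le_right _ _
    have hbp : b ≤ p + 1 / ((k : ℝ) + 1) := by
      have : 0 < 1 / ((k : ℝ) + 1) := by positivity
      rcases min_choice b (δ - 1 / ((k : ℝ) + 1)) with h' | h' <;> simp only [p, h'] <;>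
        linarith [hb.2]
    obtain ⟨r, hr, rfl⟩ : ∃ r ∈ Ico (((k : ℝ) + 1) * p) (((k : ℝ) + 1) * p + 1), (r : Circ) = y :=
      ⟨AddCircle.equivIco 1 _ y, (AddCircle.equivIco 1 _ y).2, AddCircle.coe_equivIco⟩
    have h1 : p ≤ r / ((k : ℝ) + 1) := by
      rw [le_div_iff₀ hk]; linarith [hr.1]
    have h2 : r / ((k : ℝ) + 1) ≤ p + 1 / ((k : ℝ) + 1) := by
      rw [div_le_iff₀ hk, add_mul, one_div, inv_mul_cancel₀ hk.ne']; linarith [hr.2]
    refine ⟨r / ((k : ℝ) + 1), ⟨by linarith, by linarith⟩, ?_, fun _ => ?_⟩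
    · rw [abs_le]; constructor <;> linarith
    · rw [← AddCircle.coe_zsmul, zsmul_eq_mul]
      push_cast
      rw [mul_div_cancel₀ _ hk.ne']
  · exact ⟨b, hb, by simp; positivity, fun h' => absurd h' h⟩

/-- the infinite torus has topological generators with arbitrarily small coordinates -/
theorem exists_generator (δ : Λ → ℝ) (hδ : ∀ n, 0 < δ n) :
    ∃ α : Λ → Circ, (∀ n, ‖α n‖ ≤ δ n) ∧ DenseRange (fun k : ℤ => k • α) := by
  let B := ∀ n, Icc (0 : ℝ) (δ n)
  have : Nonempty B := ⟨fun n => ⟨0, le_rfl, (hδ n).le⟩⟩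
  let f : B → Λ → Circ := fun β n => ((β n : ℝ) : Circ)
  have hf : Continuous f := continuous_pi fun n =>
    (AddCircle.continuous_mk' 1).comp (continuous_subtype_val.comp (continuous_apply n))
  let O : TopologicalSpace.countableBasis (Λ → Circ) → Set B :=
    fun U => ⋃ k : ℤ, (fun β => k • f β) ⁻¹' U.1
  have hO : ∀ U, IsOpen (O U) := fun U => isOpen_iUnion fun k =>
    (TopologicalSpace.isOpen_of_mem_countableBasis U.2).preimage (hf.const_smul k)
  have hD : ∀ U, Dense (O U) := by
    intro U
    rw [dense_iff_inter_open]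
    rintro V hV ⟨β, hβ⟩
    obtain ⟨y, hy⟩ := TopologicalSpace.nonempty_of_mem_countableBasis U.2
    choose b hb1 hb2 hb3 using fun (k : ℕ) (n : Λ) => exists_root (β n).2 k (y n)
    let γ : ℕ → B := fun k n => ⟨b k n, hb1 k n⟩
    have h1 : Tendsto γ atTop (𝓝 β) := by
      rw [tendsto_pi_nhds]
      intro n
      rw [tendsto_subtype_rng, tendsto_iff_dist_tendsto_zero]
      exact squeeze_zero (fun _ => dist_nonneg) (fun k => hb2 k n)
        tendsto_one_div_add_atTop_nhds_zero_nat
    have h2 : Tendsto (fun k : ℕ => ((k : ℤ) + 1) • f (γ k)) atTop (𝓝 y) := by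
      rw [tendsto_pi_nhds]
      intro n
      apply tendsto_const_nhds.congr'
      filter_upwards [(tendsto_one_div_add_atTop_nhds_zero_nat (𝕜 := ℝ)).eventually
        (eventually_le_nhds (hδ n))] with k hk
      exact (hb3 k n hk).symm
    obtain ⟨k, hk1, hk2⟩ := ((h1.eventually (hV.mem_nhds hβ)).and (h2.eventually
      ((TopologicalSpace.isOpen_of_mem_countableBasis U.2).mem_nhds hy))).exists
    exact ⟨γ k, hk1, mem_iUnion.2 ⟨(k : ℤ) + 1, hk2⟩⟩
  have hc : Countable (TopologicalSpace.countableBasis (Λ → Circ)) :=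
    (TopologicalSpace.countable_countableBasis _).to_subtype
  obtain ⟨β, hβ⟩ := (dense_iInter_of_isOpen hO hD).nonempty
  refine ⟨f β, fun n => ?_, ?_⟩
  · refine QuotientAddGroup.norm_mk_le_norm.trans ?_
    rw [Real.norm_eq_abs, abs_of_nonneg (β n).2.1]
    exact (β n).2.2
  · rw [DenseRange, (TopologicalSpace.isBasis_countableBasis _).dense_iff]
    intro U hU _
    obtain ⟨k, hk⟩ := mem_iUnion.1 (mem_iInter.1 hβ ⟨U, hU⟩)
    exact ⟨k • f β, hk, k, rfl⟩

/-- a generator for which all step-function patterns are admissible -/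
theorem exists_good_generator :
    ∃ α : Λ → Circ, DenseRange (fun k : ℤ => k • α) ∧
      ∀ q : Λ → Bool × ZMod 2 → ZMod 2, Good α (fun n => val (q n)) := by
  obtain ⟨δ, hδ, hs⟩ := ENNReal.exists_pos_sum_of_countable (ε := 1) one_ne_zero Λ
  obtain ⟨α, h1, h2⟩ := exists_generator (fun n => (δ n : ℝ)) (fun n => hδ n)
  refine ⟨α, h2, fun q => ⟨fun n => measurable_val _, ?_⟩⟩
  refine ne_top_of_le_ne_top ?_ (ENNReal.tsum_le_tsum fun n => vol_val_shift (q n) (h1 n))
  rw [ENNReal.tsum_mul_left]
  exact ENNReal.mul_ne_top (by simp) (hs.trans ENNReal.one_lt_top).ne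

end Pool.Agent.Lib.MP_78c86a_lc
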