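import Mathlib

set_option autoImplicit false

namespace Pool.Agent.Lib.MP_78c86a_lc

open MeasureTheory Set Filter Topology

/-- The node of length `n` on the branch `b` (children are obtained by `cons`). -/
def node (b : ℕ → ℕ) : ℕ → List ℕ
  | 0 => []
  | n + 1 => b n :: node b n

@[simp] theorem node_length (b : ℕ → ℕ) (n : ℕ) : (node b n).length = n := by
  induction n with
  | zero => rfl
  | succ n ih => simp [node, ih]

theorem eq_of_node_eq {b c : ℕ → ℕ} {n : ℕ} (h : node b n = node c n) : ∀ i < n, b i = c i := by
  induction n with
  | zero => intro i hi; omega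
  | succ n ih =>
    simp only [node, List.cons.injEq] at h
    intro i hi
    rcases Nat.lt_succ_iff_lt_or_eq.1 hi with hi | rfl
    · exact ih h.2 i hi
    · exact h.1

/-- `τ` contains all non-root nodes of some infinite branch. -/
def HasBranch (τ : List ℕ → Bool) : Prop := ∃ b : ℕ → ℕ, ∀ n, τ (node b (n + 1)) = true

/-- the tree coded by `c` at the point `y` -/
def codeTree (c y : ℕ → Bool) : List ℕ → Bool :=
  fun t => c (Encodable.encode ((List.range t.length).map y, t))

theorem continuous_codeTree_diag : Continuous (fun c : ℕ → Bool => codeTree c c) := by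
  refine continuous_pi fun t => ?_
  rw [continuous_iff_continuousAt]
  intro c
  have h1 : ∀ i, ∀ᶠ c' in 𝓝 c, c' i = c i := by
    intro i
    have : ContinuousAt (fun c' : ℕ → Bool => c' i) c := (continuous_apply i).continuousAt
    exact this.eventually (p := fun x => x = c i) ((isOpen_discrete {c i}).mem_nhds rfl)
  have h2 : ∀ᶠ c' in 𝓝 c, ∀ i ∈ Finset.range t.length, c' i = c i :=
    (Filter.eventually_all_finset _).2 fun i _ => h1 i
  have h3 : ∀ᶠ c' in 𝓝 c, codeTree c' c' t = codeTree c c t := by
    filter_upwards [h2, h1 (Encodable.encode ((List.range t.length).map c, t))] with c' a b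
    have : (List.range t.length).map c' = (List.range t.length).map c := by
      apply List.map_congr_left
      intro i hi
      exact a i (by simpa using hi)
    simp only [codeTree, this, b]
  exact (continuousAt_const (y := codeTree c c t)).congr (h3.mono fun _ h => h.symm)

theorem exists_code {A : Set (ℕ → Bool)} (hA : AnalyticSet A) :
    ∃ c : ℕ → Bool, ∀ y, y ∈ A ↔ HasBranch (codeTree c y) := by
  classical
  rw [AnalyticSet] at hA
  rcases hA with rfl | ⟨f, hf, rfl⟩
  · refine ⟨fun _ => false, fun y => ?_⟩
    simp [HasBranch, codeTree]
  · refine ⟨fun k => decide (∃ (b : ℕ → ℕ) (n : ℕ),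
      k = Encodable.encode ((List.range n).map (f b), node b n)), fun y => ?_⟩
    constructor
    · rintro ⟨b, rfl⟩
      refine ⟨b, fun n => ?_⟩
      simp only [codeTree, node_length, decide_eq_true_eq]
      exact ⟨b, n + 1, rfl⟩
    · rintro ⟨b, hb⟩
      simp only [codeTree, node_length, decide_eq_true_eq, Encodable.encode_inj,
        Prod.mk.injEq] at hb
      choose g k hg1 hg2 using hb
      have hk : ∀ n, k n = n + 1 := by
        intro n
        have := congrArg List.length (hg2 n)
        simpa using this.symm
      have hgb : Tendsto g atTop (𝓝 b) := by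
        rw [tendsto_pi_nhds]
        intro i
        apply tendsto_const_nhds.congr'
        filter_upwards [eventually_ge_atTop i] with n hn
        have h2 := hg2 n
        rw [hk n] at h2
        exact eq_of_node_eq h2 i (by omega)
      have hfy : Tendsto (fun n => f (g n)) atTop (𝓝 y) := by
        rw [tendsto_pi_nhds]
        intro i
        apply tendsto_const_nhds.congr'
        filter_upwards [eventually_ge_atTop i] with n hn
        have h1 := hg1 n
        rw [hk n] at h1
        exact List.map_inj_left.1 h1 i (by simp; omega)
      exact ⟨b, tendsto_nhds_unique ((hf.tendsto b).comp hgb) hfy⟩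

/-- The set of ill-founded trees is not Borel. -/
theorem not_measurableSet_hasBranch :
    ¬ MeasurableSet {τ : List ℕ → Bool | HasBranch τ} := by
  intro h
  have h1 : MeasurableSet ((fun c : ℕ → Bool => codeTree c c) ⁻¹' {τ | HasBranch τ})ᶜ :=
    (continuous_codeTree_diag.measurable h).compl
  have i1 : TopologicalSpace.IsCompletelyMetrizableSpace (ℕ → Bool) := inferInstance
  have i2 : TopologicalSpace.SeparableSpace (ℕ → Bool) := inferInstance
  have i3 : PolishSpace (ℕ → Bool) := inferInstance
  obtain ⟨c, hc⟩ := exists_code h1.analyticSet
  have := hc c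
  simp only [mem_compl_iff, mem_preimage, mem_ofPred_eq] at this
  tauto

end Pool.Agent.Lib.MP_78c86a_lc
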