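import Mathlib
import Pool.Agent.Lib.MP_78c86a_lc.Pattern
import Pool.Agent.Lib.MP_78c86a_lc.Trees

set_option autoImplicit false

namespace Pool.Agent.Lib.MP_78c86a_lc

open MeasureTheory Set Filter Topology Metric
open scoped NNReal ENNReal symmDiff

/-- the base: an infinite torus, with one block of coordinates for each node -/
abbrev Base : Type := List ℕ × ℕ → Circ

/-- the fibre: two generators for each node -/
abbrev Fib : Type := List ℕ × Bool → ZMod 2

/-- support of the pattern of generator `j` on block `s'` -/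
def patP (η : ZMod 2) (τ : List ℕ → Bool) :
    List ℕ × Bool → List ℕ → Bool × ZMod 2 → Prop
  | (t, false), s', (false, e) => s' = t ∧ e = 0
  | (t, false), s', (true, e) => s' ≠ [] ∧ s'.tail = t ∧ e = 0
  | (s, true), s', (true, e) => s' = s ∧ (s = [] → e = η)
  | (s, true), s', (false, _) => s ≠ [] ∧ s' = s.tail ∧ τ s = true

open Classical in
/-- the pattern of generator `j` on block `s'` -/
noncomputable def pat (η : ZMod 2) (τ : List ℕ → Bool) (j : List ℕ × Bool) (s' : List ℕ)
    (i : Bool × ZMod 2) : ZMod 2 :=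
  if patP η τ j s' i then 1 else 0

theorem pat_pos {η : ZMod 2} {τ : List ℕ → Bool} {j : List ℕ × Bool} {s' : List ℕ}
    {i : Bool × ZMod 2} (h : patP η τ j s' i) : pat η τ j s' i = 1 := if_pos h

theorem pat_neg {η : ZMod 2} {τ : List ℕ → Bool} {j : List ℕ × Bool} {s' : List ℕ}
    {i : Bool × ZMod 2} (h : ¬ patP η τ j s' i) : pat η τ j s' i = 0 := if_neg h

theorem pat_congr {η η' : ZMod 2} {τ τ' : List ℕ → Bool} {j j' : List ℕ × Bool} {s s' : List ℕ}
    {i i' : Bool × ZMod 2} (h : patP η τ j s i ↔ patP η' τ' j' s' i') :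
    pat η τ j s i = pat η' τ' j' s' i' := by
  by_cases h1 : patP η τ j s i
  · rw [pat_pos h1, pat_pos (h.1 h1)]
  · rw [pat_neg h1, pat_neg (mt h.2 h1)]

/-- the cocycle -/
noncomputable def phi (α : Base) (η : ZMod 2) (τ : List ℕ → Bool) (x : Base) : Fib :=
  fun j => cyc α (fun n => val (pat η τ j n.1)) x

theorem measurable_phi (α : Base) (η : ZMod 2) (τ : List ℕ → Bool) : Measurable (phi α η τ) :=
  measurable_pi_lambda _ fun _ => measurable_cyc fun _ => measurable_val _

/-- the transformation -/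
noncomputable def tr (α : Base) (η : ZMod 2) (τ : List ℕ → Bool) : Base × Fib → Base × Fib :=
  skew (α + ·) (phi α η τ)

theorem pair_eq_single {J : Type} (c : J →₀ ZMod 2) (k : J → ZMod 2) (j : J) (hj : k j = 1)
    (h : ∀ j', j' ≠ j → c j' ≠ 0 → k j' = 0) : pair c k = c j := by
  unfold pair
  rw [Finsupp.sum_eq_single j]
  · rw [hj, mul_one]
  · intro j' h1 h2
    rw [h j' h2 h1, mul_zero]
  · simp

theorem exists_of_pair_ne {J : Type} {c : J →₀ ZMod 2} {k : J → ZMod 2} (h : pair c k ≠ 0) :
    ∃ j, c j ≠ 0 ∧ k j ≠ 0 := by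
  obtain ⟨j, -, hj⟩ := Finset.exists_ne_zero_of_sum_ne_zero h
  exact ⟨j, left_ne_zero_of_mul hj, right_ne_zero_of_mul hj⟩

theorem val_pair {J : Type} (c : J →₀ ZMod 2) (q : J → Bool × ZMod 2 → ZMod 2) (y : Circ) :
    pair c (fun j => val (q j) y) = val (fun i => pair c (fun j => q j i)) y := by
  induction c using Finsupp.induction_linear with
  | zero => simp only [pair_zero]; exact (val_zero y).symm
  | add c d hc hd =>
    simp only [pair_add_left, hc, hd]
    exact (val_add _ _ y).symm
  | single j a =>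
    rcases zmod2_cases a with rfl | rfl
    · simp only [Finsupp.single_zero, pair_zero]; exact (val_zero y).symm
    · simp only [pair_single]

/-- the combined pattern -/
noncomputable def comb (c : List ℕ × Bool →₀ ZMod 2) (η : ZMod 2) (τ : List ℕ → Bool)
    (s : List ℕ) : Bool × ZMod 2 → ZMod 2 :=
  fun i => pair c (fun j => pat η τ j s i)

theorem comb_child (c : List ℕ × Bool →₀ ZMod 2) (η : ZMod 2) (τ : List ℕ → Bool) {s : List ℕ}
    (hs : s ≠ []) : comb c η τ s (true, 1) = c (s, true) := by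
  apply pair_eq_single
  · exact pat_pos ⟨rfl, fun h => absurd h hs⟩
  · rintro ⟨t, _ | _⟩ h1 -
    · exact pat_neg fun h => one_ne_zero h.2.2
    · exact pat_neg fun h => h1 (by rw [h.1])

theorem comb_indep {c : List ℕ × Bool →₀ ZMod 2} {η : ZMod 2} {τ : List ℕ → Bool}
    (h : ∀ s, comb c η τ s = 0) : c = 0 := by
  have h1 : ∀ s, c (s, true) = 0 := by
    intro s
    by_cases hs : s = []
    · subst hs
      rw [← pair_eq_single c (fun j => pat η τ j [] (true, η)) ([], true)]
      · exact congrFun (h []) (true, η)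
      · exact pat_pos ⟨rfl, fun _ => rfl⟩
      · rintro ⟨t, _ | _⟩ h1 -
        · exact pat_neg fun h => h.1 rfl
        · exact pat_neg fun h => h1 (by rw [h.1])
    · rw [← comb_child c η τ hs, h]; rfl
  ext ⟨t, _ | _⟩
  · rw [← pair_eq_single c (fun j => pat η τ j t (false, 0)) (t, false)]
    · exact congrFun (h t) (false, 0)
    · exact pat_pos ⟨rfl, rfl⟩
    · rintro ⟨t', _ | _⟩ h2 h3
      · exact pat_neg fun h => h2 (by rw [h.1])
      · exact absurd (h1 t') h3
  · exact h1 t

theorem eventually_block {P : List ℕ × ℕ → Prop} (h : ∀ᶠ n in cofinite, P n) (s : List ℕ) :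
    ∀ᶠ m in cofinite, P (s, m) :=
  (Function.Injective.tendsto_cofinite (f := fun m : ℕ => (s, m))
    (fun _ _ h => (Prod.mk.inj h).2)).eventually h

theorem hasBranch_of_step {τ : List ℕ → Bool} {P : List ℕ → Prop} (h0 : P [])
    (hs : ∀ t, P t → ∃ i, τ (i :: t) = true ∧ P (i :: t)) : HasBranch τ := by
  choose! f hf using hs
  let nd : ℕ → List ℕ := fun n => Nat.rec [] (fun _ t => f t :: t) n
  have h1 : ∀ n, node (fun n => f (nd n)) n = nd n := by
    intro n
    induction n with
    | zero => rfl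
    | succ n ih => simp only [node, ih]; rfl
  have h2 : ∀ n, P (nd n) := by
    intro n
    induction n with
    | zero => exact h0
    | succ n ih => exact (hf _ ih).2
  refine ⟨fun n => f (nd n), fun n => ?_⟩
  rw [h1]
  exact (hf _ (h2 n)).1

variable (μ : Measure Base) [IsProbabilityMeasure μ] [μ.IsAddHaarMeasure]
  (m : Measure Fib) [IsProbabilityMeasure m] [m.IsAddHaarMeasure]
  {α : Base} (hR : Ergodic (α + ·) μ)
  (hα : ∀ q : List ℕ × ℕ → Bool × ZMod 2 → ZMod 2, Good α (fun n => val (q n)))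

include hR hα in
theorem ergodic_tr (η : ZMod 2) (τ : List ℕ → Bool) : Ergodic (tr α η τ) (μ.prod m) := by
  refine ergodic_skew m hR (measurable_phi α η τ) fun c hc hcob => hc ?_
  obtain ⟨h1, h2⟩ := cyc_pair μ (fun j => hα (fun n => pat η τ j n.1)) c
  have h3 := nearInv_of_cob μ hR h1 (hcob.congr (h2.mono fun _ h => h.symm))
  refine comb_indep (η := η) (τ := τ) fun s => ?_
  obtain ⟨k, hk⟩ := (eventually_block h3 s).exists
  apply eq_zero_of_nearInv
  simp only [val_pair] at hk
  exact hk

include hR hα in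
theorem hasBranch_of_conj (τ : List ℕ → Bool) {Φ : Base × Fib → Base × Fib} (hΦ : Measurable Φ)
    (h : ∀ᵐ p ∂μ.prod m, Φ (tr α 0 τ p) = tr α 1 τ (Φ p)) : HasBranch τ := by
  classical
  obtain ⟨S, hS⟩ := cob_of_conj m hR (ergodic_tr μ m hR hα 0 τ) hΦ h
  have key : ∀ j, ∃ c : List ℕ × Bool →₀ ZMod 2, ∀ (s : List ℕ) (b : Bool) (e : ZMod 2),
      pat 1 τ j s = Pi.single (b, e) 1 →
      ∀ᶠ k in cofinite, comb c 0 τ s (b, 1) = side (S (s, k)) + e := by
    intro j
    obtain ⟨c, hc⟩ := hS j
    refine ⟨c, fun s b e hp => ?_⟩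
    obtain ⟨h1, h2⟩ := cyc_pair μ (fun j => hα (fun n => pat 0 τ j n.1)) c
    have h3 := (hα (fun n => pat 1 τ j n.1)).shift S
    have h4 := nearInv_of_cob μ hR (h3.add h1) (hc.congr (by
      filter_upwards [h2, cyc_add μ h3 h1] with x h5 h6
      rw [h6, h5, ← cyc_shift]
      rfl))
    filter_upwards [eventually_block h4 s] with k hk
    apply side_of_nearInv
    simp only [val_pair, hp] at hk
    exact hk
  have h11 : (1 + 1 : ZMod 2) = 0 := by decide
  refine hasBranch_of_step (P := fun t => ∀ᶠ k in cofinite, side (S (t, k)) = 1) ?_ ?_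
  · obtain ⟨c, hc⟩ := key ([], true)
    have h1 := hc [] true 1 (by
      funext ⟨b, e⟩
      cases b <;> rcases zmod2_cases e with rfl | rfl <;> simp [pat, patP])
    have h2 : comb c 0 τ [] (true, 1) = 0 := by
      by_contra hne
      obtain ⟨⟨t, _ | _⟩, -, hj⟩ := exists_of_pair_ne hne
      · exact hj (pat_neg fun h => h.1 rfl)
      · exact hj (pat_neg fun h => one_ne_zero (h.2 h.1.symm))
    filter_upwards [h1] with k hk
    rw [h2] at hk
    rcases zmod2_cases (side (S ([], k))) with h3 | h3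
    · rw [h3] at hk; simp at hk
    · exact h3
  · intro t ht
    obtain ⟨c, hc⟩ := key (t, false)
    have htail : t ≠ [] → t.tail ≠ t := by
      intro h1 h2
      have := congrArg List.length h2
      have h3 := List.length_pos_iff.2 h1
      simp at this
      omega
    have h1 := hc t false 0 (by
      funext ⟨b, e⟩
      cases b <;> rcases zmod2_cases e with rfl | rfl <;> simp [pat, patP]
      exact htail)
    obtain ⟨k, hk1, hk2⟩ := (h1.and ht).exists
    rw [hk2, add_zero] at hk1
    obtain ⟨⟨s, _ | _⟩, hj1, hj2⟩ := exists_of_pair_ne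
      (show comb c 0 τ t (false, 1) ≠ 0 by rw [hk1]; exact one_ne_zero)
    · exact (hj2 (pat_neg fun h => one_ne_zero h.2)).elim
    · have hp : patP 0 τ (s, true) t (false, 1) := by
        by_contra hcon
        exact hj2 (pat_neg hcon)
      obtain ⟨hs, rfl, hτ⟩ := hp
      obtain ⟨i, t, rfl⟩ := List.exists_cons_of_ne_nil hs
      refine ⟨i, hτ, ?_⟩
      have h2 := hc (i :: t) true 0 (by
        funext ⟨b, e⟩
        cases b <;> rcases zmod2_cases e with rfl | rfl <;> simp [pat, patP])
      filter_upwards [h2] with k hk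
      rw [comb_child c 0 τ hs, add_zero] at hk
      simp only [List.tail_cons]
      rw [← hk]
      exact (zmod2_cases _).resolve_left hj1

open Classical in
/-- indicator of a branch -/
noncomputable def onBr (b : ℕ → ℕ) (s : List ℕ) : ZMod 2 := if s = node b s.length then 1 else 0

/-- the fibre automorphism attached to a branch -/
noncomputable def fibAut (b : ℕ → ℕ) : Fib →+ Fib where
  toFun k j := if j.2 then k j else k j + onBr b j.1 * k (b j.1.length :: j.1, true)
  map_zero' := by funext j; simp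
  map_add' k l := by
    funext j
    simp only [Pi.add_apply]
    split_ifs <;> ring

theorem fibAut_fibAut (b : ℕ → ℕ) (k : Fib) : fibAut b (fibAut b k) = k := by
  funext ⟨t, e⟩
  cases e
  · simp [fibAut, add_assoc, CharTwo.add_self_eq_zero]
  · simp [fibAut]

theorem continuous_fibAut (b : ℕ → ℕ) : Continuous (fibAut b) := by
  refine continuous_pi fun ⟨t, e⟩ => ?_
  cases e
  · simp only [fibAut, AddMonoidHom.coe_mk, ZeroHom.coe_mk, Bool.false_eq_true, if_false]
    fun_prop
  · simp only [fibAut, AddMonoidHom.coe_mk, ZeroHom.coe_mk, if_true]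
    fun_prop

theorem onBr_cons (b : ℕ → ℕ) (i : ℕ) (t : List ℕ) :
    onBr b (i :: t) = if i = b t.length then onBr b t else 0 := by
  simp only [onBr, List.length_cons, node, List.cons.injEq]
  by_cases h1 : i = b t.length <;> by_cases h2 : t = node b t.length
  · rw [if_pos ⟨h1, h2⟩, if_pos h1, if_pos h2]
  · rw [if_neg (fun h => h2 h.2), if_pos h1, if_neg h2]
  · rw [if_neg (fun h => h1 h.1), if_neg h1]
  · rw [if_neg (fun h => h1 h.1), if_neg h1]

theorem pat_shift_true (b : ℕ → ℕ) (τ : List ℕ → Bool) (s s' : List ℕ) (i : Bool × ZMod 2) :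
    pat 1 τ (s, true) s' (i.1, i.2 + onBr b s') = pat 0 τ (s, true) s' i := by
  obtain ⟨_ | _, e⟩ := i
  · exact pat_congr Iff.rfl
  · refine pat_congr (and_congr_right fun h => imp_congr_right fun h' => ?_)
    have : onBr b s' = 1 := by rw [h, h']; simp [onBr, node]
    simp [this]

theorem pat_shift_false (b : ℕ → ℕ) {τ : List ℕ → Bool} (hb : ∀ n, τ (node b (n + 1)) = true)
    (t s' : List ℕ) (i : Bool × ZMod 2) :
    pat 1 τ (t, false) s' (i.1, i.2 + onBr b s') =
      pat 0 τ (t, false) s' i + onBr b t * pat 0 τ (b t.length :: t, true) s' i := by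
  have h11 : (1 + 1 : ZMod 2) = 0 := by decide
  obtain ⟨_ | _, e⟩ := i
  · by_cases h : s' = t
    · subst h
      by_cases h2 : s' = node b s'.length
      · have h3 : τ (b s'.length :: s') = true := by
          have := hb s'.length
          rwa [node, ← h2] at this
        have h4 : onBr b s' = 1 := if_pos h2
        rcases zmod2_cases e with rfl | rfl <;> simp [pat, patP, h3, h4, h11]
      · have h4 : onBr b s' = 0 := if_neg h2
        simp [pat, patP, h4]
    · simp [pat, patP, h]
  · rcases s' with _ | ⟨i, t'⟩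
    · simp [pat, patP]
    · by_cases h : t' = t
      · subst h
        rw [onBr_cons]
        by_cases h2 : i = b t'.length
        · rcases zmod2_cases e with rfl | rfl <;> rcases zmod2_cases (onBr b t') with h4 | h4 <;>
            simp [pat, patP, h2, h4, h11]
        · simp [pat, patP, h2]
      · simp [pat, patP, h]

include hα in
theorem conj_of_hasBranch {τ : List ℕ → Bool} (h : HasBranch τ) :
    ∃ Φ : Base × Fib → Base × Fib, MeasurePreserving Φ (μ.prod m) (μ.prod m) ∧
      (∀ p, Φ (Φ p) = p) ∧ ∀ᵐ p ∂μ.prod m, Φ (tr α 0 τ p) = tr α 1 τ (Φ p) := by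
  obtain ⟨b, hb⟩ := h
  let S : Base := fun n => half (onBr b n.1)
  have hv : MeasurePreserving (fibAut b) m m :=
    (fibAut b).measurePreserving (continuous_fibAut b)
      (fun k => ⟨fibAut b k, fibAut_fibAut b k⟩) rfl
  refine ⟨Prod.map (· + S) (fibAut b), (measurePreserving_add_right μ S).prod hv, ?_, ?_⟩
  · rintro ⟨x, k⟩
    have : S + S = 0 := funext fun n => half_add_self _
    simp [fibAut_fibAut, add_assoc, this]
  · have key : ∀ j, ∀ᵐ x ∂μ, phi α 1 τ (x + S) j = fibAut b (phi α 0 τ x) j := by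
      rintro ⟨t, _ | _⟩
      · rcases zmod2_cases (onBr b t) with h0 | h0
        · refine Eventually.of_forall fun x => ?_
          simp only [phi, cyc_shift, S, val_add_half, pat_shift_false b hb, h0, fibAut, zero_mul,
            add_zero, AddMonoidHom.coe_mk, ZeroHom.coe_mk, Bool.false_eq_true, if_false]
        · filter_upwards [cyc_add μ (hα (fun n => pat 0 τ (t, false) n.1))
            (hα (fun n => pat 0 τ (b t.length :: t, true) n.1))] with x hx
          simp only [phi, cyc_shift, S, val_add_half, pat_shift_false b hb, h0, fibAut, one_mul,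
            AddMonoidHom.coe_mk, ZeroHom.coe_mk, Bool.false_eq_true, if_false, ← hx, ← val_add]
          rfl
      · refine Eventually.of_forall fun x => ?_
        simp only [phi, cyc_shift, S, val_add_half, pat_shift_true, fibAut,
          AddMonoidHom.coe_mk, ZeroHom.coe_mk, if_true]
    have key2 : ∀ᵐ x ∂μ, phi α 1 τ (x + S) = fibAut b (phi α 0 τ x) :=
      (ae_all_iff.2 key).mono fun _ h => funext h
    filter_upwards [(measurePreserving_fst (μ := μ) (ν := m)).quasiMeasurePreserving.ae key2]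
      with p hp
    simp only [tr, skew, Prod.map_apply, Prod.map_fst, Prod.map_snd, map_add, hp, add_assoc]

theorem measurePreserving_tr (α : Base) (η : ZMod 2) (τ : List ℕ → Bool) :
    MeasurePreserving (tr α η τ) (μ.prod m) (μ.prod m) :=
  measurePreserving_skew m (measurePreserving_add_left μ α) (measurable_phi α η τ)

theorem tr_continuous (α : Base) (η : ZMod 2) (τ₀ : List ℕ → Bool) {A : Set (Base × Fib)}
    (hA : MeasurableSet A) {ε : ℝ≥0∞} (hε : 0 < ε) :
    ∀ᶠ τ in 𝓝 τ₀, (μ.prod m) ((tr α η τ ⁻¹' A) ∆ (tr α η τ₀ ⁻¹' A)) < ε := by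
  classical
  let R : Set (Set (Base × Fib)) := {C | MeasurableSet C ∧ ∃ s : Finset (List ℕ × Bool),
    ∀ p q : Base × Fib, p.1 = q.1 → (∀ j ∈ s, p.2 j = q.2 j) → (p ∈ C ↔ q ∈ C)}
  have hR : IsSetRing R := by
    refine ⟨⟨MeasurableSet.empty, ∅, by simp⟩, ?_, ?_⟩
    · rintro C D ⟨hC, s, hs⟩ ⟨hD, t, ht⟩
      refine ⟨hC.union hD, s ∪ t, fun p q h1 h2 => ?_⟩
      rw [mem_union, mem_union, hs p q h1 (fun j hj => h2 j (Finset.mem_union_left _ hj)),
        ht p q h1 (fun j hj => h2 j (Finset.mem_union_right _ hj))]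
    · rintro C D ⟨hC, s, hs⟩ ⟨hD, t, ht⟩
      refine ⟨hC.diff hD, s ∪ t, fun p q h1 h2 => ?_⟩
      rw [Set.mem_sdiff, Set.mem_sdiff, hs p q h1 (fun j hj => h2 j (Finset.mem_union_left _ hj)),
        ht p q h1 (fun j hj => h2 j (Finset.mem_union_right _ hj))]
  have hgen : (inferInstance : MeasurableSpace (Base × Fib)) = MeasurableSpace.generateFrom R := by
    refine le_antisymm ?_ (MeasurableSpace.generateFrom_le fun C hC => hC.1)
    have h1 : Measurable[MeasurableSpace.generateFrom R] (Prod.fst : Base × Fib → Base) := by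
      intro B hB
      refine MeasurableSpace.measurableSet_generateFrom ⟨measurable_fst hB, ∅, ?_⟩
      intro p q h _
      simp [h]
    have h2 : Measurable[MeasurableSpace.generateFrom R] (Prod.snd : Base × Fib → Fib) := by
      refine @measurable_pi_lambda _ _ _ (MeasurableSpace.generateFrom R) _ _ fun j B hB => ?_
      refine MeasurableSpace.measurableSet_generateFrom
        ⟨((measurable_pi_apply j).comp measurable_snd) hB, {j}, ?_⟩
      intro p q _ h
      simp [h j]
    exact fun B hB => (h1.prodMk h2) hB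
  obtain ⟨C, ⟨hC, s, hs⟩, hCA⟩ := exists_measure_symmDiff_lt_of_generateFrom_isSetRing
    (μ := μ.prod m) hR
    ⟨{univ}, countable_singleton _, singleton_subset_iff.2 ⟨MeasurableSet.univ, ∅, by simp⟩,
      by simp⟩ hgen hA (ENNReal.half_pos hε.ne')
  have h1 : ∀ t, ∀ᶠ τ in 𝓝 τ₀, τ t = τ₀ t := by
    intro t
    have : ContinuousAt (fun τ : List ℕ → Bool => τ t) τ₀ := (continuous_apply t).continuousAt
    exact this.eventually (p := fun x => x = τ₀ t) ((isOpen_discrete {τ₀ t}).mem_nhds rfl)
  filter_upwards [(Filter.eventually_all_finset s).2 fun j _ => h1 j.1] with τ hτ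
  have h2 : tr α η τ ⁻¹' C = tr α η τ₀ ⁻¹' C := by
    ext p
    refine hs _ _ rfl fun j hj => ?_
    have : pat η τ j = pat η τ₀ j := by
      funext s' i
      have h3 := hτ j hj
      obtain ⟨t, _ | _⟩ := j <;> obtain ⟨_ | _, e⟩ := i
      · exact pat_congr Iff.rfl
      · exact pat_congr Iff.rfl
      · exact pat_congr (by simp only [patP]; rw [h3])
      · exact pat_congr Iff.rfl
    simp only [tr, skew, Pi.add_apply, phi, this]
  have h3 : ∀ τ, (μ.prod m) ((tr α η τ ⁻¹' C) ∆ (tr α η τ ⁻¹' A)) < ε / 2 := by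
    intro τ
    rw [← preimage_symmDiff, (measurePreserving_tr μ m α η τ).measure_preimage
      (hC.symmDiff hA).nullMeasurableSet]
    exact hCA
  calc (μ.prod m) ((tr α η τ ⁻¹' A) ∆ (tr α η τ₀ ⁻¹' A))
      ≤ (μ.prod m) ((tr α η τ ⁻¹' A) ∆ (tr α η τ ⁻¹' C)) +
          (μ.prod m) ((tr α η τ ⁻¹' C) ∆ (tr α η τ₀ ⁻¹' A)) := measure_symmDiff_le _ _ _
    _ < ε / 2 + ε / 2 := by
        refine ENNReal.add_lt_add ?_ ?_
        · rw [symmDiff_comm]; exact h3 τ
        · rw [h2]; exact h3 τ₀
    _ = ε := ENNReal.add_halves ε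

end Pool.Agent.Lib.MP_78c86a_lc
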