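import Mathlib
import Pool.Agent.Lib.MP_78c86a_lc.Defs
import Pool.Agent.Lib.MP_78c86a_lc.System
import Pool.Agent.Lib.MP_78c86a_lc.Iso

set_option autoImplicit false

namespace Pool.Agent.Lib.MP_78c86a_lc

open MeasureTheory Set Filter Topology Metric
open scoped NNReal ENNReal symmDiff unitInterval

theorem MPT.mp (T : MPT) : MeasurePreserving T.toFun lam lam := T.2.1
theorem MPT.mp_inv (T : MPT) : MeasurePreserving T.inv lam lam := T.2.2.choose_spec.1
theorem MPT.inv_comp (T : MPT) : T.inv ∘ T.toFun =ᵐ[lam] id := T.2.2.choose_spec.2.1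
theorem MPT.comp_inv (T : MPT) : T.toFun ∘ T.inv =ᵐ[lam] id := T.2.2.choose_spec.2.2

theorem conj_iff (S T : EMPT) :
    Conj S T ↔ ∃ φ : MPT, S.1.toFun ∘ φ.toFun =ᵐ[lam] φ.toFun ∘ T.1.toFun := by
  refine exists_congr fun φ => ⟨fun h => ?_, fun h => ?_⟩
  · filter_upwards [φ.mp.quasiMeasurePreserving.ae h, φ.inv_comp] with x h1 h2
    simp only [Function.comp_apply, id_eq] at h1 h2 ⊢
    rw [h1, h2]
  · filter_upwards [φ.mp_inv.quasiMeasurePreserving.ae h, φ.comp_inv] with x h1 h2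
    simp only [Function.comp_apply, id_eq] at h1 h2 ⊢
    rw [← h1, h2]

theorem edist_image (S T : MPT) (A : MeasuredSets lam) :
    edist (S.image A) (T.image A) =
      lam ((S.toFun ⁻¹' (T.inv ⁻¹' A.1)) ∆ (T.toFun ⁻¹' (T.inv ⁻¹' A.1))) := by
  have hS : MeasurableSet (S.inv ⁻¹' A.1) := S.mp_inv.measurable A.2
  have hT : MeasurableSet (T.inv ⁻¹' A.1) := T.mp_inv.measurable A.2
  change lam ((S.inv ⁻¹' A.1) ∆ (T.inv ⁻¹' A.1)) = _
  rw [← S.mp.measure_preimage (hS.symmDiff hT).nullMeasurableSet]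
  apply measure_congr
  filter_upwards [S.inv_comp, T.inv_comp] with x h1 h2
  simp only [Function.comp_apply, id_eq] at h1 h2
  apply propext
  change x ∈ S.toFun ⁻¹' ((S.inv ⁻¹' A.1) ∆ (T.inv ⁻¹' A.1)) ↔
    x ∈ (S.toFun ⁻¹' (T.inv ⁻¹' A.1)) ∆ (T.toFun ⁻¹' (T.inv ⁻¹' A.1))
  simp only [mem_preimage, mem_symmDiff, h1, h2]
  tauto

theorem EqMod.refl (𝒜 : MeasurableSpace I) : EqMod 𝒜 𝒜 :=
  ⟨fun A hA => ⟨A, hA, EventuallyEq.rfl⟩, fun A hA => ⟨A, hA, EventuallyEq.rfl⟩⟩

theorem preimage_congr_ae {Z : Type} {f g : I → Z} (h : f =ᵐ[lam] g) (B : Set Z) :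
    f ⁻¹' B =ᵐ[lam] g ⁻¹' B := by
  filter_upwards [h] with x hx
  apply propext
  change f x ∈ B ↔ g x ∈ B
  rw [hx]

/-- the trivial factor -/
def botFactor (T : I → I) : Factor T :=
  ⟨⊥, bot_le, by rw [MeasurableSpace.comap_bot]; exact EqMod.refl _⟩

theorem borel_eq : borel I = (inferInstance : MeasurableSpace I) :=
  BorelSpace.measurable_eq.symm

/-- the full factor -/
def topFactor (T : MPT) : Factor T.toFun :=
  ⟨borel I, le_rfl, by
    rw [borel_eq]
    constructor
    · rintro A ⟨B, hB, rfl⟩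
      exact ⟨_, T.mp.measurable hB, EventuallyEq.rfl⟩
    · intro A hA
      exact ⟨_, ⟨T.inv ⁻¹' A, T.mp_inv.measurable hA, rfl⟩,
        (preimage_congr_ae T.inv_comp A).symm⟩⟩

/-- the factor given by a factor map onto an invertible system -/
def mapFactor (T : I → I) {Z : Type} [MeasurableSpace Z] {g : I → Z} (hg : Measurable g)
    {R R' : Z → Z} (hR : Measurable R) (hR' : Measurable R') (hRR : ∀ z, R' (R z) = z)
    (h : g ∘ T =ᵐ[lam] R ∘ g) : Factor T :=
  ⟨MeasurableSpace.comap g inferInstance, by rw [borel_eq]; exact hg.comap_le, by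
    constructor
    · rintro A ⟨_, ⟨B, hB, rfl⟩, rfl⟩
      exact ⟨_, ⟨R ⁻¹' B, hR hB, rfl⟩, preimage_congr_ae h B⟩
    · rintro A ⟨B, hB, rfl⟩
      refine ⟨_, ⟨_, ⟨R' ⁻¹' B, hR' hB, rfl⟩, rfl⟩, ?_⟩
      refine EventuallyEq.trans (EventuallyEq.of_eq ?_) (preimage_congr_ae h (R' ⁻¹' B)).symm
      ext x
      change g x ∈ B ↔ R' (R (g x)) ∈ B
      rw [hRR]⟩

theorem isIsometricExt_of_group {T : I → I} (𝒜 ℬ : Factor T)
    {Y : Type} [MeasurableSpace Y] [StandardBorelSpace Y] (ν : Measure Y)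
    [IsProbabilityMeasure ν] {R : Y → Y} (hR : MeasurePreserving R ν ν)
    {M : Type} [AddCommGroup M] [MetricSpace M] [CompactSpace M] [IsIsometricVAdd M M]
    [MeasurableSpace M] [BorelSpace M] [MeasurableAdd₂ M]
    (m : Measure M) [IsProbabilityMeasure m] [m.IsAddLeftInvariant] {ρ : Y → M}
    (hρ : Measurable ρ) {π : I → Y × M} (hπ : MeasurePreserving π lam (ν.prod m))
    (h : ∀ᵐ x ∂lam, π (T x) = (R (π x).1, ρ (π x).1 + (π x).2))
    (hB : EqMod ℬ.alg (MeasurableSpace.comap π inferInstance))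
    (hA : EqMod 𝒜.alg (MeasurableSpace.comap (fun x => (π x).1) inferInstance)) :
    IsIsometricExt 𝒜 ℬ := by
  let H : Subgroup (M ≃ᵢ M) :=
    { carrier := {g | ∃ a, ∀ u, g u = a + u}
      one_mem' := ⟨0, by simp⟩
      mul_mem' := by
        rintro g g' ⟨a, ha⟩ ⟨b, hb⟩
        exact ⟨a + b, fun u => by simp [ha, hb, add_assoc]⟩
      inv_mem' := by
        rintro g ⟨a, ha⟩
        refine ⟨-a, fun u => g.injective ?_⟩
        rw [ha (-a + u)]
        simp }
  refine ⟨Y, inferInstance, inferInstance, ν, inferInstance, R, M, inferInstance, inferInstance,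
    inferInstance, inferInstance, m, inferInstance, H,
    fun y => ⟨IsometryEquiv.addLeft (ρ y), ρ y, fun _ => rfl⟩, π, hR, ?_, ?_, ?_, hπ, h, hB, hA⟩
  · intro u v
    exact ⟨⟨IsometryEquiv.addLeft (v - u), v - u, fun _ => rfl⟩, by simp⟩
  · rintro ⟨g, a, ha⟩
    have : (g : M → M) = (a + ·) := funext ha
    simp only [this]
    exact measurePreserving_add_left m a
  · exact (hρ.comp measurable_fst).add measurable_snd

section Lift

variable {X : Type} [MeasurableSpace X] {μ : Measure X} {θ : I → X} {θ' : X → I}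
  (hθ : MeasurePreserving θ lam μ) (hθ' : MeasurePreserving θ' μ lam)
  (h1 : θ' ∘ θ =ᵐ[lam] id) (h2 : θ ∘ θ' =ᵐ[μ] id)

include hθ hθ' h1 h2 in
theorem exists_lift {S S' : X → X} (hS : MeasurePreserving S μ μ) (hS' : MeasurePreserving S' μ μ)
    (e1 : ∀ z, S' (S z) = z) (e2 : ∀ z, S (S' z) = z) :
    ∃ T : MPT, T.toFun =ᵐ[lam] θ' ∘ S ∘ θ := by
  have hf := hθ'.comp (hS.comp hθ)
  have hf' := hθ'.comp (hS'.comp hθ)
  have he := AEEqFun.coeFn_mk (μ := lam) (θ' ∘ S ∘ θ) hf.measurable.aestronglyMeasurable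
  have hmp : MeasurePreserving (AEEqFun.mk (μ := lam) (θ' ∘ S ∘ θ)
      hf.measurable.aestronglyMeasurable) lam lam :=
    hf.congr (AEEqFun.measurable _) he.symm
  refine ⟨⟨AEEqFun.mk (θ' ∘ S ∘ θ) hf.measurable.aestronglyMeasurable, hmp,
    θ' ∘ S' ∘ θ, hf', ?_, ?_⟩, he⟩
  · filter_upwards [he, (hS.comp hθ).quasiMeasurePreserving.ae h2, h1] with x a b c
    simp only [Function.comp_apply, id_eq] at a b c ⊢
    rw [a, b, e1, c]
  · filter_upwards [hf'.quasiMeasurePreserving.ae he, (hS'.comp hθ).quasiMeasurePreserving.ae h2,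
      h1] with x a b c
    simp only [Function.comp_apply, id_eq] at a b c ⊢
    rw [a, b, e2, c]

include hθ h2 in
theorem lift_left {S : X → X} (hS : MeasurePreserving S μ μ) {f : I → I}
    (hf : f =ᵐ[lam] θ' ∘ S ∘ θ) : θ ∘ f =ᵐ[lam] S ∘ θ := by
  filter_upwards [hf, (hS.comp hθ).quasiMeasurePreserving.ae h2] with x a b
  simp only [Function.comp_apply, id_eq] at a b ⊢
  rw [a, b]

include hθ' h2 in
theorem lift_right {S : X → X} {f : I → I}
    (hf : f =ᵐ[lam] θ' ∘ S ∘ θ) : f ∘ θ' =ᵐ[μ] θ' ∘ S := by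
  filter_upwards [hθ'.quasiMeasurePreserving.ae hf, h2] with x a b
  simp only [Function.comp_apply, id_eq] at a b ⊢
  rw [a, b]

include hθ hθ' h1 h2 in
theorem ergodic_lift {S : X → X} (hS : Ergodic S μ) {T : MPT}
    (hf : T.toFun =ᵐ[lam] θ' ∘ S ∘ θ) : Ergodic T.toFun lam := by
  refine ⟨T.mp, ⟨fun A hA hinv => ?_⟩⟩
  have h3 : S ⁻¹' (θ' ⁻¹' A) =ᵐ[μ] θ' ⁻¹' A := by
    filter_upwards [lift_right hθ' h2 hf] with z hz
    apply propext
    change θ' (S z) ∈ A ↔ θ' z ∈ A
    simp only [Function.comp_apply] at hz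
    rw [← hz, ← mem_preimage, hinv]
  rw [eventuallyConst_set]
  rcases hS.quasiErgodic.ae_mem_or_ae_notMem₀ (hθ'.measurable hA).nullMeasurableSet h3 with h | h
  · left
    filter_upwards [hθ.quasiMeasurePreserving.ae h, h1] with x a b
    simp only [Function.comp_apply, id_eq, mem_preimage] at a b
    rwa [b] at a
  · right
    filter_upwards [hθ.quasiMeasurePreserving.ae h, h1] with x a b
    simp only [Function.comp_apply, id_eq, mem_preimage] at a b
    rwa [b] at a

include hθ in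
theorem measure_lift {S S' : X → X} (hS : Measurable S) (hS' : Measurable S')
    (hθ' : Measurable θ') {f f' : I → I}
    (hf : f =ᵐ[lam] θ' ∘ S ∘ θ) (hf' : f' =ᵐ[lam] θ' ∘ S' ∘ θ) {B : Set I}
    (hB : MeasurableSet B) :
    lam ((f ⁻¹' B) ∆ (f' ⁻¹' B)) = μ ((S ⁻¹' (θ' ⁻¹' B)) ∆ (S' ⁻¹' (θ' ⁻¹' B))) := by
  rw [← hθ.measure_preimage ((hS (hθ' hB)).symmDiff (hS' (hθ' hB))).nullMeasurableSet]
  apply measure_congr
  filter_upwards [hf, hf'] with x a b
  apply propext
  change x ∈ (f ⁻¹' B) ∆ (f' ⁻¹' B) ↔ θ x ∈ (S ⁻¹' (θ' ⁻¹' B)) ∆ (S' ⁻¹' (θ' ⁻¹' B))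
  simp only [mem_preimage, mem_symmDiff, a, b, Function.comp_apply]

end Lift

theorem sgn_injective : Function.Injective sgn := by
  intro a b h
  rcases zmod2_cases a with rfl | rfl <;> rcases zmod2_cases b with rfl | rfl
  · rfl
  · norm_num at h
  · norm_num at h
  · rfl

/-- an invariant metric on `ZMod 2` -/
noncomputable abbrev zmetric : MetricSpace (ZMod 2) :=
  (MetricSpace.induced sgn sgn_injective inferInstance).replaceTopology (by
    symm
    have := @Finite.instDiscreteTopology (ZMod 2)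
      (MetricSpace.induced sgn sgn_injective
        inferInstance).toPseudoMetricSpace.toUniformSpace.toTopologicalSpace inferInstance
      inferInstance
    exact this.eq_bot)

theorem tower_tr (μ : Measure Base) [IsProbabilityMeasure μ] [μ.IsAddHaarMeasure]
    (m : Measure Fib) [IsProbabilityMeasure m] [m.IsAddHaarMeasure]
    {θ : I → Base × Fib} {θ' : Base × Fib → I}
    (hθ : MeasurePreserving θ lam (μ.prod m)) (hθ' : MeasurePreserving θ' (μ.prod m) lam)
    (h1 : θ' ∘ θ =ᵐ[lam] id) (h2 : θ ∘ θ' =ᵐ[μ.prod m] id)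
    (α : Base) (η : ZMod 2) (τ : List ℕ → Bool) {T : MPT}
    (hf : T.toFun =ᵐ[lam] θ' ∘ tr α η τ ∘ θ) : HasDistalTower T.toFun 2 := by
  classical
  have h3 := lift_left hθ h2 (measurePreserving_tr μ m α η τ) hf
  have h4 : (fun x => (θ x).1) ∘ T.toFun =ᵐ[lam] (α + ·) ∘ (fun x => (θ x).1) := by
    filter_upwards [h3] with x hx
    simp only [Function.comp_apply] at hx ⊢
    rw [hx]; rfl
  let F1 : Factor T.toFun := mapFactor T.toFun hθ.measurable.fst (measurable_const_add α)
    (measurable_const_add (-α)) (fun z => by simp) h4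
  have e01 : IsIsometricExt (botFactor T.toFun) F1 := by
    let _ : MetricSpace Base := PiCountable.metricSpace
    have : IsIsometricVAdd Base Base := ⟨fun a x y => by
      rw [PiCountable.edist_eq_tsum, PiCountable.edist_eq_tsum]
      simp⟩
    have hb : BorelSpace Base := Pi.borelSpace
    refine isIsometricExt_of_group _ _ (Measure.dirac ()) (R := id) (MeasurePreserving.id _) μ
      (ρ := fun _ => α) measurable_const (π := fun x => ((), (θ x).1)) ?_ ?_ ?_ ?_
    · have h5 : MeasurePreserving (fun x : Base => ((), x)) μ ((Measure.dirac ()).prod μ) :=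
        ⟨measurable_prodMk_left, (Measure.dirac_prod ()).symm⟩
      exact h5.comp (measurePreserving_fst.comp hθ)
    · filter_upwards [h4] with x hx
      simp only [Function.comp_apply] at hx
      rw [hx]
    · constructor
      · rintro A ⟨B, hB, rfl⟩
        exact ⟨_, ⟨Prod.snd ⁻¹' B, measurable_snd hB, rfl⟩, EventuallyEq.rfl⟩
      · rintro A ⟨B, hB, rfl⟩
        exact ⟨_, ⟨Prod.mk () ⁻¹' B, measurable_prodMk_left hB, rfl⟩, EventuallyEq.rfl⟩
    · rw [MeasurableSpace.comap_const]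
      exact EqMod.refl _
  have e12 : IsIsometricExt F1 (topFactor T) := by
    let _ : MetricSpace (ZMod 2) := zmetric
    let _ : MetricSpace Fib := PiCountable.metricSpace
    have : IsIsometricVAdd Fib Fib := ⟨fun a x y => by
      rw [PiCountable.edist_eq_tsum, PiCountable.edist_eq_tsum]
      refine tsum_congr fun j => ?_
      congr 1
      rw [edist_dist, edist_dist]
      congr 1
      change dist (sgn (a j + x j)) (sgn (a j + y j)) = dist (sgn (x j)) (sgn (y j))
      rw [Real.dist_eq, Real.dist_eq, sgn_add, sgn_add, ← mul_sub, abs_mul, abs_sgn, one_mul]⟩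
    have hb : BorelSpace Fib := Pi.borelSpace
    refine isIsometricExt_of_group _ _ μ (measurePreserving_add_left μ α) m
      (measurable_phi α η τ) hθ h3 ?_ (EqMod.refl _)
    change EqMod (borel I) _
    rw [borel_eq]
    constructor
    · intro A hA
      exact ⟨_, ⟨θ' ⁻¹' A, hθ'.measurable hA, rfl⟩, (preimage_congr_ae h1 A).symm⟩
    · rintro A ⟨B, hB, rfl⟩
      exact ⟨_, hθ.measurable hB, EventuallyEq.rfl⟩
  let X : Ordinal.{0} → Factor T.toFun :=
    fun a => if a = 0 then botFactor _ else if a = 1 then F1 else topFactor T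
  have X0 : X 0 = botFactor _ := if_pos rfl
  have X1 : X 1 = F1 := by simp [X]
  have X2 : X 2 = topFactor T := by
    have a1 : (2 : Ordinal.{0}) ≠ 0 := two_ne_zero
    have a2 : (2 : Ordinal.{0}) ≠ 1 := one_lt_two.ne'
    simp [X, a1, a2]
  refine ⟨X, by rw [X0]; exact EqMod.refl _, by rw [X2]; exact EqMod.refl _, ?_, ?_⟩
  · intro a ha
    rw [← one_add_one_eq_two, Order.lt_add_one_iff, Order.le_one_iff] at ha
    rcases ha with rfl | rfl
    · rw [zero_add, X0, X1]; exact e01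
    · rw [one_add_one_eq_two, X1, X2]; exact e12
  · intro a ha hl
    exfalso
    have h5 : (Ordinal.omega0 : Ordinal.{0}) ≤ a := Ordinal.omega0_le_of_isSuccLimit hl
    have h6 : ((2 : ℕ) : Ordinal.{0}) < Ordinal.omega0 := Ordinal.natCast_lt_omega0 2
    exact absurd (h5.trans ha) (not_le.2 (by simpa using h6))

/-- The reduction: a continuous map from trees to pairs of distal transformations of height two
which are conjugate exactly when the tree is ill-founded. -/
theorem exists_reduction : ∃ F : (List ℕ → Bool) → EMPT × EMPT, Continuous F ∧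
    ∀ τ, HasDistalTower (F τ).1.1.toFun 2 ∧ HasDistalTower (F τ).2.1.toFun 2 ∧
      (Conj (F τ).1 (F τ).2 ↔ HasBranch τ) := by
  let μ : Measure Base := Measure.addHaarMeasure ⊤
  let m : Measure Fib := Measure.addHaarMeasure ⊤
  have hμ : IsProbabilityMeasure μ := ⟨by
    simpa using Measure.addHaarMeasure_self (K₀ := (⊤ : TopologicalSpace.PositiveCompacts Base))⟩
  have hm : IsProbabilityMeasure m := ⟨by
    simpa using Measure.addHaarMeasure_self (K₀ := (⊤ : TopologicalSpace.PositiveCompacts Fib))⟩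
  have hnull : NullSingletonClass (μ.prod m) := ⟨fun p => by
    have h1 := ((measurePreserving_eval μ ([], 0)).comp
      (measurePreserving_fst (μ := μ) (ν := m))).measure_preimage
      (s := closedBall (p.1 ([], 0)) 0) measurableSet_closedBall.nullMeasurableSet
    rw [AddCircle.volume_closedBall] at h1
    refine measure_mono_null ?_ (h1.trans (by simp))
    rintro _ rfl
    simp⟩
  obtain ⟨θ, θ', hθ, hθ', h1, h2⟩ := exists_iso (μ.prod m)
  obtain ⟨α, hd, hα⟩ := exists_good_generator (Λ := List ℕ × ℕ)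
  have hR : Ergodic (α + ·) μ := ergodic_add_left_of_denseRange_zsmul hd μ
  have hex : ∀ η τ, ∃ T : MPT, T.toFun =ᵐ[lam] θ' ∘ tr α η τ ∘ θ := by
    intro η τ
    refine exists_lift hθ hθ' h1 h2 (measurePreserving_tr μ m α η τ)
      (measurePreserving_skew m (measurePreserving_add_left μ (-α))
        (φ := fun y => -phi α η τ (-α + y))
        ((measurable_phi α η τ).comp (measurable_const_add _)).neg) ?_ ?_
    · intro z; simp [tr, skew]
    · intro z; simp [tr, skew]
  choose T hT using hex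
  let E : ZMod 2 → (List ℕ → Bool) → EMPT := fun η τ =>
    ⟨T η τ, ergodic_lift hθ hθ' h1 h2 (ergodic_tr μ m hR hα η τ) (hT η τ)⟩
  have hE : ∀ η, Continuous (E η) := by
    intro η
    refine Continuous.subtype_mk ?_ _
    refine continuous_iInf_rng.2 fun A => continuous_induced_rng.2 ?_
    rw [continuous_iff_continuousAt]
    intro τ₀
    rw [ContinuousAt, EMetric.tendsto_nhds]
    intro ε hε
    have hB : MeasurableSet ((T η τ₀).inv ⁻¹' A.1) := (T η τ₀).mp_inv.measurable A.2
    filter_upwards [tr_continuous μ m α η τ₀ (hθ'.measurable hB) hε] with τ hτ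
    simp only [Function.comp_apply]
    rw [edist_image, measure_lift hθ (measurePreserving_tr μ m α η τ).measurable
      (measurePreserving_tr μ m α η τ₀).measurable hθ'.measurable (hT η τ) (hT η τ₀) hB]
    exact hτ
  refine ⟨fun τ => (E 1 τ, E 0 τ), (hE 1).prodMk (hE 0), fun τ =>
    ⟨tower_tr μ m hθ hθ' h1 h2 α 1 τ (hT 1 τ), tower_tr μ m hθ hθ' h1 h2 α 0 τ (hT 0 τ), ?_⟩⟩
  rw [conj_iff]
  constructor
  · rintro ⟨φ, hφ⟩
    refine hasBranch_of_conj μ m hR hα τ (Φ := θ ∘ φ.toFun ∘ θ')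
      (hθ.comp (φ.mp.comp hθ')).measurable ?_
    filter_upwards [lift_right hθ' h2 (hT 0 τ), hθ'.quasiMeasurePreserving.ae hφ,
      (φ.mp.comp hθ').quasiMeasurePreserving.ae
        (lift_left hθ h2 (measurePreserving_tr μ m α 1 τ) (hT 1 τ))] with z a b c
    simp only [Function.comp_apply, E] at a b c ⊢
    rw [← a, ← b, c]
  · intro h
    obtain ⟨Φ, hΦ, hinv, hc⟩ := conj_of_hasBranch μ m hα h
    obtain ⟨φ, hφ⟩ := exists_lift hθ hθ' h1 h2 hΦ hΦ hinv hinv
    refine ⟨φ, ?_⟩
    filter_upwards [hφ, (T 0 τ).mp.quasiMeasurePreserving.ae hφ,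
      lift_left hθ h2 (measurePreserving_tr μ m α 0 τ) (hT 0 τ),
      (hΦ.comp hθ).quasiMeasurePreserving.ae (lift_right hθ' h2 (hT 1 τ)),
      hθ.quasiMeasurePreserving.ae hc] with x a b c d e
    simp only [Function.comp_apply, E] at a b c d e ⊢
    rw [a, b, c, d, e]

end Pool.Agent.Lib.MP_78c86a_lc
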